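import Pool.Agent.H13.TQ.Stm

/-! # TQ, part A2: Stieltjes representation with the boundary density -/

namespace Pool.Agent.H13.TQ

open MeasureTheory Filter Topology Finset

noncomputable section

/-- a bound near infinity and continuity give a global bound -/
theorem A2_bound (F : ℂ → ℂ) (hc : ContinuousOn F {z | 0 ≤ z.im}) (R C : ℝ)
    (hb : ∀ w : ℂ, 0 ≤ w.im → R ≤ ‖w‖ → ‖F w‖ ≤ C / (1 + ‖w‖ ^ 2)) :
    ∃ C' : ℝ, ∀ w : ℂ, 0 ≤ w.im → ‖F w‖ ≤ C' / (1 + ‖w‖ ^ 2) := by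
  have hcomp : IsCompact ({z : ℂ | 0 ≤ z.im} ∩ Metric.closedBall 0 R) :=
    (isCompact_closedBall (0 : ℂ) R).inter_left
      (isClosed_le continuous_const Complex.continuous_im)
  have hcont : ContinuousOn (fun w : ℂ => ‖F w‖ * (1 + ‖w‖ ^ 2))
      ({z : ℂ | 0 ≤ z.im} ∩ Metric.closedBall 0 R) :=
    (hc.mono Set.inter_subset_left).norm.mul (by fun_prop)
  obtain ⟨B, hB⟩ := (hcomp.image_of_continuousOn hcont).bddAbove
  refine ⟨max B C, fun w hw => ?_⟩
  have hpos : 0 < 1 + ‖w‖ ^ 2 := by positivity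
  rcases le_total ‖w‖ R with h | h
  · rw [le_div_iff₀ hpos]
    refine le_trans ?_ (le_max_left _ _)
    apply hB
    exact ⟨w, ⟨hw, by simpa using h⟩, rfl⟩
  · refine (hb w hw h).trans ?_
    gcongr
    exact le_max_right _ _

theorem A2_int (f : ℂ → ℂ) (C : ℝ) (hc : ContinuousOn f {z | 0 ≤ z.im})
    (hb : ∀ z : ℂ, 0 ≤ z.im → ‖f z‖ ≤ C / (1 + ‖z‖ ^ 2)) :
    Integrable (fun x : ℝ => f (x : ℂ)) := by
  have hcont : Continuous (fun x : ℝ => f (x : ℂ)) := by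
    apply hc.comp_continuous Complex.continuous_ofReal
    intro x
    change 0 ≤ (x : ℂ).im
    rw [Complex.ofReal_im]
  refine Integrable.mono' (integrable_inv_one_add_sq.const_mul C) hcont.aestronglyMeasurable ?_
  refine Filter.Eventually.of_forall fun x => ?_
  have h := hb (x : ℂ) (by rw [Complex.ofReal_im])
  rw [Complex.norm_real, Real.norm_eq_abs, sq_abs, div_eq_mul_inv] at h
  exact h

/-- the Poisson integral of the constant -/
theorem A2_poisson (z : ℂ) (hz : 0 < z.im) :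
    Integrable (fun t : ℝ => (((t : ℂ) - z) * ((t : ℂ) - (starRingEnd ℂ) z))⁻¹) ∧
    ∫ t : ℝ, (((t : ℂ) - z) * ((t : ℂ) - (starRingEnd ℂ) z))⁻¹ = (Real.pi : ℂ) / z.im := by
  obtain ⟨a, ha⟩ : ∃ a, a = z.re := ⟨_, rfl⟩
  obtain ⟨b, hb⟩ : ∃ b, b = z.im := ⟨_, rfl⟩
  rw [← hb] at hz ⊢
  have e : ∀ t : ℝ, (((t : ℂ) - z) * ((t : ℂ) - (starRingEnd ℂ) z))⁻¹ =
      ((b⁻¹ ^ 2 * (1 + ((t - a) / b) ^ 2)⁻¹ : ℝ) : ℂ) := by
    intro t
    have h1 : ((t : ℂ) - z) * ((t : ℂ) - (starRingEnd ℂ) z) = (((t - a) ^ 2 + b ^ 2 : ℝ) : ℂ) := by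
      have hz1 : z = (a : ℂ) + b * Complex.I := by rw [ha, hb, Complex.re_add_im]
      have hz2 : (starRingEnd ℂ) z = (a : ℂ) - b * Complex.I := by
        rw [hz1, map_add, map_mul, Complex.conj_ofReal, Complex.conj_ofReal, Complex.conj_I]
        ring
      rw [hz2, hz1]
      push_cast
      linear_combination (-(b : ℂ) ^ 2) * Complex.I_sq
    rw [h1, ← Complex.ofReal_inv]
    congr 1
    rw [inv_pow, ← mul_inv]
    congr 1
    field_simp
    ring
  have hi : Integrable (fun t : ℝ => b⁻¹ ^ 2 * (1 + ((t - a) / b) ^ 2)⁻¹) := by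
    have h1 : Integrable (fun t : ℝ => (1 + (t / b) ^ 2)⁻¹) :=
      integrable_inv_one_add_sq.comp_div hz.ne'
    exact (h1.comp_sub_right a).const_mul _
  constructor
  · simp only [e]
    exact hi.ofReal
  · simp only [e]
    rw [integral_complex_ofReal, integral_const_mul]
    rw [integral_sub_right_eq_self (fun t : ℝ => (1 + (t / b) ^ 2)⁻¹) a]
    rw [Measure.integral_comp_div (fun t : ℝ => (1 + t ^ 2)⁻¹) b, integral_univ_inv_one_add_sq,
      abs_of_pos hz, smul_eq_mul]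
    push_cast
    field_simp

theorem A2 (hA1 : SA1) : SA2 := by
  intro g C hc hd hb z hz
  have hzb : ∀ w : ℂ, 0 ≤ w.im → w - (starRingEnd ℂ) z ≠ 0 := by
    intro w hw h
    have := congrArg Complex.im h
    simp at this
    linarith
  have hC : 0 ≤ C := by
    have h := (norm_nonneg _).trans (hb 0 (by simp))
    simpa using h
  have hnhds : {w : ℂ | 0 ≤ w.im} ∈ 𝓝 z := by
    have : {w : ℂ | 0 < w.im} ∈ 𝓝 z :=
      (isOpen_lt continuous_const Complex.continuous_im).mem_nhds hz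
    exact Filter.mem_of_superset this fun w (hw : 0 < w.im) => le_of_lt hw
  have hnhds' : {w : ℂ | 0 < w.im} ∈ 𝓝 z :=
    (isOpen_lt continuous_const Complex.continuous_im).mem_nhds hz
  have hdz : DifferentiableAt ℂ g z := hd.differentiableAt hnhds'
  -- the distances
  have hdist : ∀ w : ℂ, 2 * ‖z‖ + 1 ≤ ‖w‖ → ‖w‖ / 2 ≤ ‖w - z‖ ∧
      ‖w‖ / 2 ≤ ‖w - (starRingEnd ℂ) z‖ := by
    intro w hw
    have h1 := norm_sub_norm_le w z
    have h2 := norm_sub_norm_le w ((starRingEnd ℂ) z)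
    rw [Complex.norm_conj] at h2
    constructor <;> linarith
  -- first function
  obtain ⟨f1, hf1⟩ : ∃ f1 : ℂ → ℂ, f1 = fun w => dslope g z w / (w - (starRingEnd ℂ) z) :=
    ⟨_, rfl⟩
  obtain ⟨f2, hf2⟩ : ∃ f2 : ℂ → ℂ, f2 = fun w => g w / (w - (starRingEnd ℂ) z) := ⟨_, rfl⟩
  have c1 : ContinuousOn f1 {w | 0 ≤ w.im} := by
    rw [hf1]
    exact ((continuousOn_dslope hnhds).mpr ⟨hc, hdz⟩).div (by fun_prop) hzb
  have d1 : DifferentiableOn ℂ f1 {w | 0 < w.im} := by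
    rw [hf1]
    exact ((Complex.differentiableOn_dslope hnhds').mpr hd).div (by fun_prop)
      fun w hw => hzb w (le_of_lt hw)
  have c2 : ContinuousOn f2 {w | 0 ≤ w.im} := by
    rw [hf2]
    exact hc.div (by fun_prop) hzb
  have d2 : DifferentiableOn ℂ f2 {w | 0 < w.im} := by
    rw [hf2]
    exact hd.div (by fun_prop) fun w hw => hzb w (le_of_lt hw)
  have b1 : ∃ C' : ℝ, ∀ w : ℂ, 0 ≤ w.im → ‖f1 w‖ ≤ C' / (1 + ‖w‖ ^ 2) := by
    apply A2_bound f1 c1 (2 * ‖z‖ + 1) (16 * C)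
    intro w hw hR
    obtain ⟨h1, h2⟩ := hdist w hR
    have hw1 : 1 ≤ ‖w‖ := by
      have := norm_nonneg z
      linarith
    have hne : w ≠ z := by
      intro h
      rw [h] at hR
      have := norm_nonneg z
      linarith
    have e1 : f1 w = (g w - g z) / ((w - z) * (w - (starRingEnd ℂ) z)) := by
      rw [hf1]
      change dslope g z w / (w - (starRingEnd ℂ) z) = _
      rw [dslope_of_ne _ hne, slope_def_field, div_div]
    have h3 : ‖g w - g z‖ ≤ 2 * C := by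
      refine (norm_sub_le _ _).trans ?_
      have h4 := hb w hw
      have h5 := hb z hz.le
      have h6 : C / (1 + ‖w‖) ≤ C := div_le_self hC (by linarith)
      have h7 : C / (1 + ‖z‖) ≤ C := div_le_self hC (by linarith [norm_nonneg z])
      linarith
    rw [e1, norm_div, norm_mul]
    have h8 : (1 + ‖w‖ ^ 2) / 8 ≤ ‖w - z‖ * ‖w - (starRingEnd ℂ) z‖ := by
      calc (1 + ‖w‖ ^ 2) / 8 ≤ (‖w‖ / 2) * (‖w‖ / 2) := by nlinarith
        _ ≤ ‖w - z‖ * ‖w - (starRingEnd ℂ) z‖ := by gcongr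
    calc ‖g w - g z‖ / (‖w - z‖ * ‖w - (starRingEnd ℂ) z‖)
        ≤ 2 * C / ((1 + ‖w‖ ^ 2) / 8) := by gcongr
      _ = 16 * C / (1 + ‖w‖ ^ 2) := by
          field_simp
          ring
  have b2 : ∃ C' : ℝ, ∀ w : ℂ, 0 ≤ w.im → ‖f2 w‖ ≤ C' / (1 + ‖w‖ ^ 2) := by
    apply A2_bound f2 c2 (2 * ‖z‖ + 1) (4 * C)
    intro w hw hR
    obtain ⟨h1, h2⟩ := hdist w hR
    have hw1 : 1 ≤ ‖w‖ := by
      have := norm_nonneg z
      linarith
    rw [hf2]
    change ‖g w / (w - (starRingEnd ℂ) z)‖ ≤ _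
    rw [norm_div]
    calc ‖g w‖ / ‖w - (starRingEnd ℂ) z‖ ≤ (C / (1 + ‖w‖)) / (‖w‖ / 2) := by
          have := hb w hw
          gcongr
      _ = 2 * C / ((1 + ‖w‖) * ‖w‖) := by
          field_simp
      _ ≤ 2 * C / ((1 + ‖w‖ ^ 2) / 2) := by
          gcongr
          nlinarith
      _ = 4 * C / (1 + ‖w‖ ^ 2) := by
          field_simp
          ring
  obtain ⟨C1, hC1⟩ := b1
  obtain ⟨C2, hC2⟩ := b2
  have i1 := hA1 f1 C1 c1 d1 hC1
  have i2 := hA1 f2 C2 c2 d2 hC2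
  have n1 := A2_int f1 C1 c1 hC1
  have n2 := A2_int f2 C2 c2 hC2
  obtain ⟨n3, i3⟩ := A2_poisson z hz
  have n4 : Integrable (fun x : ℝ => (starRingEnd ℂ) (f2 (x : ℂ))) := by
    have := n2.norm
    refine (integrable_norm_iff ?_).mp ?_
    · exact Complex.continuous_conj.comp_aestronglyMeasurable n2.aestronglyMeasurable
    · simpa [Complex.norm_conj] using this
  have i4 : ∫ x : ℝ, (starRingEnd ℂ) (f2 (x : ℂ)) = 0 := by
    rw [integral_conj, i2, map_zero]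
  have key : ∀ t : ℝ, ((-(g (t : ℂ)).im / Real.pi : ℝ) : ℂ) * (z - (t : ℂ))⁻¹ =
      (2 * Real.pi * Complex.I)⁻¹ * (((z - (starRingEnd ℂ) z) * f1 t +
        (z - (starRingEnd ℂ) z) * g z * (((t : ℂ) - z) * ((t : ℂ) - (starRingEnd ℂ) z))⁻¹ +
        f2 t) - (starRingEnd ℂ) (f2 t)) := by
    intro t
    have ht1 : (t : ℂ) - z ≠ 0 := by
      intro h
      have := congrArg Complex.im h
      simp at this
      linarith
    have ht2 : (t : ℂ) - (starRingEnd ℂ) z ≠ 0 := hzb t (by simp)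
    have ht3 : z - (t : ℂ) ≠ 0 := by
      intro h
      apply ht1
      linear_combination -h
    have hne : (t : ℂ) ≠ z := fun h => ht1 (sub_eq_zero.mpr h)
    have e1 : f1 t = (g t - g z) / (((t : ℂ) - z) * ((t : ℂ) - (starRingEnd ℂ) z)) := by
      rw [hf1]
      change dslope g z (t : ℂ) / ((t : ℂ) - (starRingEnd ℂ) z) = _
      rw [dslope_of_ne _ hne, slope_def_field, div_div]
    have e2 : f2 t = g t / ((t : ℂ) - (starRingEnd ℂ) z) := by
      rw [hf2]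
    have e3 : (starRingEnd ℂ) (f2 t) = (starRingEnd ℂ) (g t) / ((t : ℂ) - z) := by
      rw [e2, map_div₀, map_sub, Complex.conj_conj, Complex.conj_ofReal]
    have e4 : (((g (t : ℂ)).im : ℝ) : ℂ) = (g t - (starRingEnd ℂ) (g t)) / (2 * Complex.I) := by
      rw [Complex.sub_conj]
      have : (Complex.I : ℂ) ≠ 0 := Complex.I_ne_zero
      push_cast
      field_simp
    rw [e3, e1, e2]
    push_cast
    rw [e4]
    have hpi : (Real.pi : ℂ) ≠ 0 := by exact_mod_cast Real.pi_ne_zero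
    have hI : (Complex.I : ℂ) ≠ 0 := Complex.I_ne_zero
    field_simp
    ring
  rw [show (fun t : ℝ => ((-(g (t : ℂ)).im / Real.pi : ℝ) : ℂ) * (z - (t : ℂ))⁻¹) =
    fun t : ℝ => (2 * Real.pi * Complex.I)⁻¹ * (((z - (starRingEnd ℂ) z) * f1 t +
        (z - (starRingEnd ℂ) z) * g z * (((t : ℂ) - z) * ((t : ℂ) - (starRingEnd ℂ) z))⁻¹ +
        f2 t) - (starRingEnd ℂ) (f2 t)) from funext key]
  have n5 : Integrable (fun t : ℝ => (z - (starRingEnd ℂ) z) * f1 t +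
        (z - (starRingEnd ℂ) z) * g z * (((t : ℂ) - z) * ((t : ℂ) - (starRingEnd ℂ) z))⁻¹) :=
    (n1.const_mul _).add (n3.const_mul _)
  have n6 : Integrable (fun t : ℝ => (z - (starRingEnd ℂ) z) * f1 t +
        (z - (starRingEnd ℂ) z) * g z * (((t : ℂ) - z) * ((t : ℂ) - (starRingEnd ℂ) z))⁻¹ +
        f2 t) := n5.add n2
  rw [integral_const_mul, integral_sub n6 n4, integral_add n5 n2,
    integral_add (n1.const_mul _) (n3.const_mul _), integral_const_mul, integral_const_mul,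
    i1, i2, i3, i4, Complex.sub_conj]
  have hpi : (Real.pi : ℂ) ≠ 0 := by exact_mod_cast Real.pi_ne_zero
  have hI : (Complex.I : ℂ) ≠ 0 := Complex.I_ne_zero
  have hb0 : (z.im : ℂ) ≠ 0 := by exact_mod_cast hz.ne'
  push_cast
  field_simp
  ring

end

end Pool.Agent.H13.TQ
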