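import Pool.Agent.H13.TQ.Stm

set_option autoImplicit false

namespace Pool.Agent.H13.TQ

open MeasureTheory Filter Topology Finset

noncomputable section

/-- the point mass at `0` -/
def dz : ProbabilityMeasure ℝ := ⟨Measure.dirac 0, Measure.dirac.isProbabilityMeasure⟩

theorem b2_K_dz (z : ℂ) : K dz z = 0 := by
  unfold K F G
  have h : ((dz : ProbabilityMeasure ℝ) : Measure ℝ) = Measure.dirac 0 := rfl
  rw [h, integral_dirac]
  simp

theorem b2_leaf (n : ℕ) [NeZero n] (μ : ProbabilityMeasure ℝ) :
    IsTreeConv (N := n) μ {[]} dz := by
  refine IsTreeConv.mk _ _ (fun _ => dz) ?_ ?_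
  · intro j hj
    exact absurd hj (by simp)
  · intro z _
    have h2 : ∀ (inst : DecidablePred fun j : Fin n => [j] ∈ ({[]} : Set (List (Fin n)))),
        (@Finset.filter _ (fun j : Fin n => [j] ∈ ({[]} : Set (List (Fin n)))) inst Finset.univ) = ∅ := by
      intro inst
      ext j
      simp
    rw [b2_K_dz, h2, Finset.sum_empty]

theorem b2_one (n : ℕ) [NeZero n] (μ : ProbabilityMeasure ℝ) :
    IsTreeConv (N := n) μ {[], [0]} μ := by
  refine IsTreeConv.mk _ _ (fun _ => dz) ?_ ?_
  · intro j hj
    have hj0 : j = 0 := by simpa using hj
    subst hj0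
    have h1 : br (0 : Fin n) {[], [0]} = {[]} := by
      ext s
      simp only [br, Set.mem_ofPred_eq, Set.mem_insert_iff, Set.mem_singleton_iff]
      constructor
      · rintro (h | h)
        · simp at h
        · have := congrArg List.length h
          simp at this
          exact this
      · rintro rfl
        right; rfl
    rw [h1]
    exact b2_leaf n μ
  · intro z _
    have h2 : ∀ (inst : DecidablePred fun j : Fin n => [j] ∈ ({[], [0]} : Set (List (Fin n)))),
        (@Finset.filter _ (fun j : Fin n => [j] ∈ ({[], [0]} : Set (List (Fin n)))) inst Finset.univ) = {0} := by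
      intro inst
      ext j
      simp
    rw [h2, Finset.sum_singleton, b2_K_dz, sub_zero]

theorem B2 : SB2 := by
  intro n _ hn μ ν h
  refine IsTreeConv.mk _ _ (fun j => if j = 0 then dz else μ) ?_ ?_
  · intro j _
    by_cases hj : j = 0
    · subst hj
      rw [if_pos rfl]
      have h1 : br (0 : Fin n) (Tn n) = {[]} := by
        ext s
        simp only [br, Tn, Set.mem_ofPred_eq, Set.mem_singleton_iff]
        constructor
        · rintro (h | ⟨j, h⟩ | ⟨j, hj, h⟩)
          · simp at h
          · have := congrArg List.length h
            simp at this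
            exact this
          · exfalso
            have h3 := congrArg List.getLast? h
            simp at h3
            exact hj h3.symm
        · rintro rfl
          right; left; exact ⟨0, rfl⟩
      rw [h1]
      exact b2_leaf n μ
    · rw [if_neg hj]
      have h1 : br j (Tn n) = {[], [0]} := by
        ext s
        simp only [br, Tn, Set.mem_ofPred_eq, Set.mem_insert_iff, Set.mem_singleton_iff]
        constructor
        · rintro (h | ⟨j', h⟩ | ⟨j', hj', h⟩)
          · simp at h
          · left
            have := congrArg List.length h
            simp at this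
            exact this
          · right
            have h3 : s ++ [j] = [0] ++ [j'] := h
            have h4 := List.append_inj' h3 rfl
            exact h4.1
        · rintro (rfl | rfl)
          · right; left; exact ⟨j, rfl⟩
          · right; right; exact ⟨j, hj, rfl⟩
      rw [h1]
      exact b2_one n μ
  · intro z hz
    rw [h z hz]
    have h2 : ∀ (inst : DecidablePred fun j : Fin n => [j] ∈ Tn n),
        (@Finset.filter _ (fun j : Fin n => [j] ∈ Tn n) inst Finset.univ) = Finset.univ := by
      intro inst
      ext j
      simp only [mem_filter, mem_univ, true_and, iff_true]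
      right; left; exact ⟨j, rfl⟩
    rw [h2, ← Finset.add_sum_erase _ _ (mem_univ (0 : Fin n)), if_pos rfl, b2_K_dz, sub_zero]
    congr 1
    have h3 : ∑ x ∈ univ.erase (0 : Fin n), K μ (z - K (if x = 0 then dz else μ) z) =
        ∑ x ∈ univ.erase (0 : Fin n), K μ (z - K μ z) := by
      apply Finset.sum_congr rfl
      intro x hx
      rw [if_neg (Finset.ne_of_mem_erase hx)]
    rw [h3, Finset.sum_const, card_erase_of_mem (mem_univ _), card_univ, Fintype.card_fin,
      nsmul_eq_mul, Nat.cast_sub (by omega)]
    simp

end

end Pool.Agent.H13.TQ
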