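import Pool.Agent.H13.TQ.Stm

set_option autoImplicit false

namespace Pool.Agent.H13.TQ

open MeasureTheory Filter Topology Finset

noncomputable section

theorem b3_norm (z : ℂ) (hz : 0 < z.im) (t : ℝ) : ‖(z - (t : ℂ))⁻¹‖ ≤ z.im⁻¹ := by
  rw [norm_inv]
  apply inv_anti₀ hz
  calc z.im = |(z - (t : ℂ)).im| := by simp [abs_of_pos hz]
    _ ≤ ‖z - (t : ℂ)‖ := Complex.abs_im_le_norm _

theorem b3_ne (z : ℂ) (hz : 0 < z.im) (t : ℝ) : z - (t : ℂ) ≠ 0 := by
  intro h
  have := congrArg Complex.im h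
  simp at this
  exact hz.ne' this

theorem b3_cont (z : ℂ) (hz : 0 < z.im) : Continuous (fun t : ℝ => (z - (t : ℂ))⁻¹) := by
  apply Continuous.inv₀
  · fun_prop
  · exact b3_ne z hz

/-- the test function -/
def b3f (z : ℂ) (hz : 0 < z.im) : BoundedContinuousFunction ℝ ℂ :=
  BoundedContinuousFunction.ofNormedAddCommGroup (fun t : ℝ => (z - (t : ℂ))⁻¹) (b3_cont z hz) z.im⁻¹
    (b3_norm z hz)

theorem b3_int (ν : ProbabilityMeasure ℝ) (z : ℂ) (hz : 0 < z.im) :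
    Integrable (fun t : ℝ => (z - (t : ℂ))⁻¹) (ν : Measure ℝ) :=
  (b3f z hz).integrable (ν : Measure ℝ)

theorem b3_G_im (ν : ProbabilityMeasure ℝ) (z : ℂ) (hz : 0 < z.im) : (G ν z).im < 0 := by
  have h1 : (G ν z).im = ∫ t : ℝ, ((z - (t : ℂ))⁻¹).im ∂(ν : Measure ℝ) := by
    unfold G
    exact (integral_im (b3_int ν z hz)).symm
  have h2 : ∀ t : ℝ, -((z - (t : ℂ))⁻¹).im > 0 := by
    intro t
    rw [Complex.inv_im]
    have h3 : 0 < Complex.normSq (z - (t : ℂ)) := Complex.normSq_pos.2 (b3_ne z hz t)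
    have h4 : (z - (t : ℂ)).im = z.im := by simp
    rw [h4, neg_div, neg_neg]
    positivity
  have h5 : 0 < ∫ t : ℝ, -((z - (t : ℂ))⁻¹).im ∂(ν : Measure ℝ) := by
    rw [integral_pos_iff_support_of_nonneg (fun t => (h2 t).le) (b3_int ν z hz).im.neg]
    have h6 : Function.support (fun t : ℝ => -((z - (t : ℂ))⁻¹).im) = Set.univ := by
      ext t
      simp only [Function.mem_support, Set.mem_univ, iff_true]
      exact (h2 t).ne'
    rw [h6]
    simp
  rw [h1]
  rw [integral_neg] at h5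
  linarith

theorem b3_G_ne (ν : ProbabilityMeasure ℝ) (z : ℂ) (hz : 0 < z.im) : G ν z ≠ 0 := by
  intro h
  have := b3_G_im ν z hz
  rw [h] at this
  simp at this

theorem B3 : SB3 := by
  intro b ν hb z hz
  have h1 : Tendsto (fun l => G (b l) z) atTop (𝓝 (G ν z)) := by
    have h2 := (ProbabilityMeasure.tendsto_iff_forall_integral_rclike_tendsto ℂ).1 hb (b3f z hz)
    exact h2
  have h3 : Tendsto (fun l => (G (b l) z)⁻¹) atTop (𝓝 (G ν z)⁻¹) := h1.inv₀ (b3_G_ne ν z hz)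
  exact tendsto_const_nhds.sub h3

end

end Pool.Agent.H13.TQ
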