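import Pool.Agent.H13.TQ.Stm

/-! Crew TQ, part C1 (helper80). -/

set_option autoImplicit false
set_option linter.all false

namespace Pool.Agent.H13.TQ

open MeasureTheory Filter Topology Finset

noncomputable section

/-- coefficients of powers -/
def C1_cf (a : ℕ → ℂ) (s r : ℕ) : ℂ := PowerSeries.coeff r ((PowerSeries.mk a) ^ s)

theorem C1_cf_succ (a : ℕ → ℂ) (s r : ℕ) :
    C1_cf a (s + 1) r = ∑ p ∈ antidiagonal r, C1_cf a s p.1 * a p.2 := by
  rw [C1_cf, pow_succ, PowerSeries.coeff_mul]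
  simp only [PowerSeries.coeff_mk]
  rfl

theorem C1_cf_zero (a : ℕ → ℂ) (r : ℕ) : C1_cf a 0 r = if r = 0 then 1 else 0 := by
  rw [C1_cf, pow_zero, PowerSeries.coeff_one]

theorem C1_cf_lt (a : ℕ → ℂ) (h0 : a 0 = 0) {s r : ℕ} (h : r < s) : C1_cf a s r = 0 := by
  have h1 : PowerSeries.X ∣ PowerSeries.mk a := by
    rw [PowerSeries.X_dvd_iff, ← PowerSeries.coeff_zero_eq_constantCoeff_apply,
      PowerSeries.coeff_mk, h0]
  exact PowerSeries.X_pow_dvd_iff.mp (pow_dvd_pow_of_dvd h1 s) r h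

theorem C1_cf_term (a : ℕ → ℂ) (Q : ℂ) (s n : ℕ) :
    ∑ p ∈ antidiagonal n, (C1_cf a s p.1 * Q ^ p.1) * (a p.2 * Q ^ p.2) = C1_cf a (s + 1) n * Q ^ n := by
  rw [C1_cf_succ, Finset.sum_mul]
  apply Finset.sum_congr rfl
  intro p hp
  rw [Finset.HasAntidiagonal.mem_antidiagonal] at hp
  rw [← hp, pow_add]
  ring

theorem C1_pow_series (a : ℕ → ℂ) (Q : ℂ) (h : Summable (fun k => ‖a k‖ * ‖Q‖ ^ k)) (s : ℕ) :
    Summable (fun r => ‖C1_cf a s r‖ * ‖Q‖ ^ r) ∧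
    ∑' r, ‖C1_cf a s r‖ * ‖Q‖ ^ r ≤ (∑' k, ‖a k‖ * ‖Q‖ ^ k) ^ s ∧
    HasSum (fun r => C1_cf a s r * Q ^ r) ((∑' k, a k * Q ^ k) ^ s) := by
  have hg : Summable (fun k => ‖a k * Q ^ k‖) := by
    simpa only [norm_mul, norm_pow] using h
  have hS0 : 0 ≤ ∑' k, ‖a k‖ * ‖Q‖ ^ k := tsum_nonneg (fun k => by positivity)
  induction s with
  | zero =>
    have e1 : HasSum (fun r => C1_cf a 0 r * Q ^ r) 1 := by
      have := hasSum_single (f := fun r => C1_cf a 0 r * Q ^ r) 0 (by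
        intro b hb
        show C1_cf a 0 b * Q ^ b = 0
        rw [C1_cf_zero, if_neg hb, zero_mul])
      simpa [C1_cf_zero] using this
    have e2 : HasSum (fun r => ‖C1_cf a 0 r‖ * ‖Q‖ ^ r) 1 := by
      have := hasSum_single (f := fun r => ‖C1_cf a 0 r‖ * ‖Q‖ ^ r) 0 (by
        intro b hb
        show ‖C1_cf a 0 b‖ * ‖Q‖ ^ b = 0
        rw [C1_cf_zero, if_neg hb, norm_zero, zero_mul])
      simpa [C1_cf_zero] using this
    refine ⟨e2.summable, ?_, ?_⟩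
    · rw [e2.tsum_eq, pow_zero]
    · rw [pow_zero]; exact e1
  | succ s ih =>
    obtain ⟨h1, h2, h3⟩ := ih
    have hf : Summable (fun r => ‖C1_cf a s r * Q ^ r‖) := by
      simpa only [norm_mul, norm_pow] using h1
    have k1 := summable_norm_sum_mul_antidiagonal_of_summable_norm hf hg
    have k2 := tsum_mul_tsum_eq_tsum_sum_antidiagonal_of_summable_norm hf hg
    simp only [C1_cf_term] at k1 k2
    have k3 : Summable (fun r => ‖C1_cf a (s + 1) r‖ * ‖Q‖ ^ r) := by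
      simpa only [norm_mul, norm_pow] using k1
    have hf' : Summable (fun r => ‖‖C1_cf a s r * Q ^ r‖‖) := by simpa only [norm_norm] using hf
    have hg' : Summable (fun r => ‖‖a r * Q ^ r‖‖) := by simpa only [norm_norm] using hg
    have l1 := (summable_norm_sum_mul_antidiagonal_of_summable_norm hf' hg').of_norm
    have l2 := tsum_mul_tsum_eq_tsum_sum_antidiagonal_of_summable_norm hf' hg'
    refine ⟨k3, ?_, ?_⟩
    · calc ∑' r, ‖C1_cf a (s + 1) r‖ * ‖Q‖ ^ r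
          ≤ ∑' n, ∑ p ∈ antidiagonal n, ‖C1_cf a s p.1 * Q ^ p.1‖ * ‖a p.2 * Q ^ p.2‖ := by
            apply k3.tsum_le_tsum _ l1
            intro n
            have : ‖C1_cf a (s + 1) n‖ * ‖Q‖ ^ n = ‖C1_cf a (s + 1) n * Q ^ n‖ := by
              rw [norm_mul, norm_pow]
            rw [this, ← C1_cf_term]
            refine (norm_sum_le _ _).trans ?_
            apply Finset.sum_le_sum
            intro p _
            rw [norm_mul]
        _ = (∑' r, ‖C1_cf a s r * Q ^ r‖) * ∑' r, ‖a r * Q ^ r‖ := l2.symm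
        _ ≤ (∑' k, ‖a k‖ * ‖Q‖ ^ k) ^ s * (∑' k, ‖a k‖ * ‖Q‖ ^ k) := by
            simp only [norm_mul, norm_pow]
            exact mul_le_mul_of_nonneg_right h2 hS0
        _ = (∑' k, ‖a k‖ * ‖Q‖ ^ k) ^ (s + 1) := (pow_succ _ _).symm
    · rw [pow_succ, ← h3.tsum_eq, k2]
      exact k1.of_norm.hasSum

/-- double series of `exp (c A(Q))` -/
def C1_FF (a : ℕ → ℂ) (c Q : ℂ) (p : ℕ × ℕ) : ℂ :=
  c ^ p.1 / (p.1.factorial : ℂ) * C1_cf a p.1 p.2 * Q ^ p.2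

theorem C1_norm_FF (a : ℕ → ℂ) (c Q : ℂ) (s r : ℕ) :
    ‖C1_FF a c Q (s, r)‖ = ‖c‖ ^ s / (s.factorial : ℝ) * (‖C1_cf a s r‖ * ‖Q‖ ^ r) := by
  rw [C1_FF, norm_mul, norm_mul, norm_div, norm_pow, norm_pow, Complex.norm_natCast]
  ring

theorem C1 : SC1 := by
  intro a c Q h0 h
  have hS0 : 0 ≤ ∑' k, ‖a k‖ * ‖Q‖ ^ k := tsum_nonneg (fun k => by positivity)
  have hin : ∀ s, Summable (fun r => ‖C1_FF a c Q (s, r)‖) := by
    intro s
    simp only [C1_norm_FF]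
    exact (C1_pow_series a Q h s).1.mul_left _
  have hin2 : ∀ s, ∑' r, ‖C1_FF a c Q (s, r)‖ ≤ (‖c‖ * ∑' k, ‖a k‖ * ‖Q‖ ^ k) ^ s / s.factorial := by
    intro s
    simp only [C1_norm_FF]
    rw [tsum_mul_left, mul_pow, div_mul_eq_mul_div]
    apply div_le_div_of_nonneg_right _ (Nat.cast_nonneg _)
    exact mul_le_mul_of_nonneg_left (C1_pow_series a Q h s).2.1 (by positivity)
  have hexp := Real.summable_pow_div_factorial (‖c‖ * ∑' k, ‖a k‖ * ‖Q‖ ^ k)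
  have hout : Summable (fun s => ∑' r, ‖C1_FF a c Q (s, r)‖) :=
    Summable.of_nonneg_of_le (fun s => tsum_nonneg (fun r => norm_nonneg _)) hin2 hexp
  have hF : Summable (fun p => ‖C1_FF a c Q p‖) :=
    (summable_prod_of_nonneg (fun p => norm_nonneg _)).mpr ⟨hin, hout⟩
  have hFs : Summable (fun p => ‖C1_FF a c Q (Prod.swap p)‖) :=
    ((Equiv.prodComm ℕ ℕ).summable_iff (f := fun p => ‖C1_FF a c Q p‖)).mpr hF
  have hFs' := (summable_prod_of_nonneg (f := fun p => ‖C1_FF a c Q (Prod.swap p)‖)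
    (fun p => norm_nonneg _)).mp hFs
  have hT := hF.of_norm.hasSum
  have e1 : HasSum (fun s => c ^ s / (s.factorial : ℂ) * (∑' k, a k * Q ^ k) ^ s)
      (∑' p, C1_FF a c Q p) := by
    apply hT.prod_fiberwise
    intro s
    have := (C1_pow_series a Q h s).2.2.mul_left (c ^ s / (s.factorial : ℂ))
    simpa only [C1_FF, mul_assoc] using this
  have e2 : HasSum (fun s => c ^ s / (s.factorial : ℂ) * (∑' k, a k * Q ^ k) ^ s)
      (Complex.exp (c * ∑' k, a k * Q ^ k)) := by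
    have := NormedSpace.expSeries_div_hasSum_exp (𝔸 := ℂ) (c * ∑' k, a k * Q ^ k)
    rw [← Complex.exp_eq_exp_ℂ] at this
    simpa only [mul_pow, div_mul_eq_mul_div] using this
  have hval : ∑' p, C1_FF a c Q p = Complex.exp (c * ∑' k, a k * Q ^ k) := e1.unique e2
  have hec : ∀ r, HasSum (fun s => C1_FF a c Q (s, r)) (ec a c r * Q ^ r) := by
    intro r
    have h1 : ∀ s ∉ range (r + 1), C1_FF a c Q (s, r) = 0 := by
      intro s hs
      rw [Finset.mem_range, not_lt] at hs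
      rw [C1_FF, C1_cf_lt a h0 (by omega : r < s)]
      simp
    have h2 : HasSum (fun s => C1_FF a c Q (s, r)) (∑ s ∈ range (r + 1), C1_FF a c Q (s, r)) :=
      hasSum_sum_of_ne_finset_zero h1
    have h3 : ∑ s ∈ range (r + 1), C1_FF a c Q (s, r) = ec a c r * Q ^ r := by
      rw [ec, Finset.sum_mul]
      rfl
    rw [h3] at h2
    exact h2
  have hbd : ∀ r, ‖ec a c r‖ * ‖Q‖ ^ r ≤ ∑' s, ‖C1_FF a c Q (s, r)‖ := by
    intro r
    have h1 : ‖ec a c r‖ * ‖Q‖ ^ r = ‖ec a c r * Q ^ r‖ := by rw [norm_mul, norm_pow]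
    rw [h1, ← (hec r).tsum_eq]
    exact norm_tsum_le_tsum_norm (hFs'.1 r)
  have hsum2 : Summable (fun r => ‖ec a c r‖ * ‖Q‖ ^ r) :=
    Summable.of_nonneg_of_le (fun r => by positivity) hbd hFs'.2
  refine ⟨?_, hsum2, ?_⟩
  · rw [← hval]
    have hT2 := ((Equiv.prodComm ℕ ℕ).hasSum_iff (f := C1_FF a c Q)).mpr hT
    exact hT2.prod_fiberwise hec
  · calc ∑' r, ‖ec a c r‖ * ‖Q‖ ^ r ≤ ∑' r, ∑' s, ‖C1_FF a c Q (s, r)‖ :=
          hsum2.tsum_le_tsum hbd hFs'.2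
      _ = ∑' s, ∑' r, ‖C1_FF a c Q (s, r)‖ := by
          apply Summable.tsum_comm' (f := fun s r => ‖C1_FF a c Q (s, r)‖) hF hin
          intro r
          exact hFs'.1 r
      _ ≤ ∑' s : ℕ, (‖c‖ * ∑' k, ‖a k‖ * ‖Q‖ ^ k) ^ s / s.factorial :=
          hout.tsum_le_tsum hin2 hexp
      _ = Real.exp (‖c‖ * ∑' k, ‖a k‖ * ‖Q‖ ^ k) := by
          have := NormedSpace.expSeries_div_hasSum_exp (𝔸 := ℝ) (‖c‖ * ∑' k, ‖a k‖ * ‖Q‖ ^ k)
          rw [← Real.exp_eq_exp_ℝ] at this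
          exact this.tsum_eq

end

end Pool.Agent.H13.TQ
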