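import Pool.Agent.H13.TQ.Stm

/-! Crew TQ, part C2 (helper80). -/

set_option autoImplicit false
set_option linter.all false

namespace Pool.Agent.H13.TQ

open MeasureTheory Filter Topology Finset

noncomputable section

theorem C2_antidiag {F : ℕ × ℕ → ℂ} {S : ℂ} (h : HasSum F S) :
    HasSum (fun k => ∑ l ∈ range (k + 1), F (l, k - l)) S := by
  have h1 := (Finset.HasAntidiagonal.sigmaAntidiagonalEquivProd (A := ℕ)).hasSum_iff.mpr h
  refine h1.sigma (fun n => ?_)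
  have h2 := hasSum_fintype (fun c : (antidiagonal n : Finset (ℕ × ℕ)) => F (c : ℕ × ℕ))
  have h3 : ∑ c : (antidiagonal n : Finset (ℕ × ℕ)), F (c : ℕ × ℕ)
      = ∑ l ∈ range (n + 1), F (l, n - l) := by
    rw [Finset.sum_coe_sort (antidiagonal n) F]
    exact Finset.Nat.sum_antidiagonal_eq_sum_range_succ (fun a b => F (a, b)) n
  rw [h3] at h2
  exact h2

/-- the double series -/
def C2_G (a : ℕ → ℂ) (p Q : ℂ) (x : ℕ × ℕ) : ℂ :=
  (a x.1 * p ^ x.1 * Q ^ x.1) * (ec a (Complex.I * (x.1 : ℂ)) x.2 * Q ^ x.2)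

theorem C2 (hC1 : SC1) : SC2 := by
  intro a p Q h0 h hl
  have hS0 : 0 ≤ ∑' k, ‖a k‖ * ‖Q‖ ^ k := tsum_nonneg (fun k => by positivity)
  have hnorm : ∀ l r, ‖C2_G a p Q (l, r)‖
      = ‖a l * p ^ l * Q ^ l‖ * (‖ec a (Complex.I * (l : ℂ)) r‖ * ‖Q‖ ^ r) := by
    intro l r
    rw [C2_G, norm_mul, norm_mul (ec _ _ _), norm_pow Q r]
  have hin : ∀ l, Summable (fun r => ‖C2_G a p Q (l, r)‖) := by
    intro l
    simp only [hnorm]
    exact (hC1 a (Complex.I * (l : ℂ)) Q h0 h).2.1.mul_left _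
  have hI : ∀ l : ℕ, ‖Complex.I * (l : ℂ)‖ = l := by
    intro l
    rw [norm_mul, Complex.norm_I, one_mul, Complex.norm_natCast]
  have hin2 : ∀ l, ∑' r, ‖C2_G a p Q (l, r)‖
      ≤ ‖a l‖ * (‖p‖ * ‖Q‖ * Real.exp (∑' k, ‖a k‖ * ‖Q‖ ^ k)) ^ l := by
    intro l
    simp only [hnorm]
    rw [tsum_mul_left]
    have h1 := (hC1 a (Complex.I * (l : ℂ)) Q h0 h).2.2
    rw [hI] at h1
    calc ‖a l * p ^ l * Q ^ l‖ * ∑' r, ‖ec a (Complex.I * (l : ℂ)) r‖ * ‖Q‖ ^ r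
        ≤ ‖a l * p ^ l * Q ^ l‖ * Real.exp ((l : ℝ) * ∑' k, ‖a k‖ * ‖Q‖ ^ k) :=
          mul_le_mul_of_nonneg_left h1 (norm_nonneg _)
      _ = ‖a l‖ * (‖p‖ * ‖Q‖ * Real.exp (∑' k, ‖a k‖ * ‖Q‖ ^ k)) ^ l := by
          rw [norm_mul, norm_mul, norm_pow, norm_pow, Real.exp_nat_mul, mul_pow, mul_pow]
          ring
  have hout : Summable (fun l => ∑' r, ‖C2_G a p Q (l, r)‖) :=
    Summable.of_nonneg_of_le (fun s => tsum_nonneg (fun r => norm_nonneg _)) hin2 hl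
  have hF : Summable (fun x => ‖C2_G a p Q x‖) :=
    (summable_prod_of_nonneg (fun p => norm_nonneg _)).mpr ⟨hin, hout⟩
  have hT := hF.of_norm.hasSum
  have e1 : HasSum (fun l => a l * (p * Q * Complex.exp (Complex.I * ∑' k, a k * Q ^ k)) ^ l)
      (∑' x, C2_G a p Q x) := by
    apply hT.prod_fiberwise
    intro l
    have h2 := (hC1 a (Complex.I * (l : ℂ)) Q h0 h).1.mul_left (a l * p ^ l * Q ^ l)
    have h3 : a l * p ^ l * Q ^ l * Complex.exp (Complex.I * (l : ℂ) * ∑' k, a k * Q ^ k)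
        = a l * (p * Q * Complex.exp (Complex.I * ∑' k, a k * Q ^ k)) ^ l := by
      have h4 : Complex.I * (l : ℂ) * ∑' k, a k * Q ^ k
          = (l : ℂ) * (Complex.I * ∑' k, a k * Q ^ k) := by ring
      rw [h4, Complex.exp_nat_mul, mul_pow, mul_pow]
      ring
    rw [h3] at h2
    exact h2
  rw [e1.tsum_eq]
  have h5 := C2_antidiag hT
  have h6 : (fun k => ∑ l ∈ range (k + 1), C2_G a p Q (l, k - l))
      = fun k => (∑ l ∈ range (k + 1), a l * p ^ l * ec a (Complex.I * (l : ℂ)) (k - l)) * Q ^ k := by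
    funext k
    rw [Finset.sum_mul]
    apply Finset.sum_congr rfl
    intro l hl
    rw [Finset.mem_range] at hl
    have h7 : Q ^ k = Q ^ l * Q ^ (k - l) := by
      rw [← pow_add]
      congr 1
      omega
    rw [C2_G, h7]
    ring
  rw [h6] at h5
  exact h5

end

end Pool.Agent.H13.TQ
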