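import Pool.Agent.H13.TQ.Stm

namespace Pool.Agent.H13.TQ

open MeasureTheory Filter Topology Finset

noncomputable section

/-- the majorant of the terms, `Im z > -1` -/
def c3u (t : ℝ) (k : ℕ) : ℝ := if k = 0 then 0 else 3 * t * (1 / 100) ^ (k - 1) * Real.exp 1 ^ k

theorem c3u_succ (t : ℝ) (j : ℕ) : c3u t (j + 1) = 3 * t * Real.exp 1 * (Real.exp 1 / 100) ^ j := by
  rw [c3u, if_neg (Nat.succ_ne_zero j), Nat.add_sub_cancel, div_pow, div_pow, one_pow]
  ring

theorem c3_e : Real.exp 1 / 100 < 3 / 100 := by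
  have := Real.exp_one_lt_d9
  linarith

theorem c3_epos : 0 < Real.exp 1 / 100 := by positivity

theorem c3_geom : Summable fun j : ℕ => (Real.exp 1 / 100) ^ j :=
  summable_geometric_of_lt_one c3_epos.le (by have := c3_e; linarith)

theorem c3_geom_le : ∑' j : ℕ, (Real.exp 1 / 100) ^ j ≤ 2 := by
  rw [tsum_geometric_of_lt_one c3_epos.le (by have := c3_e; linarith)]
  rw [inv_le_comm₀ (by have := c3_e; linarith) (by norm_num)]
  have := c3_e
  linarith

theorem c3u_summable (t : ℝ) : Summable (c3u t) := by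
  rw [← summable_nat_add_iff 1]
  have : (fun n => c3u t (n + 1)) = fun j => 3 * t * Real.exp 1 * (Real.exp 1 / 100) ^ j := by
    funext j
    exact c3u_succ t j
  rw [this]
  exact c3_geom.mul_left _

theorem c3u_tsum_le (t : ℝ) (ht : 0 < t) (ht1 : t ≤ 1 / 100) : ∑' k, c3u t k ≤ 1 := by
  have h := (c3u_summable t).tsum_eq_zero_add
  rw [h]
  have h0 : c3u t 0 = 0 := by simp [c3u]
  have h1 : (fun n => c3u t (n + 1)) = fun j => 3 * t * Real.exp 1 * (Real.exp 1 / 100) ^ j := by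
    funext j
    exact c3u_succ t j
  rw [h0, zero_add, h1, tsum_mul_left]
  have h2 := c3_geom_le
  have h3 : 3 * t * Real.exp 1 ≤ 3 * (1 / 100) * 3 := by
    have := Real.exp_one_lt_d9
    gcongr
    linarith
  have h4 : 0 ≤ ∑' j : ℕ, (Real.exp 1 / 100) ^ j := tsum_nonneg fun j => by positivity
  calc 3 * t * Real.exp 1 * ∑' j : ℕ, (Real.exp 1 / 100) ^ j
      ≤ (3 * (1 / 100) * 3) * 2 := mul_le_mul h3 h2 h4 (by norm_num)
    _ ≤ 1 := by norm_num

theorem c3_nR_norm (m : ℕ) : ‖(nR : ℂ) ^ m‖ = nR ^ m := by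
  rw [norm_pow, Complex.norm_real, Real.norm_eq_abs, abs_of_pos (by unfold nR; norm_num)]

theorem c3_nR_one_le (m : ℕ) : 1 ≤ nR ^ m := one_le_pow₀ (by unfold nR; norm_num)

theorem c3_exp_norm (k : ℕ) (z : ℂ) (hz : -1 < z.im) :
    ‖Complex.exp (Complex.I * (k : ℂ) * z)‖ ≤ Real.exp 1 ^ k := by
  rw [Complex.norm_exp, ← Real.exp_nat_mul]
  apply Real.exp_le_exp.2
  have : (Complex.I * (k : ℂ) * z).re = -(k * z.im) := by simp
  rw [this]
  have hk : (0 : ℝ) ≤ k := Nat.cast_nonneg k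
  nlinarith

theorem c3_term (t : ℝ) (g : ℕ → ℕ → ℂ) (h0 : ∀ m, g m 0 = 0)
    (hb : ∀ m k, 1 ≤ k → nR ^ m * ‖g m k‖ ≤ 3 * t * (1 / 100) ^ (k - 1)) (m k : ℕ) (z : ℂ)
    (hz : -1 < z.im) :
    ‖(nR : ℂ) ^ m * (g m k * Complex.exp (Complex.I * (k : ℂ) * z))‖ ≤ c3u t k := by
  rw [norm_mul, norm_mul, c3_nR_norm]
  rcases Nat.eq_zero_or_pos k with hk | hk
  · subst hk
    rw [h0]
    simp [c3u]
  · rw [c3u, if_neg (by omega), ← mul_assoc]
    exact mul_le_mul (hb m k hk) (c3_exp_norm k z hz) (norm_nonneg _)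
      (le_trans (by have := c3_nR_one_le m; positivity) (hb m k hk))

theorem c3_term' (t : ℝ) (g : ℕ → ℕ → ℂ) (h0 : ∀ m, g m 0 = 0)
    (hb : ∀ m k, 1 ≤ k → nR ^ m * ‖g m k‖ ≤ 3 * t * (1 / 100) ^ (k - 1)) (m k : ℕ) (z : ℂ)
    (hz : -1 < z.im) :
    ‖g m k * Complex.exp (Complex.I * (k : ℂ) * z)‖ ≤ c3u t k := by
  refine le_trans ?_ (c3_term t g h0 hb m k z hz)
  rw [norm_mul ((nR : ℂ) ^ m), c3_nR_norm]
  have h1 := c3_nR_one_le m
  have h2 := norm_nonneg (g m k * Complex.exp (Complex.I * (k : ℂ) * z))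
  calc ‖g m k * Complex.exp (Complex.I * (k : ℂ) * z)‖
      = 1 * ‖g m k * Complex.exp (Complex.I * (k : ℂ) * z)‖ := (one_mul _).symm
    _ ≤ _ := mul_le_mul_of_nonneg_right h1 h2

theorem c3_summable (t : ℝ) (g : ℕ → ℕ → ℂ) (h0 : ∀ m, g m 0 = 0)
    (hb : ∀ m k, 1 ≤ k → nR ^ m * ‖g m k‖ ≤ 3 * t * (1 / 100) ^ (k - 1)) (m : ℕ) (z : ℂ)
    (hz : -1 < z.im) :
    Summable fun k : ℕ => g m k * Complex.exp (Complex.I * (k : ℂ) * z) :=
  Summable.of_norm_bounded (c3u_summable t) fun k => c3_term' t g h0 hb m k z hz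

theorem c3_scaled (g : ℕ → ℕ → ℂ) (m : ℕ) (z : ℂ) :
    (nR : ℂ) ^ m * gfun g m z = Complex.I * (nR : ℂ) * Lam +
      ∑' k : ℕ, (nR : ℂ) ^ m * (g m k * Complex.exp (Complex.I * (k : ℂ) * z)) := by
  have hn : (nR : ℂ) ^ m ≠ 0 := by
    rw [← norm_pos_iff, c3_nR_norm]
    have := c3_nR_one_le m
    linarith
  rw [gfun, tsum_mul_left, mul_add, mul_div_cancel₀ _ hn]

theorem c3_tail (t : ℝ) (g : ℕ → ℕ → ℂ) (ht : 0 < t) (ht1 : t ≤ 1 / 100) (h0 : ∀ m, g m 0 = 0)
    (hb : ∀ m k, 1 ≤ k → nR ^ m * ‖g m k‖ ≤ 3 * t * (1 / 100) ^ (k - 1)) (m : ℕ) (z : ℂ)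
    (hz : -1 < z.im) :
    ‖∑' k : ℕ, (nR : ℂ) ^ m * (g m k * Complex.exp (Complex.I * (k : ℂ) * z))‖ ≤ 1 := by
  refine (tsum_of_norm_bounded (c3u_summable t).hasSum fun k => c3_term t g h0 hb m k z hz).trans ?_
  exact c3u_tsum_le t ht ht1

theorem C3 (hD0 : SD0) : SC3 := by
  intro t g ht ht1 h0 hb
  obtain ⟨hL1, hL2, hLam, -, -⟩ := hD0
  have hn : (nR : ℝ) = 1000000 := rfl
  have hnorm : ‖(nR : ℂ)‖ = nR := by
    rw [Complex.norm_real, Real.norm_eq_abs, abs_of_pos (by rw [hn]; norm_num)]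
  refine ⟨?_, ?_, ?_, ?_, ?_⟩
  · intro m
    have hd : DifferentiableOn ℂ (fun z => ∑' k : ℕ, g m k * Complex.exp (Complex.I * (k : ℂ) * z))
        {z | -1 < z.im} := by
      refine Complex.differentiableOn_tsum_of_summable_norm (c3u_summable t) (fun k => ?_)
        (isOpen_lt continuous_const Complex.continuous_im) (fun k z hz => c3_term' t g h0 hb m k z hz)
      refine Differentiable.differentiableOn ?_
      exact (differentiable_const _).mul
        (((differentiable_const _).mul differentiable_id).cexp)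
    exact (differentiableOn_const _).add hd
  · intro m z hz
    rw [c3_scaled g m z]
    refine (norm_add_le _ _).trans ?_
    have h1 := c3_tail t g ht ht1 h0 hb m z hz
    have h2 : ‖Complex.I * (nR : ℂ) * Lam‖ ≤ nR * 15 := by
      rw [norm_mul, norm_mul, Complex.norm_I, one_mul, hnorm]
      exact mul_le_mul_of_nonneg_left hLam.le (by rw [hn]; norm_num)
    have h3 : nR * 15 + 1 ≤ 1000 * nR := by rw [hn]; norm_num
    linarith
  · intro m z hz
    rw [c3_scaled g m z, Complex.add_im]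
    have h1 := c3_tail t g ht ht1 h0 hb m z hz
    have h2 := Complex.abs_im_le_norm
      (∑' k : ℕ, (nR : ℂ) ^ m * (g m k * Complex.exp (Complex.I * (k : ℂ) * z)))
    have h3 := neg_abs_le
      (∑' k : ℕ, (nR : ℂ) ^ m * (g m k * Complex.exp (Complex.I * (k : ℂ) * z))).im
    have h4 : (Complex.I * (nR : ℂ) * Lam).im = nR * L := by
      have : Complex.I * (nR : ℂ) * Lam = ((nR * Real.pi : ℝ) : ℂ) + ((nR * L : ℝ) : ℂ) * Complex.I := by
        rw [Lam]
        push_cast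
        linear_combination (-(nR : ℂ) * (Real.pi : ℂ)) * Complex.I_sq
      rw [this]
      simp
    have h5 : nR * 13 ≤ nR * L := mul_le_mul_of_nonneg_left hL1.le (by rw [hn]; norm_num)
    have h6 : 2 ≤ nR * 13 := by rw [hn]; norm_num
    rw [h4]
    linarith
  · intro m z _
    unfold gfun
    congr 1
    refine tsum_congr fun k => ?_
    congr 1
    have : Complex.I * (k : ℂ) * (z + 2 * (Real.pi : ℂ)) =
        Complex.I * (k : ℂ) * z + (k : ℂ) * (2 * (Real.pi : ℂ) * Complex.I) := by ring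
    rw [this, Complex.exp_add, Complex.exp_nat_mul, Complex.exp_two_pi_mul_I, one_pow, mul_one]
  · intro hodd z _
    unfold gfun
    congr 1
    refine tsum_congr fun k => ?_
    rcases Nat.even_or_odd k with hk | hk
    · congr 1
      have : Complex.I * (k : ℂ) * (z + (Real.pi : ℂ)) =
          Complex.I * (k : ℂ) * z + (k : ℂ) * ((Real.pi : ℂ) * Complex.I) := by ring
      rw [this, Complex.exp_add, Complex.exp_nat_mul, Complex.exp_pi_mul_I, hk.neg_one_pow, mul_one]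
    · rw [hodd k hk, zero_mul, zero_mul]

end

end Pool.Agent.H13.TQ
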