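import Pool.Agent.H13.TQ.Stm

namespace Pool.Agent.H13.TQ

open MeasureTheory Filter Topology Finset

noncomputable section

theorem c4_nR_norm (m : ℕ) : ‖(nR : ℂ) ^ m‖ = nR ^ m := by
  rw [norm_pow, Complex.norm_real, Real.norm_eq_abs, abs_of_pos (by unfold nR; norm_num)]

theorem c4_nR_one_le (m : ℕ) : 1 ≤ nR ^ m := one_le_pow₀ (by unfold nR; norm_num)

theorem c4_exp1 (k : ℕ) : Complex.exp (Complex.I * (k : ℂ) * Complex.I) =
    ((Real.exp (-(k : ℝ)) : ℝ) : ℂ) := by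
  push_cast
  congr 1
  linear_combination ((k : ℂ)) * Complex.I_sq

theorem c4_exp2 (k : ℕ) : Complex.exp (Complex.I * (k : ℂ) * (Complex.I + (Real.pi : ℂ))) =
    ((Real.exp (-(k : ℝ)) : ℝ) : ℂ) * (-1) ^ k := by
  have : Complex.I * (k : ℂ) * (Complex.I + (Real.pi : ℂ)) =
      Complex.I * (k : ℂ) * Complex.I + (k : ℂ) * ((Real.pi : ℂ) * Complex.I) := by ring
  rw [this, Complex.exp_add, Complex.exp_nat_mul, Complex.exp_pi_mul_I, c4_exp1]

/-- term of the difference -/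
def c4f (g : ℕ → ℕ → ℂ) (m k : ℕ) : ℂ :=
  (nR : ℂ) ^ m * (g m k * Complex.exp (Complex.I * (k : ℂ) * Complex.I)) -
    (nR : ℂ) ^ m * (g m k * Complex.exp (Complex.I * (k : ℂ) * (Complex.I + (Real.pi : ℂ))))

theorem c4_bd (t : ℝ) (g : ℕ → ℕ → ℂ)
    (hb : ∀ m k, 1 ≤ k → nR ^ m * ‖g m k‖ ≤ 3 * t * (1 / 100) ^ (k - 1)) (m k : ℕ) (e : ℂ)
    (he : ‖e‖ ≤ Real.exp (-1)) (hk : 1 ≤ k) :
    ‖(nR : ℂ) ^ m * (g m k * e)‖ ≤ 3 * t * Real.exp (-1) * (1 / 100) ^ (k - 1) := by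
  rw [norm_mul, norm_mul, c4_nR_norm, ← mul_assoc]
  calc nR ^ m * ‖g m k‖ * ‖e‖ ≤ (3 * t * (1 / 100) ^ (k - 1)) * Real.exp (-1) :=
        mul_le_mul (hb m k hk) he (norm_nonneg _)
          (le_trans (by have := c4_nR_one_le m; positivity) (hb m k hk))
    _ = _ := by ring

theorem c4_e1 (k : ℕ) (hk : 1 ≤ k) :
    ‖Complex.exp (Complex.I * (k : ℂ) * Complex.I)‖ ≤ Real.exp (-1) := by
  rw [c4_exp1, Complex.norm_real, Real.norm_eq_abs, abs_of_pos (Real.exp_pos _)]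
  apply Real.exp_le_exp.2
  have : (1 : ℝ) ≤ k := by exact_mod_cast hk
  linarith

theorem c4_e2 (k : ℕ) (hk : 1 ≤ k) :
    ‖Complex.exp (Complex.I * (k : ℂ) * (Complex.I + (Real.pi : ℂ)))‖ ≤ Real.exp (-1) := by
  rw [c4_exp2, norm_mul, Complex.norm_real, Real.norm_eq_abs, abs_of_pos (Real.exp_pos _), norm_pow,
    norm_neg, norm_one, one_pow, mul_one]
  apply Real.exp_le_exp.2
  have : (1 : ℝ) ≤ k := by exact_mod_cast hk
  linarith

theorem c4_summable (t : ℝ) (g : ℕ → ℕ → ℂ)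
    (hb : ∀ m k, 1 ≤ k → nR ^ m * ‖g m k‖ ≤ 3 * t * (1 / 100) ^ (k - 1)) (m : ℕ) (e : ℕ → ℂ)
    (he : ∀ k, 1 ≤ k → ‖e k‖ ≤ Real.exp (-1)) :
    Summable fun k : ℕ => (nR : ℂ) ^ m * (g m k * e k) := by
  rw [← summable_nat_add_iff 1]
  refine Summable.of_norm_bounded (g := fun k : ℕ => 3 * t * Real.exp (-1) * (1 / 100) ^ k) ?_ ?_
  · exact (summable_geometric_of_lt_one (by norm_num) (by norm_num)).mul_left _
  · intro k
    exact c4_bd t g hb m (k + 1) (e (k + 1)) (he (k + 1) (by omega)) (by omega)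

theorem c4_scaled (g : ℕ → ℕ → ℂ) (m : ℕ) (z : ℂ) :
    (nR : ℂ) ^ m * gfun g m z = Complex.I * (nR : ℂ) * Lam +
      ∑' k : ℕ, (nR : ℂ) ^ m * (g m k * Complex.exp (Complex.I * (k : ℂ) * z)) := by
  have hn : (nR : ℂ) ^ m ≠ 0 := by
    rw [← norm_pos_iff, c4_nR_norm]
    have := c4_nR_one_le m
    linarith
  rw [gfun, tsum_mul_left, mul_add, mul_div_cancel₀ _ hn]

theorem C4 : SC4 := by
  intro t g ht ht1 h0 hb hlim
  have h1 := Metric.tendsto_atTop.1 hlim (t / 4) (by positivity)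
  obtain ⟨m0, hm0⟩ := h1
  refine ⟨m0, fun m hm => ?_⟩
  have hm1 : ‖(nR : ℂ) ^ m * g m 1 - (t : ℂ)‖ < t / 4 := by
    have := hm0 m hm
    rwa [dist_eq_norm] at this
  have hs1 := c4_summable t g hb m (fun k => Complex.exp (Complex.I * (k : ℂ) * Complex.I)) c4_e1
  have hs2 := c4_summable t g hb m
    (fun k => Complex.exp (Complex.I * (k : ℂ) * (Complex.I + (Real.pi : ℂ)))) c4_e2
  have hD : (nR : ℂ) ^ m * (gfun g m Complex.I - gfun g m (Complex.I + (Real.pi : ℂ))) =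
      ∑' k, c4f g m k := by
    rw [mul_sub, c4_scaled, c4_scaled]
    unfold c4f
    rw [hs1.tsum_sub hs2]
    ring
  have hsf : Summable (c4f g m) := hs1.sub hs2
  have hf0 : c4f g m 0 = 0 := by
    unfold c4f
    rw [h0]
    ring
  have hf1 : c4f g m 1 = 2 * ((Real.exp (-1) : ℝ) : ℂ) * ((nR : ℂ) ^ m * g m 1) := by
    unfold c4f
    rw [c4_exp1, c4_exp2]
    simp only [Nat.cast_one, pow_one]
    ring
  have hsplit : ∑' k, c4f g m k = c4f g m 1 + ∑' j, c4f g m (j + 2) := by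
    have e1 := hsf.sum_add_tsum_nat_add 2
    rw [← e1, Finset.sum_range_succ, Finset.sum_range_one, hf0, zero_add]
  have htail : ‖∑' j, c4f g m (j + 2)‖ ≤ t * Real.exp (-1) / 4 := by
    have hg : Summable fun j : ℕ => 6 * t * Real.exp (-1) / 100 * ((1 : ℝ) / 100) ^ j :=
      (summable_geometric_of_lt_one (by norm_num) (by norm_num)).mul_left _
    have h2 : ∀ j : ℕ, ‖c4f g m (j + 2)‖ ≤ 6 * t * Real.exp (-1) / 100 * ((1 : ℝ) / 100) ^ j := by
      intro j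
      unfold c4f
      refine (norm_sub_le _ _).trans ?_
      have a1 := c4_bd t g hb m (j + 2) _ (c4_e1 (j + 2) (by omega)) (by omega)
      have a2 := c4_bd t g hb m (j + 2) _ (c4_e2 (j + 2) (by omega)) (by omega)
      have e2 : j + 2 - 1 = j + 1 := by omega
      rw [e2] at a1 a2
      calc _ ≤ 3 * t * Real.exp (-1) * (1 / 100) ^ (j + 1) +
            3 * t * Real.exp (-1) * (1 / 100) ^ (j + 1) := add_le_add a1 a2
        _ = _ := by ring
    refine (tsum_of_norm_bounded hg.hasSum h2).trans ?_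
    rw [tsum_mul_left, tsum_geometric_of_lt_one (by norm_num) (by norm_num)]
    have : 0 < t * Real.exp (-1) := by positivity
    have e3 : 6 * t * Real.exp (-1) / 100 * (1 - 1 / 100)⁻¹ = (t * Real.exp (-1)) * (6 / 99) := by
      norm_num
      ring
    rw [e3]
    linarith
  have hnorm : ‖((2 * t * Real.exp (-1) : ℝ) : ℂ)‖ = 2 * t * Real.exp (-1) := by
    rw [Complex.norm_real, Real.norm_eq_abs, abs_of_pos (by positivity)]
  rw [hD, hsplit, hf1, hnorm]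
  have e4 : 2 * ((Real.exp (-1) : ℝ) : ℂ) * ((nR : ℂ) ^ m * g m 1) + ∑' j, c4f g m (j + 2) -
      ((2 * t * Real.exp (-1) : ℝ) : ℂ) =
      2 * ((Real.exp (-1) : ℝ) : ℂ) * ((nR : ℂ) ^ m * g m 1 - (t : ℂ)) +
        ∑' j, c4f g m (j + 2) := by
    push_cast
    ring
  rw [e4]
  refine (norm_add_le _ _).trans ?_
  have h5 : ‖2 * ((Real.exp (-1) : ℝ) : ℂ) * ((nR : ℂ) ^ m * g m 1 - (t : ℂ))‖ ≤
      2 * Real.exp (-1) * (t / 4) := by
    rw [norm_mul, norm_mul, Complex.norm_real, Real.norm_eq_abs, abs_of_pos (Real.exp_pos _)]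
    have : ‖(2 : ℂ)‖ = 2 := by simp
    rw [this]
    exact mul_le_mul_of_nonneg_left hm1.le (by positivity)
  have : 0 < t * Real.exp (-1) := by positivity
  linarith

end

end Pool.Agent.H13.TQ
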