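import Pool.Agent.H13.TQ.Stm

/-! Crew TQ, part C5 (helper80). -/

set_option autoImplicit false
set_option linter.all false

namespace Pool.Agent.H13.TQ

open MeasureTheory Filter Topology Finset

noncomputable section

theorem C5_ec_zero (a : ℕ → ℂ) (c : ℂ) : ec a c 0 = 1 := by
  simp [ec]

theorem C5_geom {t : ℝ} (ht0 : 0 < t) (ht : t ≤ 1 / 100) {a : ℕ → ℂ} (h0 : a 0 = 0)
    (h : ∀ k, 1 ≤ k → ‖a k‖ ≤ 3 * t * (1 / 100) ^ (k - 1)) {x : ℝ} (hx0 : 0 ≤ x) (hx : x ≤ 2) :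
    Summable (fun k => ‖a k‖ * x ^ k) ∧ ∑' k, ‖a k‖ * x ^ k ≤ 1 / 15 := by
  have hb : ∀ k, ‖a k‖ * x ^ k ≤ 3 * (x / 100) ^ k := by
    intro k
    rcases Nat.eq_zero_or_pos k with rfl | hk
    · rw [h0]; norm_num
    · have h1 := h k hk
      have h2 : (3 : ℝ) * t * (1 / 100) ^ (k - 1) ≤ 3 * (1 / 100) ^ k := by
        have e : (1 / 100 : ℝ) ^ k = (1 / 100) ^ (k - 1) * (1 / 100) := by
          rw [← pow_succ]
          congr 1
          omega
        rw [e]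
        have : (0 : ℝ) < (1 / 100) ^ (k - 1) := by positivity
        nlinarith
      calc ‖a k‖ * x ^ k ≤ (3 * (1 / 100) ^ k) * x ^ k :=
            mul_le_mul_of_nonneg_right (h1.trans h2) (by positivity)
        _ = 3 * (x / 100) ^ k := by
            rw [mul_assoc, ← mul_pow]
            congr 2
            ring
  have hs0 : Summable (fun k => (x / 100) ^ k) :=
    summable_geometric_of_lt_one (by positivity) (by linarith)
  have hs : Summable (fun k => ‖a k‖ * x ^ k) :=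
    Summable.of_nonneg_of_le (fun k => by positivity) hb (hs0.mul_left 3)
  refine ⟨hs, ?_⟩
  rw [hs.tsum_eq_zero_add, h0, norm_zero, zero_mul, zero_add]
  have hs1 : Summable (fun k => (x / 100) ^ (k + 1)) := (summable_nat_add_iff 1).mpr hs0
  calc ∑' k, ‖a (k + 1)‖ * x ^ (k + 1) ≤ ∑' k, 3 * (x / 100) ^ (k + 1) :=
        ((summable_nat_add_iff 1).mpr hs).tsum_le_tsum (fun k => hb (k + 1)) (hs1.mul_left 3)
    _ = 3 * ((x / 100) * (1 - x / 100)⁻¹) := by
        rw [tsum_mul_left]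
        congr 1
        simp only [pow_succ']
        rw [tsum_mul_left, tsum_geometric_of_lt_one (by positivity) (by linarith)]
    _ ≤ 1 / 15 := by
        rw [← div_eq_mul_inv, ← mul_div_assoc, div_le_div_iff₀ (by linarith) (by norm_num)]
        linarith

theorem C5 (hC2 : SC2) (hD0 : SD0) : SC5 := by
  intro t g ht0 ht hg0 hb hrec m z hz
  have hnR : (0 : ℝ) < nR := by unfold nR; norm_num
  have hnR1 : (1 : ℝ) ≤ nR := by unfold nR; norm_num
  have hnRc : (nR : ℂ) ≠ 0 := by exact_mod_cast hnR.ne'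
  have hbound : ∀ m k, 1 ≤ k → ‖g m k‖ ≤ 3 * t * (1 / 100) ^ (k - 1) := by
    intro m k hk
    have h1 := hb m k hk
    have h2 : ‖g m k‖ ≤ nR ^ m * ‖g m k‖ := by
      have : 1 ≤ nR ^ m := one_le_pow₀ hnR1
      nlinarith [norm_nonneg (g m k)]
    exact h2.trans h1
  obtain ⟨Q, hQ⟩ : ∃ Q, Q = Complex.exp (Complex.I * z) := ⟨_, rfl⟩
  have hQn : ‖Q‖ ≤ 1 := by
    rw [hQ, Complex.norm_exp]
    apply Real.exp_le_one_iff.mpr
    simp
    exact hz.le
  have hexpk : ∀ (k : ℕ) (y : ℂ), Complex.exp (Complex.I * (k : ℂ) * y)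
      = Complex.exp (Complex.I * y) ^ k := by
    intro k y
    rw [← Complex.exp_nat_mul]
    congr 1
    ring
  have hgf : ∀ m y, gfun g m y = Complex.I * (nR : ℂ) * Lam / (nR : ℂ) ^ m
      + ∑' k, g m k * Complex.exp (Complex.I * y) ^ k := by
    intro m y
    rw [gfun]
    simp only [hexpk]
  have hsumm : ∀ m, Summable (fun k => ‖g m k‖ * ‖Q‖ ^ k) := fun m =>
    (C5_geom ht0 ht (hg0 m) (hbound m) (norm_nonneg Q) (hQn.trans (by norm_num))).1
  have hS : ∑' k, ‖g (m + 1) k‖ * ‖Q‖ ^ k ≤ 1 / 15 :=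
    (C5_geom ht0 ht (hg0 (m + 1)) (hbound (m + 1)) (norm_nonneg Q) (hQn.trans (by norm_num))).2
  have hS0 : 0 ≤ ∑' k, ‖g (m + 1) k‖ * ‖Q‖ ^ k := tsum_nonneg (fun k => by positivity)
  -- the modulus of `q m`
  have hq : ‖q m‖ ≤ 1 := by
    have h1 := hD0.2.2.2.2 m 1
    rw [pow_one] at h1
    rw [h1]
    apply Real.exp_le_one_iff.mpr
    have hL := hD0.1
    have : 0 ≤ L * (1 : ℕ) / nR ^ m := by
      apply div_nonneg _ (by positivity)
      push_cast
      linarith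
    linarith
  obtain ⟨x, hx⟩ : ∃ x, x = ‖q m‖ * ‖Q‖ * Real.exp (∑' k, ‖g (m + 1) k‖ * ‖Q‖ ^ k) := ⟨_, rfl⟩
  have hx0 : 0 ≤ x := by rw [hx]; positivity
  have hx2 : x ≤ 2 := by
    have h1 : Real.exp (∑' k, ‖g (m + 1) k‖ * ‖Q‖ ^ k) ≤ 2 := by
      calc Real.exp (∑' k, ‖g (m + 1) k‖ * ‖Q‖ ^ k) ≤ Real.exp (1 / 15) := Real.exp_le_exp.mpr hS
        _ ≤ Real.exp (Real.log 2) := by
            apply Real.exp_le_exp.mpr
            have := Real.log_two_gt_d9
            linarith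
        _ = 2 := Real.exp_log (by norm_num)
    have h2 : ‖q m‖ * ‖Q‖ ≤ 1 := mul_le_one₀ hq (norm_nonneg _) hQn
    have h3 : 0 < Real.exp (∑' k, ‖g (m + 1) k‖ * ‖Q‖ ^ k) := Real.exp_pos _
    rw [hx]
    calc ‖q m‖ * ‖Q‖ * Real.exp (∑' k, ‖g (m + 1) k‖ * ‖Q‖ ^ k)
        ≤ 1 * Real.exp (∑' k, ‖g (m + 1) k‖ * ‖Q‖ ^ k) := mul_le_mul_of_nonneg_right h2 h3.le
      _ ≤ 2 := by linarith
  have hsumm2 : Summable (fun l => ‖g (m + 1) l‖ *
      (‖q m‖ * ‖Q‖ * Real.exp (∑' k, ‖g (m + 1) k‖ * ‖Q‖ ^ k)) ^ l) := by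
    rw [← hx]
    exact (C5_geom ht0 ht (hg0 (m + 1)) (hbound (m + 1)) hx0 hx2).1
  have hcomp := hC2 (g (m + 1)) (q m) Q (hg0 (m + 1)) (hsumm (m + 1)) hsumm2
  -- the new point
  have hnew : Complex.exp (Complex.I * (z + gfun g (m + 1) z))
      = q m * Q * Complex.exp (Complex.I * ∑' k, g (m + 1) k * Q ^ k) := by
    obtain ⟨A, hA⟩ : ∃ A, A = ∑' k, g (m + 1) k * Q ^ k := ⟨_, rfl⟩
    have e0 : q m * Q * Complex.exp (Complex.I * A)
        = Complex.exp (-Lam / (nR : ℂ) ^ m + Complex.I * z + Complex.I * A) := by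
      rw [Complex.exp_add, Complex.exp_add, ← hQ, q]
    rw [hgf, ← hQ, ← hA, e0]
    congr 1
    rw [pow_succ]
    have e : Complex.I * (Complex.I * (nR : ℂ) * Lam / ((nR : ℂ) ^ m * (nR : ℂ)))
        = -Lam / (nR : ℂ) ^ m := by
      have hp : (nR : ℂ) ^ m ≠ 0 := pow_ne_zero _ hnRc
      field_simp
      rw [Complex.I_sq]
      ring
    rw [mul_add, mul_add, e]
    ring
  rw [hgf (m + 1) (z + gfun g (m + 1) z), hnew, hgf m z, hgf (m + 1) z, ← hQ,
    ← hcomp.tsum_eq]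
  -- coefficients
  have hsm : Summable (fun k => g m k * Q ^ k) := by
    apply Summable.of_norm
    simpa only [norm_mul, norm_pow] using hsumm m
  have hsm1 : Summable (fun k => g (m + 1) k * Q ^ k) := by
    apply Summable.of_norm
    simpa only [norm_mul, norm_pow] using hsumm (m + 1)
  have hcoef : ∀ k, g m k = g (m + 1) k + (M : ℂ) * ∑ l ∈ range (k + 1),
      g (m + 1) l * q m ^ l * ec (g (m + 1)) (Complex.I * (l : ℂ)) (k - l) := by
    intro k
    rcases Nat.eq_zero_or_pos k with rfl | hk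
    · simp [hg0]
    · rw [hrec m k hk, Pk, pp, Finset.sum_range_succ, Nat.sub_self, C5_ec_zero,
        Finset.range_eq_Ico, Finset.sum_eq_sum_Ico_succ_bot hk, hg0]
      ring
  have hsum : ∑' k, g m k * Q ^ k = ∑' k, g (m + 1) k * Q ^ k
      + (M : ℂ) * ∑' k, (∑ l ∈ range (k + 1),
        g (m + 1) l * q m ^ l * ec (g (m + 1)) (Complex.I * (l : ℂ)) (k - l)) * Q ^ k := by
    rw [← tsum_mul_left, ← hsm1.tsum_add (hcomp.summable.mul_left _)]
    apply tsum_congr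
    intro k
    conv_lhs => rw [hcoef k]
    ring
  rw [hsum, pow_succ]
  have hM : (M : ℂ) = (nR : ℂ) - 1 := by
    unfold M nR
    norm_num
  have hp : (nR : ℂ) ^ m ≠ 0 := pow_ne_zero _ hnRc
  have e : Complex.I * (nR : ℂ) * Lam / (nR : ℂ) ^ m
      = Complex.I * (nR : ℂ) * Lam / ((nR : ℂ) ^ m * (nR : ℂ))
        + (M : ℂ) * (Complex.I * (nR : ℂ) * Lam / ((nR : ℂ) ^ m * (nR : ℂ))) := by
    rw [hM]
    field_simp
    ring
  rw [e]
  ring

end

end Pool.Agent.H13.TQ
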