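import Pool.Agent.H13.TQ.Stm

/-! Crew TQ, parts D4, D5, D8 (helper68). -/

namespace Pool.Agent.H13.TQ

open MeasureTheory Filter Topology Finset

noncomputable section

namespace H68

theorem L_eq (_h0 : SD0) : M * Real.exp (-L) = 1 := by
  have hM : (0 : ℝ) < M := by unfold M; norm_num
  rw [Real.exp_neg, L, Real.exp_log hM]
  exact mul_inv_cancel₀ hM.ne'

theorem norm_pp_le (h0 : SD0) (i k : ℕ) : ‖pp i k‖ ≤ 1 + M * Real.exp (-(L * k / nR ^ i)) := by
  have hM : (0 : ℝ) < M := by unfold M; norm_num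
  unfold pp
  refine (norm_add_le _ _).trans ?_
  rw [norm_one, norm_mul, norm_pow, h0.2.2.2.2 i k, Complex.norm_real, Real.norm_of_nonneg hM.le]

/-- The potential. -/
def phi (k j : ℕ) : ℝ := min 1 (2 * nR ^ j / (nR * k))

theorem one_step (h0 : SD0) (j k : ℕ) (hk : 1 ≤ k) :
    Real.exp (phi k j) * (‖pp j k‖ * W j k) ≤ Real.exp (phi k (j + 1)) * W (j + 1) k := by
  have hM : (0 : ℝ) < M := by unfold M; norm_num
  have hML := L_eq h0
  have hL : 13 < L := h0.1
  have hpp := norm_pp_le h0 j k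
  have hkR : (1 : ℝ) ≤ k := by exact_mod_cast hk
  have hnj : (0 : ℝ) < nR ^ j := by unfold nR; positivity
  have hsucc : nR ^ (j + 1) = nR * nR ^ j := by rw [pow_succ]; ring
  have hn : nR = 1000000 := rfl
  have hMn : M = 999999 := rfl
  have hbig : 4 * nR ^ j ≤ nR ^ (j + 1) := by
    rw [hsucc]
    exact mul_le_mul_of_nonneg_right (by rw [hn]; norm_num) hnj.le
  have hphim : phi k j ≤ phi k (j + 1) := by
    unfold phi
    refine min_le_min le_rfl ?_
    have h2 : (0 : ℝ) < nR * k := by rw [hn]; positivity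
    rw [div_le_div_iff_of_pos_right h2]
    linarith [hbig]
  have hW1 : W j k ≤ W (j + 1) k := by
    unfold W
    refine max_le_max ?_ le_rfl
    linarith [hbig]
  have hWpos : 0 < W (j + 1) k := lt_of_lt_of_le (by positivity) (le_max_right _ _)
  have hWjpos : 0 < W j k := lt_of_lt_of_le (by positivity) (le_max_right _ _)
  have hexp : Real.exp (phi k j) ≤ Real.exp (phi k (j + 1)) := Real.exp_le_exp.2 hphim
  -- general statement: enough `‖pp‖ W j k ≤ W (j+1) k`
  have key : ‖pp j k‖ * W j k ≤ W (j + 1) k →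
      Real.exp (phi k j) * (‖pp j k‖ * W j k) ≤ Real.exp (phi k (j + 1)) * W (j + 1) k := by
    intro h
    exact mul_le_mul hexp h (mul_nonneg (norm_nonneg _) hWjpos.le) (Real.exp_pos _).le
  by_cases h1 : (k : ℝ) ≤ nR ^ j
  · apply key
    have hWj : W j k = nR ^ j := max_eq_left h1
    have hW2 : nR ^ (j + 1) ≤ W (j + 1) k := le_max_left _ _
    have hpp2 : ‖pp j k‖ ≤ nR := by
      refine hpp.trans ?_
      have : Real.exp (-(L * k / nR ^ j)) ≤ 1 := by
        rw [Real.exp_le_one_iff]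
        have : 0 ≤ L * k / nR ^ j := by positivity
        linarith
      have h9 : M * Real.exp (-(L * k / nR ^ j)) ≤ M * 1 := mul_le_mul_of_nonneg_left this hM.le
      have h10 : nR = 1 + M * 1 := by rw [hn, hMn]; norm_num
      linarith
    rw [hWj]
    refine le_trans ?_ hW2
    rw [hsucc]
    exact mul_le_mul_of_nonneg_right hpp2 hnj.le
  · push Not at h1
    have hWj : W j k = k := max_eq_right h1.le
    set y : ℝ := (k : ℝ) / nR ^ j with hy
    have hy1 : 1 < y := by rw [hy, lt_div_iff₀ hnj]; linarith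
    have hky : (k : ℝ) = y * nR ^ j := by rw [hy]; field_simp
    have hpp3 : ‖pp j k‖ ≤ 1 + Real.exp (-(L * (y - 1))) := by
      refine hpp.trans ?_
      have e1 : -(L * k / nR ^ j) = -L + -(L * (y - 1)) := by
        rw [hy]; field_simp; ring
      rw [e1, Real.exp_add, ← mul_assoc, hML, one_mul]
    by_cases h2 : y < 2
    · apply key
      have hpp4 : ‖pp j k‖ ≤ 2 := by
        refine hpp3.trans ?_
        have : Real.exp (-(L * (y - 1))) ≤ 1 := by
          rw [Real.exp_le_one_iff]; nlinarith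
        linarith
      rw [hWj]
      have hW2 : nR ^ (j + 1) ≤ W (j + 1) k := le_max_left _ _
      refine le_trans ?_ hW2
      calc ‖pp j k‖ * (k : ℝ) ≤ 2 * k := mul_le_mul_of_nonneg_right hpp4 (by positivity)
        _ ≤ 4 * nR ^ j := by rw [hky]; nlinarith
        _ ≤ nR ^ (j + 1) := hbig
    · push Not at h2
      have hpp5 : ‖pp j k‖ ≤ Real.exp (1 / y) := by
        refine hpp3.trans ?_
        have h3 : Real.exp (-(L * (y - 1))) ≤ 1 / y := by
          have h4 : -(L * (y - 1)) ≤ -y := by nlinarith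
          refine (Real.exp_le_exp.2 h4).trans ?_
          rw [Real.exp_neg, ← one_div]
          exact one_div_le_one_div_of_le (by linarith) (by linarith [Real.add_one_le_exp y])
        have h5 := Real.add_one_le_exp (1 / y)
        linarith
      have hphi : phi k j + 1 / y ≤ phi k (j + 1) := by
        have hy0 : 0 < y := by linarith
        have e1 : 2 * nR ^ j / (nR * k) = 2 / (nR * y) := by
          rw [hky]
          have : nR ≠ 0 := by rw [hn]; norm_num
          field_simp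
        have e2 : 2 * nR ^ (j + 1) / (nR * k) = 2 / y := by
          rw [hky, hsucc]
          have : nR ≠ 0 := by rw [hn]; norm_num
          field_simp
        have h3 : phi k j ≤ 2 / (nR * y) := by rw [← e1]; exact min_le_right _ _
        unfold phi at h3 ⊢
        rw [e2]
        have e3 : 2 / (nR * y) = (2 / nR) * (1 / y) := by
          have : nR ≠ 0 := by rw [hn]; norm_num
          field_simp
        have h6 : (2 / nR) * (1 / y) ≤ (1 / 2) * (1 / y) := by
          have : 0 ≤ 1 / y := by positivity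
          rw [hn]; nlinarith
        have h7 : 1 / y ≤ 1 / 2 := one_div_le_one_div_of_le (by norm_num) h2
        rw [e3] at h3
        refine le_min ?_ ?_
        · linarith
        · have : 2 / y = 2 * (1 / y) := by ring
          rw [this]; linarith [h6, h7, show 0 ≤ 1 / y from by positivity]
      calc Real.exp (phi k j) * (‖pp j k‖ * W j k)
          ≤ Real.exp (phi k j) * (Real.exp (1 / y) * W (j + 1) k) := by
            refine mul_le_mul_of_nonneg_left ?_ (Real.exp_pos _).le
            exact mul_le_mul hpp5 hW1 hWjpos.le (Real.exp_pos _).le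
        _ = Real.exp (phi k j + 1 / y) * W (j + 1) k := by rw [Real.exp_add]; ring
        _ ≤ Real.exp (phi k (j + 1)) * W (j + 1) k :=
            mul_le_mul_of_nonneg_right (Real.exp_le_exp.2 hphi) hWpos.le

theorem D4_aux (h0 : SD0) (m k : ℕ) (hk : 1 ≤ k) (d : ℕ) :
    ‖prodp m (m + d) k‖ * W m k ≤ Real.exp (phi k (m + d)) * W (m + d) k := by
  induction d with
  | zero =>
    have hkR : (1 : ℝ) ≤ k := by exact_mod_cast hk
    have hWpos : 0 < W m k := lt_of_lt_of_le (by positivity) (le_max_right _ _)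
    simp only [add_zero, prodp, Finset.Ico_self, Finset.prod_empty, norm_one]
    refine mul_le_mul_of_nonneg_right ?_ hWpos.le
    apply Real.one_le_exp
    unfold phi
    refine le_min zero_le_one ?_
    unfold nR; positivity
  | succ d ih =>
    have e : prodp m (m + (d + 1)) k = prodp m (m + d) k * pp (m + d) k := by
      unfold prodp
      rw [← add_assoc, Finset.prod_Ico_succ_top (by omega)]
    have hW1 : 0 ≤ ‖pp (m + d) k‖ := norm_nonneg _
    rw [e, norm_mul]
    calc ‖prodp m (m + d) k‖ * ‖pp (m + d) k‖ * W m k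
        = ‖pp (m + d) k‖ * (‖prodp m (m + d) k‖ * W m k) := by ring
      _ ≤ ‖pp (m + d) k‖ * (Real.exp (phi k (m + d)) * W (m + d) k) :=
          mul_le_mul_of_nonneg_left ih hW1
      _ = Real.exp (phi k (m + d)) * (‖pp (m + d) k‖ * W (m + d) k) := by ring
      _ ≤ _ := one_step h0 (m + d) k hk

end H68

theorem D4 (h0 : SD0) : SD4 := by
  intro m j k hmj hk
  obtain ⟨d, rfl⟩ := Nat.exists_eq_add_of_le hmj
  refine (H68.D4_aux h0 m k hk d).trans ?_
  have hkR : (1 : ℝ) ≤ k := by exact_mod_cast hk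
  have hWpos : 0 < W (m + d) k := lt_of_lt_of_le (by positivity) (le_max_right _ _)
  refine mul_le_mul_of_nonneg_right ?_ hWpos.le
  have h1 : H68.phi k (m + d) ≤ 1 := min_le_left _ _
  refine (Real.exp_le_exp.2 h1).trans ?_
  linarith [Real.exp_one_lt_d9]

theorem D5 (h1 : SD1) (h4 : SD4) : SD5 := by
  intro m k hk
  have hn : nR = 1000000 := rfl
  have hn0 : (nR : ℂ) ≠ 0 := by rw [hn]; norm_num
  have hkR : (1 : ℝ) ≤ k := by exact_mod_cast hk
  have hfac : ∀ i : ℕ, fac ((k : ℝ) / nR ^ m) i = pp (m + i) k / (nR : ℂ) := by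
    intro i
    unfold fac pp q
    rw [← Complex.exp_nat_mul]
    congr 4
    push_cast
    rw [pow_add]
    have hp1 : (nR : ℂ) ^ m ≠ 0 := pow_ne_zero _ hn0
    have hp2 : (nR : ℂ) ^ i ≠ 0 := pow_ne_zero _ hn0
    field_simp
  have hprod : ∀ J : ℕ, ∏ i ∈ range J, fac ((k : ℝ) / nR ^ m) i = prodp m (m + J) k / (nR : ℂ) ^ J := by
    intro J
    have e1 : prodp m (m + J) k = ∏ i ∈ range J, pp (m + i) k := by
      unfold prodp
      rw [Finset.prod_Ico_eq_prod_range]
      congr 2
      omega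
    rw [e1, Finset.prod_congr rfl (fun i _ => hfac i), Finset.prod_div_distrib, Finset.prod_const,
      Finset.card_range]
  have hy0 : 0 ≤ (k : ℝ) / nR ^ m := by unfold nR; positivity
  have hlim := h1 _ hy0
  have hlim2 : Tendsto (fun J : ℕ => W m k * ‖∏ i ∈ range J, fac ((k : ℝ) / nR ^ m) i‖) atTop
      (𝓝 (W m k * ‖Psi ((k : ℝ) / nR ^ m)‖)) := (hlim.norm).const_mul _
  refine le_of_tendsto hlim2 ?_
  rw [eventually_atTop]
  refine ⟨k, fun J hJ => ?_⟩
  have hbig : (k : ℝ) ≤ nR ^ (m + J) := by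
    have h2 : (k : ℝ) ≤ 2 ^ k := by exact_mod_cast (Nat.lt_two_pow_self).le
    calc (k : ℝ) ≤ 2 ^ k := h2
      _ ≤ 2 ^ (m + J) := pow_le_pow_right₀ (by norm_num) (by omega)
      _ ≤ nR ^ (m + J) := pow_le_pow_left₀ (by norm_num) (by rw [hn]; norm_num) _
  have hW : W (m + J) k = nR ^ (m + J) := max_eq_left hbig
  have h5 := h4 m (m + J) k (by omega) hk
  rw [hW] at h5
  have hpos : (0 : ℝ) < nR ^ J := by rw [hn]; positivity
  rw [hprod J, norm_div, norm_pow, Complex.norm_real, Real.norm_of_nonneg (by rw [hn]; norm_num)]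
  rw [← mul_div_assoc, div_le_iff₀ hpos]
  calc W m k * ‖prodp m (m + J) k‖ = ‖prodp m (m + J) k‖ * W m k := by ring
    _ ≤ 3 * nR ^ (m + J) := h5
    _ = 3 * nR ^ m * nR ^ J := by rw [pow_add]; ring

theorem D8 (h0 : SD0) (h4 : SD4) (h5 : SD5) : SD8 := by
  intro l hl
  have hn : nR = 1000000 := rfl
  have hM : (0 : ℝ) < M := by unfold M; norm_num
  have hlR : (1 : ℝ) ≤ l := by exact_mod_cast hl
  -- bound on Psi
  have hPsi : ∀ m k : ℕ, 1 ≤ k → ‖Psi ((k : ℝ) / nR ^ m)‖ ≤ 3 := by
    intro m k hk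
    have h := h5 m k hk
    have hp : (0 : ℝ) < nR ^ m := by rw [hn]; positivity
    have hW : nR ^ m ≤ W m k := le_max_left _ _
    have h6 : nR ^ m * ‖Psi ((k : ℝ) / nR ^ m)‖ ≤ nR ^ m * 3 := by
      calc nR ^ m * ‖Psi ((k : ℝ) / nR ^ m)‖ ≤ W m k * ‖Psi ((k : ℝ) / nR ^ m)‖ :=
            mul_le_mul_of_nonneg_right hW (norm_nonneg _)
        _ ≤ 3 * nR ^ m := h
        _ = nR ^ m * 3 := by ring
    exact le_of_mul_le_mul_left h6 hp
  have hq : ∀ j l : ℕ, ‖q j ^ l‖ ≤ 1 := by
    intro j l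
    rw [norm_pow, h0.2.2.2.2 j l, Real.exp_le_one_iff]
    have : 0 ≤ L * l / nR ^ j := by
      have := h0.1
      rw [hn]; positivity
    linarith
  refine Summable.of_nonneg_of_le (f := fun j : ℕ =>
    (3 * ((l : ℝ) + 2) * (M * 9 * ((l : ℝ) + 1))) * (1 / nR) ^ j) (fun _ => norm_nonneg _) ?_ ?_
  · intro j
    have hp : (0 : ℝ) < nR ^ j := by rw [hn]; positivity
    have hp1 : (1 : ℝ) ≤ nR ^ j := one_le_pow₀ (by rw [hn]; norm_num)
    rw [norm_mul]
    have hA : ‖prodp 0 j (l + 1)‖ ≤ 3 * ((l : ℝ) + 2) * nR ^ j := by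
      have h6 := h4 0 j (l + 1) (Nat.zero_le _) (by omega)
      have hW0 : (1 : ℝ) ≤ W 0 (l + 1) := by unfold W; rw [pow_zero]; exact le_max_left _ _
      have hWj : W j (l + 1) ≤ ((l : ℝ) + 2) * nR ^ j := by
        unfold W
        push_cast
        refine max_le ?_ ?_
        · nlinarith
        · nlinarith
      calc ‖prodp 0 j (l + 1)‖ = ‖prodp 0 j (l + 1)‖ * 1 := (mul_one _).symm
        _ ≤ ‖prodp 0 j (l + 1)‖ * W 0 (l + 1) := mul_le_mul_of_nonneg_left hW0 (norm_nonneg _)
        _ ≤ 3 * W j (l + 1) := h6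
        _ ≤ 3 * (((l : ℝ) + 2) * nR ^ j) := by linarith
        _ = _ := by ring
    have hB : ‖Cterm l j‖ ≤ M * 9 * ((l : ℝ) + 1) * (1 / nR) ^ j * (1 / nR) ^ j := by
      unfold Cterm
      rw [norm_mul, norm_mul, norm_mul, norm_div, norm_mul, Complex.norm_I, one_mul,
        Complex.norm_real, Real.norm_of_nonneg hM.le, norm_pow, Complex.norm_real,
        Real.norm_of_nonneg (by rw [hn]; norm_num : (0 : ℝ) ≤ nR)]
      have h7 : ‖Psi (1 / nR ^ (j + 1))‖ ≤ 3 := by
        have := hPsi (j + 1) 1 le_rfl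
        simpa using this
      have h8 : ‖Psi ((l : ℝ) / nR ^ (j + 1))‖ ≤ 3 := hPsi (j + 1) l hl
      have h9 : ‖(l : ℂ) * q j ^ l + q j‖ ≤ (l : ℝ) + 1 := by
        refine (norm_add_le _ _).trans ?_
        have h10 : ‖(l : ℂ) * q j ^ l‖ ≤ l := by
          rw [norm_mul, Complex.norm_natCast]
          calc (l : ℝ) * ‖q j ^ l‖ ≤ l * 1 := mul_le_mul_of_nonneg_left (hq j l) (by positivity)
            _ = l := mul_one _
        have h11 : ‖q j‖ ≤ 1 := by simpa using hq j 1
        linarith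
      have h12 : M / nR ^ (2 * (j + 1)) ≤ M * (1 / nR) ^ j * (1 / nR) ^ j := by
        have e : M * (1 / nR) ^ j * (1 / nR) ^ j = M / nR ^ (2 * j) := by
          rw [one_div, inv_pow, two_mul, pow_add]; field_simp
        rw [e]
        refine div_le_div_of_nonneg_left hM.le (by rw [hn]; positivity) ?_
        exact pow_le_pow_right₀ (by rw [hn]; norm_num) (by omega)
      have hnpos : (0 : ℝ) < nR := by rw [hn]; norm_num
      have h13 : 0 ≤ M / nR ^ (2 * (j + 1)) := by positivity
      calc M / nR ^ (2 * (j + 1)) * ‖Psi (1 / nR ^ (j + 1))‖ * ‖Psi ((l : ℝ) / nR ^ (j + 1))‖ *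
            ‖(l : ℂ) * q j ^ l + q j‖
          ≤ (M * (1 / nR) ^ j * (1 / nR) ^ j) * 3 * 3 * ((l : ℝ) + 1) := by
            gcongr
        _ = _ := by ring
    calc ‖prodp 0 j (l + 1)‖ * ‖Cterm l j‖
        ≤ (3 * ((l : ℝ) + 2) * nR ^ j) * (M * 9 * ((l : ℝ) + 1) * (1 / nR) ^ j * (1 / nR) ^ j) :=
          mul_le_mul hA hB (norm_nonneg _) (by positivity)
      _ = (3 * ((l : ℝ) + 2) * (M * 9 * ((l : ℝ) + 1))) * (1 / nR) ^ j * (nR ^ j * (1 / nR) ^ j) := by
          ring
      _ = _ := by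
          rw [← mul_pow]
          have : nR * (1 / nR) = 1 := by rw [hn]; norm_num
          rw [this, one_pow, mul_one]
  · refine Summable.mul_left _ ?_
    refine summable_geometric_of_lt_one (by rw [hn]; norm_num) (by rw [hn]; norm_num)

end

end Pool.Agent.H13.TQ
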