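import Pool.Agent.H13.TQ.PD6Aux

/-!
Crew TQ, part D6 (helper29).
-/

set_option autoImplicit false

namespace Pool.Agent.H13.TQ

open Filter Topology Finset

noncomputable section

/-- the constant -/
def D6_b0 : ℝ := (1 - Real.exp (-(L / nR))) / nR * ((Real.exp (L / nR) - 1) / nR * (1 / 2))

theorem D6_base (h2 : SD2) (h3 : SD3) (hL : 13 < L) (y : ℝ) (hy1 : 1 + 1 / nR ≤ y)
    (hy2 : y ≤ nR - 1) : D6_b0 ≤ ‖Psi y‖ := by
  have hn := D6_n_pos
  have hn6 : nR = 1000000 := rfl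
  have hy0 : 0 ≤ y := by
    have : 0 ≤ 1 / nR := by positivity
    linarith
  rw [h2 y hy0, h2 (y / nR) (by positivity), norm_mul, norm_mul]
  have hLn : 0 < L / nR := by positivity
  have e1 : Real.exp (-(L / nR)) < 1 := by
    rw [Real.exp_lt_one_iff]
    linarith
  have e2 : 1 < Real.exp (L / nR) := Real.one_lt_exp_iff.2 hLn
  have f1 : (1 - Real.exp (-(L / nR))) / nR ≤ ‖fac y 0‖ := by
    refine le_trans ?_ (D6_fac_ge1 y)
    apply div_le_div_of_nonneg_right _ hn.le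
    have : Real.exp (L * (1 - y)) ≤ Real.exp (-(L / nR)) := by
      apply Real.exp_le_exp.2
      have h4 : 1 / nR ≤ y - 1 := by linarith
      have h5 : L * (1 / nR) ≤ L * (y - 1) := mul_le_mul_of_nonneg_left h4 (by linarith)
      have h6 : L / nR = L * (1 / nR) := by ring
      linarith
    linarith
  have f2 : (Real.exp (L / nR) - 1) / nR ≤ ‖fac (y / nR) 0‖ := by
    refine le_trans ?_ (D6_fac_ge2 (y / nR))
    apply div_le_div_of_nonneg_right _ hn.le
    have : Real.exp (L / nR) ≤ Real.exp (L * (1 - y / nR)) := by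
      apply Real.exp_le_exp.2
      have h4 : 1 / nR ≤ 1 - y / nR := by
        rw [le_sub_iff_add_le, ← add_div, div_le_one hn]
        linarith
      have h5 : L * (1 / nR) ≤ L * (1 - y / nR) := mul_le_mul_of_nonneg_left h4 (by linarith)
      have h6 : L / nR = L * (1 / nR) := by ring
      linarith
    linarith
  have f3 : 1 / 2 ≤ ‖Psi (y / nR / nR)‖ := by
    have h4 : y / nR / nR ≤ 1 / 1000000 := by
      rw [div_le_iff₀ hn, div_le_iff₀ hn, hn6]
      rw [hn6] at hy2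
      linarith
    have h5 := h3 (y / nR / nR) (by positivity) (by linarith)
    have h6 := norm_sub_norm_le (1 : ℂ) (1 - Psi (y / nR / nR))
    rw [sub_sub_cancel, norm_one, norm_sub_rev] at h6
    linarith
  unfold D6_b0
  apply mul_le_mul f1 _ _ (norm_nonneg _)
  · apply mul_le_mul f2 f3 (by norm_num) (norm_nonneg _)
  · apply mul_nonneg (div_nonneg (by linarith) hn.le) (by norm_num)

theorem D6_b0_pos (hL : 13 < L) : 0 < D6_b0 := by
  have hn := D6_n_pos
  have hLn : 0 < L / nR := by positivity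
  have e1 : Real.exp (-(L / nR)) < 1 := by
    rw [Real.exp_lt_one_iff]
    linarith
  have e2 : 1 < Real.exp (L / nR) := Real.one_lt_exp_iff.2 hLn
  unfold D6_b0
  have h1 : 0 < 1 - Real.exp (-(L / nR)) := by linarith
  have h2 : 0 < Real.exp (L / nR) - 1 := by linarith
  positivity

theorem D6_ind (h2 : SD2) (h3 : SD3) (hL : 13 < L) (s : ℕ) : ∀ y : ℝ,
    1 + 1 / nR ≤ y / nR ^ s → y / nR ^ s ≤ nR - 1 →
    D6_b0 * ((1 + (1 / 3) ^ s) / 2) ≤ nR ^ s * ‖Psi y‖ := by
  have hn := D6_n_pos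
  have hn6 : nR = 1000000 := rfl
  have hb := D6_b0_pos hL
  induction s with
  | zero =>
    intro y h4 h5
    rw [pow_zero, div_one] at h4 h5
    rw [pow_zero, pow_zero, one_mul]
    have := D6_base h2 h3 hL y h4 h5
    linarith
  | succ s ih =>
    intro y h4 h5
    have hns : 0 < nR ^ s := by positivity
    have e1 : y / nR / nR ^ s = y / nR ^ (s + 1) := by
      rw [div_div, pow_succ']
    have ih' := ih (y / nR) (by rw [e1]; exact h4) (by rw [e1]; exact h5)
    have hy1 : nR ^ (s + 1) ≤ y := by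
      have h6 : 1 ≤ y / nR ^ (s + 1) := by
        have : 0 ≤ 1 / nR := by positivity
        linarith
      rwa [le_div_iff₀ (by positivity), one_mul] at h6
    have hys : (s : ℝ) + 2 ≤ y := by
      have h6 : (s : ℝ) + 2 ≤ nR ^ (s + 1) := by
        have h7 : 1 + ((s + 1 : ℕ) : ℝ) * (nR - 1) ≤ (1 + (nR - 1)) ^ (s + 1) :=
          one_add_mul_le_pow (by rw [hn6]; norm_num) _
        have h8 : (1 + (nR - 1)) = nR := by ring
        rw [h8] at h7
        rw [hn6] at h7 ⊢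
        push_cast at h7
        have : (0:ℝ) ≤ s := Nat.cast_nonneg s
        nlinarith
      linarith
    have hy0 : 0 ≤ y := by
      have : (0:ℝ) ≤ s := Nat.cast_nonneg s
      linarith
    rw [h2 y hy0, norm_mul]
    have f1 : (1 - (1 / 3) ^ (s + 1)) / nR ≤ ‖fac y 0‖ := by
      refine le_trans ?_ (D6_fac_ge1 y)
      apply div_le_div_of_nonneg_right _ hn.le
      have h6 : Real.exp (L * (1 - y)) ≤ (1 / 3) ^ (s + 1) := by
        have h7 : L * (1 - y) ≤ -(2 * ((s + 1 : ℕ) : ℝ)) := by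
          push_cast
          have : (0:ℝ) ≤ s := Nat.cast_nonneg s
          nlinarith
        refine (Real.exp_le_exp.2 h7).trans ?_
        rw [Real.exp_neg, mul_comm, Real.exp_nat_mul, ← inv_pow]
        apply pow_le_pow_left₀ (by positivity)
        rw [one_div]
        apply inv_anti₀ (by norm_num)
        have := Real.add_one_le_exp (2:ℝ)
        linarith
      linarith
    have hx0 : 0 ≤ ((1:ℝ) / 3) ^ s := by positivity
    have hx1 : ((1:ℝ) / 3) ^ s ≤ 1 := pow_le_one₀ (by norm_num) (by norm_num)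
    have hP : 0 ≤ ‖Psi (y / nR)‖ := norm_nonneg _
    obtain ⟨X, hX⟩ : ∃ X, X = ((1:ℝ) / 3) ^ s := ⟨_, rfl⟩
    rw [pow_succ] at f1 ⊢
    rw [← hX] at hx0 hx1 ih' f1 ⊢
    have g1 : nR ^ (s + 1) * ((1 - X * (1 / 3)) / nR * ‖Psi (y / nR)‖) ≤
        nR ^ (s + 1) * (‖fac y 0‖ * ‖Psi (y / nR)‖) :=
      mul_le_mul_of_nonneg_left (mul_le_mul_of_nonneg_right f1 hP) (by positivity)
    have g2 : nR ^ (s + 1) * ((1 - X * (1 / 3)) / nR * ‖Psi (y / nR)‖) =
        (1 - X * (1 / 3)) * (nR ^ s * ‖Psi (y / nR)‖) := by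
      rw [pow_succ]
      field_simp
    have g3 : (1 - X * (1 / 3)) * (D6_b0 * ((1 + X) / 2)) ≤
        (1 - X * (1 / 3)) * (nR ^ s * ‖Psi (y / nR)‖) :=
      mul_le_mul_of_nonneg_left ih' (by linarith)
    have g4 : D6_b0 * ((1 + X * (1 / 3)) / 2) ≤ (1 - X * (1 / 3)) * (D6_b0 * ((1 + X) / 2)) := by
      have h9 : (1 + X * (1 / 3)) / 2 ≤ (1 - X * (1 / 3)) * ((1 + X) / 2) := by nlinarith
      calc _ ≤ D6_b0 * ((1 - X * (1 / 3)) * ((1 + X) / 2)) := mul_le_mul_of_nonneg_left h9 hb.le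
        _ = _ := by ring
    linarith

theorem D6 (h0 : SD0) (h2 : SD2) (h3 : SD3) : SD6 := by
  have hn := D6_n_pos
  have hn6 : nR = 1000000 := rfl
  have hL := h0.1
  refine ⟨D6_b0 / 2, by have := D6_b0_pos hL; linarith, ?_⟩
  intro k hk hfar
  have hk1 : (1:ℝ) ≤ k := by exact_mod_cast hk
  -- the power s
  obtain ⟨s, hs1, hs2⟩ : ∃ s : ℕ, nR ^ s ≤ (k : ℝ) ∧ (k : ℝ) < nR ^ (s + 1) :=
    exists_nat_pow_near hk1 (by rw [hn6]; norm_num)
  have hns : 0 < nR ^ s := by positivity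
  have g1 : 1 + 1 / nR ≤ (k : ℝ) / nR ^ s := by
    rw [le_div_iff₀ hns]
    have h4 := hfar s
    rw [abs_of_nonneg (by linarith)] at h4
    have : (1 + 1 / nR) * nR ^ s = nR ^ s + nR ^ s / nR := by ring
    linarith
  have g2 : (k : ℝ) / nR ^ s ≤ nR - 1 := by
    rw [div_le_iff₀ hns]
    have h4 := hfar (s + 1)
    rw [abs_of_nonpos (by linarith)] at h4
    have : nR ^ (s + 1) / nR = nR ^ s := by
      rw [pow_succ]
      field_simp
    rw [this] at h4
    have : (nR - 1) * nR ^ s = nR ^ (s + 1) - nR ^ s := by ring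
    linarith
  have h5 := D6_ind h2 h3 hL s (k : ℝ) g1 g2
  have h6 : D6_b0 / 2 ≤ D6_b0 * ((1 + (1 / 3) ^ s) / 2) := by
    have hx0 : 0 ≤ ((1:ℝ) / 3) ^ s := by positivity
    have := D6_b0_pos hL
    nlinarith
  have h7 : nR ^ s * ‖Psi (k : ℝ)‖ ≤ (k : ℝ) * ‖Psi (k : ℝ)‖ :=
    mul_le_mul_of_nonneg_right hs1 (norm_nonneg _)
  linarith

end

end Pool.Agent.H13.TQ
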