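import Pool.Agent.H13.TQ.Stm

/-!
# Crew TQ, part E1 (helper61): sum over scales
-/

namespace Pool.Agent.H13.TQ

open Finset Filter

noncomputable section

theorem E1_nR_pos : (0 : ℝ) < nR := by norm_num [nR]

theorem E1_L : 2 ≤ L * nR := by
  have h1 : 1 - (M : ℝ)⁻¹ ≤ Real.log M := Real.one_sub_inv_le_log_of_pos (by norm_num [M])
  have h2 : (1 : ℝ) / 2 ≤ 1 - (M : ℝ)⁻¹ := by norm_num [M]
  have h3 : (1 : ℝ) / 2 ≤ L := h2.trans h1
  have h4 : (4 : ℝ) ≤ nR := by norm_num [nR]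
  nlinarith

/-- pointwise bound -/
theorem E1_pt (x : ℝ) (hx : 0 ≤ x) (s : ℕ) (hs : 1 ≤ s) (y : ℝ) (hy : 2 * x ≤ y) :
    x ^ s / ((s - 1).factorial : ℝ) * Real.exp (-y) ≤ x * Real.exp (-x) := by
  obtain ⟨r, rfl⟩ : ∃ r, s = r + 1 := ⟨s - 1, by omega⟩
  rw [Nat.add_sub_cancel]
  have h1 : x ^ r / (r.factorial : ℝ) ≤ Real.exp x := Real.pow_div_factorial_le_exp x hx r
  have h2 : Real.exp (-y) ≤ Real.exp (-x) * Real.exp (-x) := by
    rw [← Real.exp_add]
    exact Real.exp_le_exp.2 (by linarith)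
  have h3 : Real.exp x * Real.exp (-x) = 1 := by
    rw [← Real.exp_add]; simp
  have h0 : 0 < Real.exp (-x) := Real.exp_pos _
  have hf : (0 : ℝ) < (r.factorial : ℝ) := by exact_mod_cast Nat.factorial_pos r
  have h4 : 0 ≤ x ^ r / (r.factorial : ℝ) := by positivity
  calc x ^ (r + 1) / (r.factorial : ℝ) * Real.exp (-y)
      = x * ((x ^ r / (r.factorial : ℝ)) * Real.exp (-y)) := by rw [pow_succ]; ring
    _ ≤ x * (Real.exp x * (Real.exp (-x) * Real.exp (-x))) := by
        apply mul_le_mul_of_nonneg_left _ hx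
        exact mul_le_mul h1 h2 (Real.exp_pos _).le (Real.exp_pos _).le
    _ = x * Real.exp (-x) := by
        rw [← mul_assoc (Real.exp x), h3, one_mul]

theorem E1_tel (x : ℝ) (n : ℝ) (hn : 1 < n) :
    x * Real.exp (-x) * (1 - 1 / n) ≤ Real.exp (-(x / n)) - Real.exp (-x) := by
  have h1 := Real.add_one_le_exp (x - x / n)
  have h2 : Real.exp (-(x / n)) = Real.exp (-x) * Real.exp (x - x / n) := by
    rw [← Real.exp_add]; congr 1; ring
  rw [h2]
  have h0 : 0 < Real.exp (-x) := Real.exp_pos _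
  have h3 : Real.exp (-x) * (x - x / n + 1) ≤ Real.exp (-x) * Real.exp (x - x / n) :=
    mul_le_mul_of_nonneg_left h1 h0.le
  have h4 : x * Real.exp (-x) * (1 - 1 / n) = Real.exp (-x) * (x - x / n + 1) - Real.exp (-x) := by
    ring
  rw [h4]
  linarith

theorem E1 : SE1 := by
  intro l s hl hs
  have hn1 : (1 : ℝ) < nR := by norm_num [nR]
  have hn0 : (0 : ℝ) < nR := E1_nR_pos
  set x : ℕ → ℝ := fun j => (l : ℝ) / nR ^ (j + 1) with hx
  have hx0 : ∀ j, 0 ≤ x j := fun j => by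
    rw [hx]; positivity
  have hxs : ∀ j, x (j + 1) = x j / nR := by
    intro j
    simp only [hx]
    rw [pow_succ nR (j + 1), div_div]
  have hy : ∀ j, 2 * x j ≤ L * l / nR ^ j := by
    intro j
    have e : L * l / nR ^ j = (L * nR) * x j := by
      simp only [hx]
      rw [pow_succ]
      field_simp
    rw [e]
    exact mul_le_mul_of_nonneg_right E1_L (hx0 j)
  set f : ℕ → ℝ := fun j => x j ^ s / ((s - 1).factorial : ℝ) * Real.exp (-(L * l / nR ^ j))
    with hf
  have hf0 : ∀ j, 0 ≤ f j := by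
    intro j
    have := hx0 j
    simp only [hf]
    positivity
  have hfx : ∀ j, f j ≤ x j * Real.exp (-(x j)) := fun j => E1_pt (x j) (hx0 j) s hs _ (hy j)
  have hpart : ∀ N : ℕ, ∑ j ∈ range N, f j ≤ 4 := by
    intro N
    have h1 : ∀ N : ℕ, (∑ j ∈ range N, x j * Real.exp (-(x j))) * (1 - 1 / nR) ≤
        Real.exp (-(x N)) - Real.exp (-(x 0)) := by
      intro N
      induction N with
      | zero => simp
      | succ N ih =>
        rw [sum_range_succ, add_mul]
        have h2 := E1_tel (x N) nR hn1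
        rw [← hxs N] at h2
        linarith
    have h2 : ∑ j ∈ range N, f j ≤ ∑ j ∈ range N, x j * Real.exp (-(x j)) :=
      sum_le_sum fun j _ => hfx j
    have h3 := h1 N
    have h4 : Real.exp (-(x N)) ≤ 1 := Real.exp_le_one_iff.2 (by have := hx0 N; linarith)
    have h5 : 0 < Real.exp (-(x 0)) := Real.exp_pos _
    have h6 : (1 : ℝ) / 4 ≤ 1 - 1 / nR := by norm_num [nR]
    have h7 : 0 ≤ ∑ j ∈ range N, x j * Real.exp (-(x j)) :=
      sum_nonneg fun j _ => mul_nonneg (hx0 j) (Real.exp_pos _).le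
    nlinarith
  exact ⟨summable_of_sum_range_le hf0 hpart, Real.tsum_le_of_sum_range_le hf0 hpart⟩

end

end Pool.Agent.H13.TQ
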