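import Mathlib

/-!
# Basic facts on coefficients of powers of power series
-/

namespace Pool.Agent.H13.TQ

open Finset

noncomputable section

/-- Coefficients of high powers vanish. -/
theorem psb_zero {A : Type*} [CommSemiring A] (a : ℕ → A) (h0 : a 0 = 0) (k s : ℕ) (h : k < s) :
    PowerSeries.coeff k ((PowerSeries.mk a) ^ s) = 0 := by
  have h1 : (PowerSeries.X : PowerSeries A) ∣ PowerSeries.mk a := by
    rw [PowerSeries.X_dvd_iff]; simpa using h0
  have h2 : (PowerSeries.X : PowerSeries A) ^ s ∣ (PowerSeries.mk a) ^ s := pow_dvd_pow_of_dvd h1 s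
  exact PowerSeries.X_pow_dvd_iff.1 h2 k h

/-- The coefficient `k` depends only on the entries `≤ k`. -/
theorem psb_congr {A : Type*} [CommSemiring A] (a b : ℕ → A) (k : ℕ)
    (h : ∀ i, i ≤ k → a i = b i) (s : ℕ) :
    PowerSeries.coeff k ((PowerSeries.mk a) ^ s) = PowerSeries.coeff k ((PowerSeries.mk b) ^ s) := by
  induction s generalizing k with
  | zero => simp
  | succ s ih =>
    rw [pow_succ, pow_succ, PowerSeries.coeff_mul, PowerSeries.coeff_mul]
    refine Finset.sum_congr rfl ?_
    intro p hp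
    replace hp := Finset.HasAntidiagonal.mem_antidiagonal.1 hp
    rw [ih p.1 (fun i hi => h i (by omega)), PowerSeries.coeff_mk, PowerSeries.coeff_mk,
      h p.2 (by omega)]

/-- For `s ≥ 2` the coefficient `k` depends only on the entries `< k`. -/
theorem psb_congr' {A : Type*} [CommSemiring A] (a b : ℕ → A) (k : ℕ) (ha : a 0 = 0) (hb : b 0 = 0)
    (h : ∀ i, i < k → a i = b i) (s : ℕ) (hs : 2 ≤ s) :
    PowerSeries.coeff k ((PowerSeries.mk a) ^ s) = PowerSeries.coeff k ((PowerSeries.mk b) ^ s) := by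
  obtain ⟨r, rfl⟩ : ∃ r, s = r + 1 := ⟨s - 1, by omega⟩
  have hr : 1 ≤ r := by omega
  rw [pow_succ, pow_succ, PowerSeries.coeff_mul, PowerSeries.coeff_mul]
  refine Finset.sum_congr rfl ?_
  intro p hp
  replace hp := Finset.HasAntidiagonal.mem_antidiagonal.1 hp
  rw [PowerSeries.coeff_mk, PowerSeries.coeff_mk]
  by_cases h2 : p.2 = 0
  · rw [h2, ha, hb]; simp
  · by_cases h1 : p.1 = 0
    · have e1 : PowerSeries.coeff p.1 ((PowerSeries.mk a) ^ r) = 0 :=
        psb_zero a ha _ _ (by omega)
      have e2 : PowerSeries.coeff p.1 ((PowerSeries.mk b) ^ r) = 0 :=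
        psb_zero b hb _ _ (by omega)
      rw [e1, e2]; simp
    · rw [psb_congr a b p.1 (fun i hi => h i (by omega)), h p.2 (by omega)]

/-- Coefficients of powers of a nonnegative series are nonnegative. -/
theorem psb_nonneg (a : ℕ → ℝ) (h : ∀ i, 0 ≤ a i) (k s : ℕ) :
    0 ≤ PowerSeries.coeff k ((PowerSeries.mk a) ^ s) := by
  induction s generalizing k with
  | zero =>
    rw [pow_zero, PowerSeries.coeff_one]
    split_ifs <;> norm_num
  | succ s ih =>
    rw [pow_succ, PowerSeries.coeff_mul]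
    refine Finset.sum_nonneg ?_
    intro p _
    rw [PowerSeries.coeff_mk]
    exact mul_nonneg (ih _) (h _)

/-- Monotonicity. -/
theorem psb_mono (a b : ℕ → ℝ) (h : ∀ i, 0 ≤ a i) (k : ℕ) (hab : ∀ i, i ≤ k → a i ≤ b i) (s : ℕ) :
    PowerSeries.coeff k ((PowerSeries.mk a) ^ s) ≤ PowerSeries.coeff k ((PowerSeries.mk b) ^ s) := by
  induction s generalizing k with
  | zero => simp
  | succ s ih =>
    rw [pow_succ, pow_succ, PowerSeries.coeff_mul, PowerSeries.coeff_mul]
    refine Finset.sum_le_sum ?_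
    intro p hp
    replace hp := Finset.HasAntidiagonal.mem_antidiagonal.1 hp
    rw [PowerSeries.coeff_mk, PowerSeries.coeff_mk]
    have h1 := ih p.1 (fun i hi => hab i (by omega))
    exact mul_le_mul h1 (hab p.2 (by omega)) (h _) ((psb_nonneg a h _ _).trans h1)

/-- Monotonicity for `s ≥ 2`: only entries `< k` matter. -/
theorem psb_mono' (a b : ℕ → ℝ) (ha : a 0 = 0) (hb : b 0 = 0) (h : ∀ i, 0 ≤ a i) (k : ℕ)
    (hab : ∀ i, i < k → a i ≤ b i) (s : ℕ) (hs : 2 ≤ s) :
    PowerSeries.coeff k ((PowerSeries.mk a) ^ s) ≤ PowerSeries.coeff k ((PowerSeries.mk b) ^ s) := by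
  classical
  have e := psb_congr' a (fun i => if i < k then a i else 0) k ha
    (by by_cases hk : 0 < k <;> simp [ha]) (fun i hi => by simp [hi]) s hs
  have e' := psb_congr' b (fun i => if i < k then b i else 0) k hb
    (by by_cases hk : 0 < k <;> simp [hb]) (fun i hi => by simp [hi]) s hs
  rw [e, e']
  refine psb_mono _ _ ?_ k ?_ s
  · intro i
    by_cases hi : i < k
    · simpa [hi] using h i
    · simp [hi]
  · intro i _
    by_cases hi : i < k
    · simpa [hi] using hab i hi
    · simp [hi]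

/-- Norm bound. -/
theorem psb_norm (a : ℕ → ℂ) (k s : ℕ) :
    ‖PowerSeries.coeff k ((PowerSeries.mk a) ^ s)‖ ≤
      PowerSeries.coeff k ((PowerSeries.mk (fun i => ‖a i‖)) ^ s) := by
  induction s generalizing k with
  | zero =>
    rw [pow_zero, pow_zero, PowerSeries.coeff_one, PowerSeries.coeff_one]
    split_ifs <;> simp
  | succ s ih =>
    rw [pow_succ, pow_succ, PowerSeries.coeff_mul, PowerSeries.coeff_mul]
    refine (norm_sum_le _ _).trans (Finset.sum_le_sum ?_)
    intro p _
    rw [PowerSeries.coeff_mk, PowerSeries.coeff_mk, norm_mul]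
    exact mul_le_mul_of_nonneg_right (ih _) (norm_nonneg _)

/-- Scaling. -/
theorem psb_scale {A : Type*} [CommSemiring A] (c : A) (a : ℕ → A) (k s : ℕ) :
    PowerSeries.coeff k ((PowerSeries.mk (fun i => c * a i)) ^ s) =
      c ^ s * PowerSeries.coeff k ((PowerSeries.mk a) ^ s) := by
  have e : PowerSeries.mk (fun i => c * a i) = PowerSeries.C c * PowerSeries.mk a := by
    ext i; simp
  rw [e, mul_pow, ← map_pow, PowerSeries.coeff_C_mul]

/-- The derivative identity `k [Q^k] A^s = s [Q^k] (Q A') A^{s-1}`. -/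
theorem psb_deriv {A : Type*} [CommSemiring A] (a : ℕ → A) (k s : ℕ) :
    (k : A) * PowerSeries.coeff k ((PowerSeries.mk a) ^ (s + 1)) =
      ((s : A) + 1) * PowerSeries.coeff k
        (PowerSeries.mk (fun i => (i : A) * a i) * (PowerSeries.mk a) ^ s) := by
  induction s generalizing k with
  | zero => simp
  | succ s ih =>
    rw [pow_succ (PowerSeries.mk a) (s + 1), PowerSeries.coeff_mul, Finset.mul_sum]
    have h1 : ∀ p ∈ antidiagonal k, (k : A) * (PowerSeries.coeff p.1 ((PowerSeries.mk a) ^ (s + 1)) *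
        PowerSeries.coeff p.2 (PowerSeries.mk a)) =
        ((s : A) + 1) * (PowerSeries.coeff p.1
          (PowerSeries.mk (fun i => (i : A) * a i) * (PowerSeries.mk a) ^ s) *
          PowerSeries.coeff p.2 (PowerSeries.mk a)) +
        PowerSeries.coeff p.1 ((PowerSeries.mk a) ^ (s + 1)) *
          PowerSeries.coeff p.2 (PowerSeries.mk (fun i => (i : A) * a i)) := by
      intro p hp
      replace hp := Finset.HasAntidiagonal.mem_antidiagonal.1 hp
      rw [← mul_assoc ((s : A) + 1), ← ih p.1, ← hp, PowerSeries.coeff_mk, PowerSeries.coeff_mk]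
      push_cast
      ring
    rw [Finset.sum_congr rfl h1, Finset.sum_add_distrib, ← Finset.mul_sum, ← PowerSeries.coeff_mul,
      ← PowerSeries.coeff_mul]
    have e1 : PowerSeries.mk (fun i => (i : A) * a i) * (PowerSeries.mk a) ^ s * PowerSeries.mk a =
        PowerSeries.mk (fun i => (i : A) * a i) * (PowerSeries.mk a) ^ (s + 1) := by
      rw [pow_succ]; ring
    have e2 : (PowerSeries.mk a) ^ (s + 1) * PowerSeries.mk (fun i => (i : A) * a i) =
        PowerSeries.mk (fun i => (i : A) * a i) * (PowerSeries.mk a) ^ (s + 1) := by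
      ring
    rw [e1, e2]
    push_cast
    ring

end

end Pool.Agent.H13.TQ
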