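import Pool.Agent.H13.TQ.Stm
import Pool.Agent.H13.TQ.PSB

/-!
# Crew TQ, part E2 (helper61): pointwise majorant of `Pk`
-/

namespace Pool.Agent.H13.TQ

open Finset Filter

noncomputable section

theorem E2_a (A N : ℕ → ℝ) (u : ℝ) (k : ℕ) (hN : ∀ i, 0 ≤ N i)
    (h : ∀ i, i < k → N i ≤ u * A i) (r : ℕ) (hr : r < k) (s : ℕ) :
    PowerSeries.coeff r ((PowerSeries.mk N) ^ s) ≤
      u ^ s * PowerSeries.coeff r ((PowerSeries.mk A) ^ s) := by
  rw [← psb_scale]
  exact psb_mono N _ hN r (fun i hi => h i (by omega)) s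

theorem E2_b (A N : ℕ → ℝ) (u : ℝ) (k : ℕ) (hN : ∀ i, 0 ≤ N i) (hA : ∀ i, 0 ≤ A i)
    (h : ∀ i, i < k → N i ≤ u * A i) (h' : ∀ i, i < k → (i : ℝ) * N i ≤ A i)
    (r : ℕ) (hr : r < k) (s : ℕ) :
    (r : ℝ) * PowerSeries.coeff r ((PowerSeries.mk N) ^ (s + 1)) ≤
      ((s : ℝ) + 1) * (u ^ s * PowerSeries.coeff r ((PowerSeries.mk A) ^ (s + 1))) := by
  rw [psb_deriv]
  apply mul_le_mul_of_nonneg_left _ (by positivity)
  rw [pow_succ' (PowerSeries.mk A), PowerSeries.coeff_mul, PowerSeries.coeff_mul, mul_sum]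
  refine sum_le_sum ?_
  intro p hp
  replace hp := Finset.HasAntidiagonal.mem_antidiagonal.1 hp
  rw [PowerSeries.coeff_mk, PowerSeries.coeff_mk]
  have h1 := E2_a A N u k hN h p.2 (by omega) s
  have h2 := h' p.1 (by omega)
  have h3 := psb_nonneg N hN p.2 s
  calc (p.1 : ℝ) * N p.1 * PowerSeries.coeff p.2 ((PowerSeries.mk N) ^ s)
      ≤ A p.1 * (u ^ s * PowerSeries.coeff p.2 ((PowerSeries.mk A) ^ s)) :=
        mul_le_mul h2 h1 h3 (hA _)
    _ = u ^ s * (A p.1 * PowerSeries.coeff p.2 ((PowerSeries.mk A) ^ s)) := by ring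

theorem E2_ec (a : ℕ → ℂ) (l r : ℕ) (hr : 1 ≤ r) :
    ‖ec a (Complex.I * (l : ℂ)) r‖ ≤ ∑ s ∈ Icc 1 r, (l : ℝ) ^ s / (s.factorial : ℝ) *
      PowerSeries.coeff r ((PowerSeries.mk (fun i => ‖a i‖)) ^ s) := by
  unfold ec
  have e0 : range (r + 1) = insert 0 (Icc 1 r) := by
    ext s
    simp only [mem_range, mem_insert, mem_Icc]
    omega
  rw [e0, sum_insert (by simp)]
  have e1 : (PowerSeries.coeff r ((PowerSeries.mk a) ^ 0) : ℂ) = 0 := by
    rw [pow_zero, PowerSeries.coeff_one, if_neg (by omega)]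
  rw [e1, mul_zero, zero_add]
  refine (norm_sum_le _ _).trans (sum_le_sum ?_)
  intro s _
  rw [norm_mul, norm_div, norm_pow, norm_mul, Complex.norm_I, one_mul, Complex.norm_natCast,
    Complex.norm_natCast]
  exact mul_le_mul_of_nonneg_left (psb_norm a r s) (by positivity)

theorem E2 (hD0 : SD0) : SE2 := by
  intro A a j k hA0 hA ha0 hW
  obtain ⟨-, -, -, -, hq⟩ := hD0
  have hn0 : (0 : ℝ) < nR := by norm_num [nR]
  have hM0 : (0 : ℝ) ≤ M := by norm_num [M]
  set P : ℝ := nR ^ (j + 1) with hP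
  have hP0 : 0 < P := by positivity
  set N : ℕ → ℝ := fun i => ‖a i‖ with hN
  have hN0 : ∀ i, 0 ≤ N i := fun i => norm_nonneg _
  have h1 : ∀ i, i < k → N i ≤ (1 / P) * A i := by
    intro i hi
    have h := hW i hi
    have h2 : P * ‖a i‖ ≤ A i :=
      (mul_le_mul_of_nonneg_right (le_max_left _ _) (norm_nonneg _)).trans h
    rw [one_div, ← div_eq_inv_mul, le_div_iff₀ hP0, mul_comm]
    exact h2
  have h2 : ∀ i, i < k → (i : ℝ) * N i ≤ A i := by
    intro i hi
    exact (mul_le_mul_of_nonneg_right (le_max_right _ _) (norm_nonneg _)).trans (hW i hi)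
  have hW0 : 0 ≤ W (j + 1) k := le_max_of_le_left hP0.le
  have hPk : ‖Pk j k a‖ ≤ M * ∑ l ∈ Ico 1 k, N l * Real.exp (-(L * l / nR ^ j)) *
      ∑ s ∈ Icc 1 (k - l), (l : ℝ) ^ s / (s.factorial : ℝ) *
      PowerSeries.coeff (k - l) ((PowerSeries.mk N) ^ s) := by
    unfold Pk
    rw [norm_mul]
    have eM : ‖(M : ℂ)‖ = M := by
      rw [Complex.norm_real, Real.norm_of_nonneg hM0]
    rw [eM]
    apply mul_le_mul_of_nonneg_left _ hM0
    refine (norm_sum_le _ _).trans (sum_le_sum ?_)
    intro l hl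
    obtain ⟨hl1, hl2⟩ := mem_Ico.1 hl
    rw [norm_mul, norm_mul, norm_pow, hq j l]
    exact mul_le_mul_of_nonneg_left (E2_ec a l (k - l) (by omega)) (by positivity)
  calc W (j + 1) k * ‖Pk j k a‖ ≤ W (j + 1) k * (M * ∑ l ∈ Ico 1 k, N l *
        Real.exp (-(L * l / nR ^ j)) *
      ∑ s ∈ Icc 1 (k - l), (l : ℝ) ^ s / (s.factorial : ℝ) *
      PowerSeries.coeff (k - l) ((PowerSeries.mk N) ^ s)) := mul_le_mul_of_nonneg_left hPk hW0
    _ = M * ∑ l ∈ Ico 1 k, W (j + 1) k * (N l * Real.exp (-(L * l / nR ^ j)) *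
      ∑ s ∈ Icc 1 (k - l), (l : ℝ) ^ s / (s.factorial : ℝ) *
      PowerSeries.coeff (k - l) ((PowerSeries.mk N) ^ s)) := by
        rw [mul_left_comm, mul_sum]
    _ ≤ _ := by
        apply mul_le_mul_of_nonneg_left _ hM0
        refine sum_le_sum ?_
        intro l hl
        obtain ⟨hl1, hl2⟩ := mem_Ico.1 hl
        rw [mul_sum, mul_sum, mul_sum]
        refine sum_le_sum ?_
        intro s hs
        obtain ⟨hs1, hs2⟩ := mem_Icc.1 hs
        obtain ⟨t, rfl⟩ : ∃ t, s = t + 1 := ⟨s - 1, by omega⟩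
        rw [Nat.add_sub_cancel]
        set r := k - l with hr
        have hrk : r < k := by omega
        set X := Real.exp (-(L * l / nR ^ j)) with hX
        have hX0 : 0 < X := Real.exp_pos _
        have c1 := E2_a A N (1 / P) k hN0 h1 r hrk (t + 1)
        have c2 := E2_b A N (1 / P) k hN0 hA h1 h2 r hrk t
        set cN := PowerSeries.coeff r ((PowerSeries.mk N) ^ (t + 1)) with hcN
        set cA := PowerSeries.coeff r ((PowerSeries.mk A) ^ (t + 1)) with hcA
        have hcN0 : 0 ≤ cN := psb_nonneg N hN0 _ _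
        have hcA0 : 0 ≤ cA := psb_nonneg A hA _ _
        have hWl : W (j + 1) k ≤ W (j + 1) l + (r : ℝ) := by
          have e : (k : ℝ) = l + r := by
            rw [hr]
            push_cast [Nat.cast_sub hl2.le]
            ring
          unfold W
          refine max_le ?_ ?_
          · have := le_max_left (nR ^ (j + 1)) (l : ℝ)
            have h0 : (0 : ℝ) ≤ r := by positivity
            linarith
          · have := le_max_right (nR ^ (j + 1)) (l : ℝ)
            linarith
        have hf : (0 : ℝ) < (t.factorial : ℝ) := by exact_mod_cast Nat.factorial_pos t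
        have hfs : (((t + 1).factorial : ℕ) : ℝ) = ((t : ℝ) + 1) * (t.factorial : ℝ) := by
          rw [Nat.factorial_succ]; push_cast; ring
        have ht0 : (0 : ℝ) ≤ t := by positivity
        set Y : ℝ := A l * ((l : ℝ) / P) ^ (t + 1) / (t.factorial : ℝ) * cA with hY
        -- first part
        have p1 : W (j + 1) l * N l * ((l : ℝ) ^ (t + 1) / (((t + 1).factorial : ℕ) : ℝ) * cN) ≤
            Y := by
          have q1 : W (j + 1) l * N l ≤ A l := hW l hl2
          have q2 : (l : ℝ) ^ (t + 1) / (((t + 1).factorial : ℕ) : ℝ) ≤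
              (l : ℝ) ^ (t + 1) / (t.factorial : ℝ) := by
            apply div_le_div_of_nonneg_left (by positivity) hf
            rw [hfs]
            nlinarith
          have q3 : (l : ℝ) ^ (t + 1) / (((t + 1).factorial : ℕ) : ℝ) * cN ≤
              (l : ℝ) ^ (t + 1) / (t.factorial : ℝ) * ((1 / P) ^ (t + 1) * cA) :=
            mul_le_mul q2 c1 hcN0 (by positivity)
          calc W (j + 1) l * N l * ((l : ℝ) ^ (t + 1) / (((t + 1).factorial : ℕ) : ℝ) * cN)
              ≤ A l * ((l : ℝ) ^ (t + 1) / (t.factorial : ℝ) * ((1 / P) ^ (t + 1) * cA)) :=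
                mul_le_mul q1 q3 (by positivity) (hA l)
            _ = Y := by
                rw [hY, div_pow, div_pow, one_pow]
                ring
        have p2 : (r : ℝ) * N l * ((l : ℝ) ^ (t + 1) / (((t + 1).factorial : ℕ) : ℝ) * cN) ≤
            Y := by
          have q1 : N l ≤ (1 / P) * A l := h1 l hl2
          have q2 : N l * ((l : ℝ) ^ (t + 1) / (((t + 1).factorial : ℕ) : ℝ)) ≤
              (1 / P) * A l * ((l : ℝ) ^ (t + 1) / (((t + 1).factorial : ℕ) : ℝ)) :=
            mul_le_mul_of_nonneg_right q1 (by positivity)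
          calc (r : ℝ) * N l * ((l : ℝ) ^ (t + 1) / (((t + 1).factorial : ℕ) : ℝ) * cN)
              = N l * ((l : ℝ) ^ (t + 1) / (((t + 1).factorial : ℕ) : ℝ)) * ((r : ℝ) * cN) := by
                ring
            _ ≤ (1 / P) * A l * ((l : ℝ) ^ (t + 1) / (((t + 1).factorial : ℕ) : ℝ)) *
                (((t : ℝ) + 1) * ((1 / P) ^ t * cA)) := by
                have hAl := hA l
                exact mul_le_mul q2 c2 (by positivity) (by positivity)
            _ = Y := by
                rw [hY, hfs, div_pow, div_pow, one_pow]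
                field_simp
                ring
        have hNl := hN0 l
        calc W (j + 1) k * (N l * X * ((l : ℝ) ^ (t + 1) / (((t + 1).factorial : ℕ) : ℝ) * cN))
            ≤ (W (j + 1) l + (r : ℝ)) *
              (N l * X * ((l : ℝ) ^ (t + 1) / (((t + 1).factorial : ℕ) : ℝ) * cN)) :=
              mul_le_mul_of_nonneg_right hWl (by positivity)
          _ = X * (W (j + 1) l * N l * ((l : ℝ) ^ (t + 1) / (((t + 1).factorial : ℕ) : ℝ) * cN) +
              (r : ℝ) * N l * ((l : ℝ) ^ (t + 1) / (((t + 1).factorial : ℕ) : ℝ) * cN)) := by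
              ring
          _ ≤ X * (Y + Y) := mul_le_mul_of_nonneg_left (add_le_add p1 p2) hX0.le
          _ = A l * (2 * (((l : ℝ) / P) ^ (t + 1) / (t.factorial : ℝ) * X) * cA) := by
              rw [hY]; ring

end

end Pool.Agent.H13.TQ
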