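import Pool.Agent.H13.TQ.Stm
import Pool.Agent.H13.TQ.PSB

/-!
# Crew TQ, part E3 (helper61): sum over levels
-/

namespace Pool.Agent.H13.TQ

open Finset Filter

noncomputable section

theorem E3_NN (A : ℕ → ℝ) (hA0 : A 0 = 0) (k : ℕ) :
    ∑ l ∈ Ico 1 k, A l * ∑ s ∈ Icc 1 (k - l),
      PowerSeries.coeff (k - l) ((PowerSeries.mk A) ^ s) = NN A k := by
  have h1 : ∀ l ∈ Ico 1 k, A l * ∑ s ∈ Icc 1 (k - l),
      PowerSeries.coeff (k - l) ((PowerSeries.mk A) ^ s) =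
      ∑ s ∈ Icc 1 (k - 1), A l * PowerSeries.coeff (k - l) ((PowerSeries.mk A) ^ s) := by
    intro l hl
    obtain ⟨hl1, hl2⟩ := mem_Ico.1 hl
    rw [← mul_sum]
    apply congrArg (fun t => A l * t)
    apply sum_subset
    · intro s hs
      obtain ⟨hs1, hs2⟩ := mem_Icc.1 hs
      exact mem_Icc.2 ⟨hs1, by omega⟩
    · intro s hs hs'
      obtain ⟨hs1, hs2⟩ := mem_Icc.1 hs
      apply psb_zero A hA0
      by_contra hc
      exact hs' (mem_Icc.2 ⟨hs1, by omega⟩)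
  rw [sum_congr rfl h1, sum_comm]
  have h2 : ∀ s ∈ Icc 1 (k - 1), ∑ l ∈ Ico 1 k, A l *
      PowerSeries.coeff (k - l) ((PowerSeries.mk A) ^ s) =
      PowerSeries.coeff k ((PowerSeries.mk A) ^ (s + 1)) := by
    intro s hs
    obtain ⟨hs1, hs2⟩ := mem_Icc.1 hs
    rw [pow_succ', PowerSeries.coeff_mul]
    have e : ∑ p ∈ antidiagonal k, PowerSeries.coeff p.1 (PowerSeries.mk A) *
        PowerSeries.coeff p.2 ((PowerSeries.mk A) ^ s) =
        ∑ i ∈ range (k + 1), A i * PowerSeries.coeff (k - i) ((PowerSeries.mk A) ^ s) := by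
      rw [Finset.Nat.sum_antidiagonal_eq_sum_range_succ
        (fun i j => PowerSeries.coeff i (PowerSeries.mk A) *
          PowerSeries.coeff j ((PowerSeries.mk A) ^ s)) k]
      refine sum_congr rfl fun i _ => ?_
      rw [PowerSeries.coeff_mk]
    rw [e]
    apply sum_subset
    · intro l hl
      obtain ⟨hl1, hl2⟩ := mem_Ico.1 hl
      exact mem_range.2 (by omega)
    · intro l hl hl'
      have hl3 := mem_range.1 hl
      by_cases h0 : l = 0
      · rw [h0, hA0, zero_mul]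
      · have hk : l = k := by
          by_contra hc
          exact hl' (mem_Ico.2 ⟨by omega, by omega⟩)
        rw [hk, Nat.sub_self, psb_zero A hA0 0 s (by omega), mul_zero]
  rw [sum_congr rfl h2]
  unfold NN
  refine Finset.sum_nbij' (fun s => s + 1) (fun s => s - 1) ?_ ?_ ?_ ?_ ?_
  · intro s hs
    obtain ⟨hs1, hs2⟩ := mem_Icc.1 hs
    exact mem_Icc.2 ⟨by omega, by omega⟩
  · intro s hs
    obtain ⟨hs1, hs2⟩ := mem_Icc.1 hs
    exact mem_Icc.2 ⟨by omega, by omega⟩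
  · intro s hs
    show s + 1 - 1 = s
    omega
  · intro s hs
    obtain ⟨hs1, hs2⟩ := mem_Icc.1 hs
    show s - 1 + 1 = s
    omega
  · intro s hs
    rfl

theorem E3 (hE1 : SE1) (hE2 : SE2) : SE3 := by
  intro A a k hA0 hA ha0 hW
  have hM0 : (0 : ℝ) ≤ M := by norm_num [M]
  have hn0 : (0 : ℝ) < nR := by norm_num [nR]
  set T : ℕ → ℕ → ℕ → ℝ := fun l s j => ((l : ℝ) / nR ^ (j + 1)) ^ s / ((s - 1).factorial : ℝ) *
    Real.exp (-(L * l / nR ^ j)) with hT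
  set C : ℕ → ℕ → ℝ := fun l s => PowerSeries.coeff (k - l) ((PowerSeries.mk A) ^ s) with hC
  have hC0 : ∀ l s, 0 ≤ C l s := fun l s => psb_nonneg A hA _ _
  have hTs : ∀ l s, 1 ≤ l → 1 ≤ s → HasSum (fun j => T l s j) (∑' j, T l s j) := fun l s hl hs =>
    (hE1 l s hl hs).1.hasSum
  set Bd : ℕ → ℝ := fun j => M * ∑ l ∈ Ico 1 k, A l * ∑ s ∈ Icc 1 (k - l), 2 * T l s j * C l s
    with hBd
  have hb : ∀ j, W (j + 1) k * ‖Pk j k (a (j + 1))‖ ≤ Bd j := fun j =>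
    hE2 A (a (j + 1)) j k hA0 hA (ha0 _) (fun i hi => hW (j + 1) i hi)
  have hsum : HasSum Bd (M * ∑ l ∈ Ico 1 k, A l * ∑ s ∈ Icc 1 (k - l),
      2 * (∑' j, T l s j) * C l s) := by
    apply HasSum.mul_left
    apply hasSum_sum
    intro l hl
    obtain ⟨hl1, hl2⟩ := mem_Ico.1 hl
    apply HasSum.mul_left
    apply hasSum_sum
    intro s hs
    obtain ⟨hs1, hs2⟩ := mem_Icc.1 hs
    exact ((hTs l s hl1 hs1).mul_left 2).mul_right (C l s)
  have hnn : ∀ j, 0 ≤ W (j + 1) k * ‖Pk j k (a (j + 1))‖ := fun j =>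
    mul_nonneg (le_max_of_le_right (Nat.cast_nonneg k)) (norm_nonneg _)
  have hs1 : Summable (fun j => W (j + 1) k * ‖Pk j k (a (j + 1))‖) :=
    Summable.of_nonneg_of_le hnn hb hsum.summable
  refine ⟨hs1, ?_⟩
  have h1 : ∑' j, W (j + 1) k * ‖Pk j k (a (j + 1))‖ ≤ ∑' j, Bd j :=
    hs1.tsum_le_tsum hb hsum.summable
  refine h1.trans ?_
  rw [hsum.tsum_eq, ← E3_NN A hA0 k, mul_comm (8 : ℝ) M, mul_assoc]
  apply mul_le_mul_of_nonneg_left _ hM0
  rw [mul_sum]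
  refine sum_le_sum fun l hl => ?_
  obtain ⟨hl1, hl2⟩ := mem_Ico.1 hl
  rw [mul_left_comm]
  apply mul_le_mul_of_nonneg_left _ (hA l)
  rw [mul_sum]
  refine sum_le_sum fun s hs => ?_
  obtain ⟨hs1, hs2⟩ := mem_Icc.1 hs
  apply mul_le_mul_of_nonneg_right _ (hC0 l s)
  have := (hE1 l s hl1 hs1).2
  have h2 : ∑' j, T l s j ≤ 4 := this
  linarith

end

end Pool.Agent.H13.TQ
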