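import Pool.Agent.H13.TQ.Stm

namespace Pool.Agent.H13.TQ

open Finset

noncomputable section

theorem e4_sq_sum (n : ℕ) : ∑ i ∈ range (n + 1), (1 : ℝ) / (i : ℝ) ^ 2 ≤ 2 := by
  have h : ∀ n : ℕ, ∑ i ∈ range (n + 2), (1 : ℝ) / (i : ℝ) ^ 2 ≤ 2 - 1 / ((n : ℝ) + 1) := by
    intro n
    induction n with
    | zero => simp [Finset.sum_range_succ]; norm_num
    | succ n ih =>
      rw [Finset.sum_range_succ]
      have h1 : (0 : ℝ) < (n : ℝ) + 1 := by positivity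
      have h2 : (0 : ℝ) < (n : ℝ) + 2 := by positivity
      have h3 : (1 : ℝ) / ((n + 2 : ℕ) : ℝ) ^ 2 ≤ 1 / ((n : ℝ) + 1) - 1 / ((n : ℝ) + 2) := by
        rw [div_sub_div _ _ h1.ne' h2.ne', div_le_div_iff₀ (by positivity) (by positivity)]
        push_cast
        nlinarith
      have e : ((n + 1 : ℕ) : ℝ) + 1 = (n : ℝ) + 2 := by push_cast; ring
      rw [e]
      linarith
  rcases n with _ | n
  · simp
  · refine (h n).trans ?_
    have : (0 : ℝ) ≤ 1 / ((n : ℝ) + 1) := by positivity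
    linarith

theorem e4_term (i j : ℕ) : (1 : ℝ) / (i : ℝ) ^ 2 * (1 / (j : ℝ) ^ 2) ≤
    2 / ((i + j : ℕ) : ℝ) ^ 2 * (1 / (i : ℝ) ^ 2 + 1 / (j : ℝ) ^ 2) := by
  rcases Nat.eq_zero_or_pos i with rfl | hi
  · simp; positivity
  rcases Nat.eq_zero_or_pos j with rfl | hj
  · simp; positivity
  have hi' : (0 : ℝ) < i := by exact_mod_cast hi
  have hj' : (0 : ℝ) < j := by exact_mod_cast hj
  push_cast
  rw [div_add_div _ _ (by positivity) (by positivity), div_mul_div_comm, div_mul_div_comm,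
    div_le_div_iff₀ (by positivity) (by positivity)]
  have h : 0 ≤ ((i : ℝ) - j) ^ 2 := sq_nonneg _
  have h2 : 0 ≤ (i : ℝ) ^ 2 * (j : ℝ) ^ 2 * ((i : ℝ) - j) ^ 2 := by positivity
  nlinarith

theorem e4_conv (k : ℕ) : ∑ p ∈ antidiagonal k, (1 : ℝ) / (p.1 : ℝ) ^ 2 * (1 / (p.2 : ℝ) ^ 2) ≤
    8 / (k : ℝ) ^ 2 := by
  have h1 : ∑ p ∈ antidiagonal k, (1 : ℝ) / (p.1 : ℝ) ^ 2 * (1 / (p.2 : ℝ) ^ 2) ≤
      ∑ p ∈ antidiagonal k, 2 / (k : ℝ) ^ 2 * (1 / (p.1 : ℝ) ^ 2 + 1 / (p.2 : ℝ) ^ 2) := by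
    refine Finset.sum_le_sum ?_
    intro p hp
    have e := Finset.HasAntidiagonal.mem_antidiagonal.1 hp
    have := e4_term p.1 p.2
    rw [e] at this
    exact this
  refine h1.trans ?_
  rw [← Finset.mul_sum, Finset.sum_add_distrib]
  have e1 : ∑ p ∈ antidiagonal k, (1 : ℝ) / (p.1 : ℝ) ^ 2 = ∑ i ∈ range (k + 1), (1 : ℝ) / (i : ℝ) ^ 2 :=
    Finset.Nat.sum_antidiagonal_eq_sum_range_succ_mk (fun p => (1 : ℝ) / (p.1 : ℝ) ^ 2) k
  have e2 : ∑ p ∈ antidiagonal k, (1 : ℝ) / (p.2 : ℝ) ^ 2 = ∑ i ∈ range (k + 1), (1 : ℝ) / (i : ℝ) ^ 2 := by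
    rw [← e1]
    exact Finset.Nat.sum_antidiagonal_swap (f := fun p : ℕ × ℕ => (1 : ℝ) / (p.1 : ℝ) ^ 2) (n := k)
  rw [e1, e2]
  have h3 := e4_sq_sum k
  have h4 : (0 : ℝ) ≤ 2 / (k : ℝ) ^ 2 := by positivity
  calc 2 / (k : ℝ) ^ 2 * (∑ i ∈ range (k + 1), (1 : ℝ) / (i : ℝ) ^ 2 +
        ∑ i ∈ range (k + 1), (1 : ℝ) / (i : ℝ) ^ 2)
      ≤ 2 / (k : ℝ) ^ 2 * (2 + 2) := by
        apply mul_le_mul_of_nonneg_left _ h4
        linarith
    _ = 8 / (k : ℝ) ^ 2 := by ring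

theorem E4 : SE4 := by
  intro σ hσ s k hs
  induction s, hs using Nat.le_induction generalizing k with
  | base => simp
  | succ s hs ih =>
    obtain ⟨r, rfl⟩ : ∃ r, s = r + 1 := ⟨s - 1, by omega⟩
    rw [pow_succ, PowerSeries.coeff_mul]
    have h1 : ∑ p ∈ antidiagonal k, PowerSeries.coeff p.1 ((PowerSeries.mk (bb σ)) ^ (r + 1)) *
        PowerSeries.coeff p.2 (PowerSeries.mk (bb σ)) ≤
        ∑ p ∈ antidiagonal k, 8 ^ r * σ ^ k * (1 / (p.1 : ℝ) ^ 2 * (1 / (p.2 : ℝ) ^ 2)) := by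
      refine Finset.sum_le_sum ?_
      intro p hp
      have e := Finset.HasAntidiagonal.mem_antidiagonal.1 hp
      rw [PowerSeries.coeff_mk]
      have h2 := ih p.1
      have h3 : 0 ≤ bb σ p.2 := by unfold bb; positivity
      refine (mul_le_mul_of_nonneg_right h2 h3).trans (le_of_eq ?_)
      simp only [bb, Nat.add_sub_cancel]
      rw [← e, pow_add]
      ring
    refine h1.trans ?_
    rw [← Finset.mul_sum]
    have h4 := e4_conv k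
    have h5 : (0 : ℝ) ≤ 8 ^ r * σ ^ k := by positivity
    refine (mul_le_mul_of_nonneg_left h4 h5).trans (le_of_eq ?_)
    simp only [bb, Nat.add_sub_cancel]
    ring

end

end Pool.Agent.H13.TQ
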