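import Pool.Agent.H13.TQ.Stm
import Pool.Agent.H13.TQ.PSB

/-!
# Crew TQ, parts F1 and F2
-/

namespace Pool.Agent.H13.TQ

open Finset

theorem ec_congr (a b : ℕ → ℂ) (c : ℂ) (r : ℕ) (h : ∀ i, i ≤ r → a i = b i) :
    ec a c r = ec b c r := by
  unfold ec
  refine Finset.sum_congr rfl ?_
  intro s _
  rw [psb_congr a b r h s]

/-- F1 -/
theorem F1 : SF1 := by
  intro m k a b _ h _
  unfold Pk
  congr 1
  refine Finset.sum_congr rfl ?_
  intro l hl
  rw [Finset.mem_Ico] at hl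
  rw [h l hl.2, ec_congr a b _ (k - l) (fun i hi => h i (by omega))]

/-- Difference of `ec` when only the top entry is changed. -/
theorem ec_top (a b : ℕ → ℂ) (c : ℂ) (l : ℕ) (hl : 1 ≤ l) (ha : a 0 = 0)
    (h : ∀ i, i < l → b i = a i) : ec b c l = ec a c l + c * (b l - a l) := by
  obtain ⟨r, rfl⟩ : ∃ r, l = r + 1 := ⟨l - 1, by omega⟩
  have hb : b 0 = 0 := by rw [h 0 (by omega), ha]
  unfold ec
  rw [Finset.sum_range_succ' _ (r + 1), Finset.sum_range_succ' _ (r + 1)]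
  rw [Finset.sum_range_succ' _ r, Finset.sum_range_succ' _ r]
  have h1 : ∀ s ∈ range r, c ^ (s + 1 + 1) / ((s + 1 + 1).factorial : ℂ) *
      PowerSeries.coeff (r + 1) ((PowerSeries.mk b) ^ (s + 1 + 1)) =
      c ^ (s + 1 + 1) / ((s + 1 + 1).factorial : ℂ) *
      PowerSeries.coeff (r + 1) ((PowerSeries.mk a) ^ (s + 1 + 1)) := by
    intro s _
    rw [psb_congr' b a (r + 1) hb ha h (s + 1 + 1) (by omega)]
  rw [Finset.sum_congr rfl h1]
  simp only [zero_add, pow_one, pow_zero, Nat.factorial_one, Nat.factorial_zero, Nat.cast_one,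
    div_one, PowerSeries.coeff_mk]
  ring

/-- F2 -/
theorem F2 : SF2 := by
  intro m l a b hl ha h
  have hb : b 0 = 0 := by rw [h 0 (by omega), ha]
  obtain ⟨r, rfl⟩ : ∃ r, l = r + 2 := ⟨l - 2, by omega⟩
  unfold Pk
  have dec : ∀ f : ℕ → ℂ, ∑ j ∈ Ico 1 (r + 2 + 1), f j
      = f 1 + ∑ j ∈ Ico (1 + 1) (r + 2), f j + f (r + 2) := by
    intro f
    rw [Finset.sum_Ico_succ_top (by omega), Finset.sum_eq_sum_Ico_succ_bot (by omega)]
  rw [dec, dec]
  have h1 : ∀ j ∈ Ico (1 + 1) (r + 2), b j * q m ^ j * ec b (Complex.I * (j : ℂ)) (r + 2 + 1 - j) =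
      a j * q m ^ j * ec a (Complex.I * (j : ℂ)) (r + 2 + 1 - j) := by
    intro j hj
    rw [Finset.mem_Ico] at hj
    rw [h j hj.2, ec_congr b a _ (r + 2 + 1 - j) (fun i hi => h i (by omega))]
  rw [Finset.sum_congr rfl h1]
  have e1 : r + 2 + 1 - (r + 2) = 1 := by omega
  have e2 : r + 2 + 1 - 1 = r + 2 := by omega
  rw [e1, e2]
  have h2 : ec b (Complex.I * ((1 : ℕ) : ℂ)) (r + 2)
      = ec a (Complex.I * ((1 : ℕ) : ℂ)) (r + 2) + Complex.I * ((1 : ℕ) : ℂ) * (b (r + 2) - a (r + 2)) :=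
    ec_top a b _ (r + 2) (by omega) ha h
  rw [h2, h 1 (by omega)]
  have h3 : ec b (Complex.I * ((r + 2 : ℕ) : ℂ)) 1 = ec a (Complex.I * ((r + 2 : ℕ) : ℂ)) 1 :=
    ec_congr b a _ 1 (fun i hi => h i (by omega))
  have h4 : ec a (Complex.I * ((r + 2 : ℕ) : ℂ)) 1 = Complex.I * ((r + 2 : ℕ) : ℂ) * a 1 := by
    unfold ec
    simp [Finset.sum_range_succ]
  rw [h3, h4]
  push_cast
  ring

end Pool.Agent.H13.TQ
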