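import Pool.Agent.H13.TQ.Stm

/-!
# Crew TQ, parts F3 and F4
-/

namespace Pool.Agent.H13.TQ

open Finset

theorem W_pos' (m k : ℕ) : 0 < W m k := by
  unfold W
  exact lt_of_lt_of_le (by unfold nR; positivity) (le_max_left _ _)

theorem W_mono' (m k : ℕ) : W m k ≤ W (m + 1) k := by
  unfold W
  apply max_le_max _ le_rfl
  apply pow_le_pow_right₀ (by unfold nR; norm_num) (by omega)

/-- F3 -/
theorem F3 (hD4 : SD4) : SF3 := by
  intro k R hk hs m
  have hsh : Summable (fun r => W (m + r + 1) k * ‖R (m + r)‖) := by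
    have := hs.comp_injective (i := fun r : ℕ => m + r) (fun a b h => by simpa using h)
    exact this
  have hpt : ∀ r, W m k * ‖prodp m (m + r) k * R (m + r)‖ ≤ 3 * (W (m + r + 1) k * ‖R (m + r)‖) := by
    intro r
    have h1 := hD4 m (m + r) k (by omega) hk
    have h2 := W_mono' (m + r) k
    rw [norm_mul]
    calc W m k * (‖prodp m (m + r) k‖ * ‖R (m + r)‖)
        = (‖prodp m (m + r) k‖ * W m k) * ‖R (m + r)‖ := by ring
      _ ≤ (3 * W (m + r + 1) k) * ‖R (m + r)‖ := by
          apply mul_le_mul_of_nonneg_right _ (norm_nonneg _)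
          linarith
      _ = _ := by ring
  have hWp := W_pos' m k
  have hsum : Summable (fun r => W m k * ‖prodp m (m + r) k * R (m + r)‖) :=
    Summable.of_nonneg_of_le (fun r => by positivity) hpt (hsh.mul_left 3)
  have hsum' : Summable (fun r => ‖prodp m (m + r) k * R (m + r)‖) := by
    have := hsum.mul_left (W m k)⁻¹
    refine this.congr ?_
    intro r
    rw [← mul_assoc, inv_mul_cancel₀ hWp.ne', one_mul]
  refine ⟨hsum', ?_⟩
  unfold SS
  calc W m k * ‖∑' r : ℕ, prodp m (m + r) k * R (m + r)‖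
      ≤ W m k * ∑' r : ℕ, ‖prodp m (m + r) k * R (m + r)‖ :=
        mul_le_mul_of_nonneg_left (norm_tsum_le_tsum_norm hsum') hWp.le
    _ = ∑' r : ℕ, W m k * ‖prodp m (m + r) k * R (m + r)‖ := by rw [tsum_mul_left]
    _ ≤ ∑' r : ℕ, 3 * (W (m + r + 1) k * ‖R (m + r)‖) :=
        hsum.tsum_le_tsum hpt (hsh.mul_left 3)
    _ = 3 * ∑' r : ℕ, (W (m + r + 1) k * ‖R (m + r)‖) := by rw [tsum_mul_left]
    _ ≤ 3 * ∑' j, W (j + 1) k * ‖R j‖ := by
        apply mul_le_mul_of_nonneg_left _ (by norm_num)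
        exact tsum_comp_le_tsum_of_inj hs (fun j => mul_nonneg (W_pos' _ _).le (norm_nonneg _))
          (i := fun r : ℕ => m + r) (fun a b h => by simpa using h)

/-- F4 -/
theorem F4 : SF4 := by
  intro k R m h1 h2
  unfold SS
  rw [h1.of_norm.tsum_eq_zero_add]
  have e0 : prodp m (m + 0) k * R (m + 0) = R m := by
    unfold prodp; simp
  rw [e0, ← tsum_mul_left]
  congr 1
  apply tsum_congr
  intro r
  have e : m + (r + 1) = m + 1 + r := by ring
  rw [e]
  unfold prodp
  rw [Finset.prod_eq_prod_Ico_succ_bot (by omega)]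
  ring

end Pool.Agent.H13.TQ
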