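import Pool.Agent.H13.TQ.Stm
import Pool.Agent.H13.TQ.PSB

namespace Pool.Agent.H13.TQ

open MeasureTheory Filter Topology Finset

noncomputable section

theorem row_congr {H H' : ℕ → ℕ → ℂ} {k : ℕ} (h : ∀ i, i < k → H i = H' i) (m : ℕ) :
    row H k m = row H' k m := by
  funext i
  unfold row
  by_cases hi : i < k
  · rw [if_pos hi, if_pos hi, h i hi]
  · rw [if_neg hi, if_neg hi]

theorem RR_congr {H H' : ℕ → ℕ → ℂ} {k : ℕ} (h : ∀ i, i < k → H i = H' i) :
    RR H k = RR H' k := by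
  funext j
  unfold RR
  rw [row_congr h]

theorem row0_congr {H H' : ℕ → ℕ → ℂ} {k : ℕ} (h : ∀ i, i < k → H i = H' i) (m : ℕ) :
    row0 H k m = row0 H' k m := by
  funext i
  unfold row0
  rw [RR_congr h]
  by_cases hi : i < k
  · rw [if_pos hi, if_pos hi, h i hi]
  · rw [if_neg hi, if_neg hi]

theorem stepF_congr (t : ℝ) {H H' : ℕ → ℕ → ℂ} {k : ℕ} (h : ∀ i, i < k → H i = H' i) :
    stepF t k H = stepF t k H' := by
  have h1 := RR_congr h
  have h2 : RR0 H k = RR0 H' k := by
    funext j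
    unfold RR0
    rw [row0_congr h]
  unfold stepF xk
  rw [h1, h2]

theorem gc_eq (t : ℝ) (k : ℕ) : gc t k = stepF t k (gc t) := by
  rw [gc]
  refine stepF_congr t ?_
  intro i hi
  simp [hi]

theorem gc_zero (t : ℝ) (m : ℕ) : gc t 0 m = 0 := by
  rw [gc_eq]; simp [stepF]

theorem gc_one (t : ℝ) (m : ℕ) : gc t 1 m = (t : ℂ) / (nR : ℂ) ^ m * Psi (1 / nR ^ m) := by
  rw [gc_eq]; simp [stepF]

theorem gc_ge (t : ℝ) (k m : ℕ) (hk : 2 ≤ k) :
    gc t k m = xk t k (gc t) / (nR : ℂ) ^ m * Psi ((k : ℝ) / nR ^ m) + SS m k (RR (gc t) k) := by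
  rw [gc_eq]
  have h0 : k ≠ 0 := by omega
  have h1 : k ≠ 1 := by omega
  simp only [stepF, if_neg h0, if_neg h1]

theorem nR_pos : 0 < nR := by unfold nR; norm_num

theorem M_pos : 0 < M := by unfold M; norm_num

theorem W_pos (m k : ℕ) : 0 < W m k := lt_of_lt_of_le (pow_pos nR_pos m) (le_max_left _ _)

theorem W_ge_pow (m k : ℕ) : nR ^ m ≤ W m k := le_max_left _ _

theorem W_ge_nat (m k : ℕ) : (k : ℝ) ≤ W m k := le_max_right _ _

theorem W_zero (k : ℕ) (hk : 1 ≤ k) : W 0 k = k := by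
  unfold W
  rw [pow_zero]
  exact max_eq_right (by exact_mod_cast hk)

theorem NN_nonneg (A : ℕ → ℝ) (h : ∀ i, 0 ≤ A i) (k : ℕ) : 0 ≤ NN A k :=
  Finset.sum_nonneg (fun s _ => psb_nonneg A h k s)

/-- Bounds on the nonlinear terms at level `k`. -/
theorem sum_RR (hE3 : SE3) (Bd : ℕ → ℝ) (hB0 : Bd 0 = 0) (hBn : ∀ i, 0 ≤ Bd i)
    (H : ℕ → ℕ → ℂ) (hH0 : ∀ m, H 0 m = 0) (k : ℕ)
    (hb : ∀ i, i < k → ∀ m, W m i * ‖H i m‖ ≤ Bd i) :
    Summable (fun j => W (j + 1) k * ‖RR H k j‖) ∧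
      ∑' j, W (j + 1) k * ‖RR H k j‖ ≤ 8 * M * NN Bd k := by
  refine hE3 Bd (fun m => row H k m) k hB0 hBn ?_ ?_
  · intro m
    unfold row
    by_cases h : 0 < k
    · rw [if_pos h, hH0]
    · rw [if_neg h]
  · intro m i hi
    show W m i * ‖row H k m i‖ ≤ Bd i
    unfold row
    rw [if_pos hi]
    exact hb i hi m

/-- Bounds on the nonlinear terms at level `k + 1` with `x_k = 0`. -/
theorem sum_RR0 (hE3 : SE3) (hF3 : SF3) (Bd : ℕ → ℝ) (hB0 : Bd 0 = 0) (hBn : ∀ i, 0 ≤ Bd i)
    (H : ℕ → ℕ → ℂ) (hH0 : ∀ m, H 0 m = 0) (k : ℕ) (hk : 1 ≤ k)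
    (hb : ∀ i, i < k → ∀ m, W m i * ‖H i m‖ ≤ Bd i) (C : ℝ) (hC : 24 * M ≤ C) :
    Summable (fun j => W (j + 1) (k + 1) * ‖RR0 H k j‖) ∧
      ∑' j, W (j + 1) (k + 1) * ‖RR0 H k j‖ ≤
        8 * M * NN (Function.update Bd k (C * NN Bd k)) (k + 1) := by
  obtain ⟨hs, hle⟩ := sum_RR hE3 Bd hB0 hBn H hH0 k hb
  have hNN := NN_nonneg Bd hBn k
  have hCp : 0 ≤ C := le_trans (by have := M_pos; positivity) hC
  refine hE3 (Function.update Bd k (C * NN Bd k)) (fun m => row0 H k m) (k + 1) ?_ ?_ ?_ ?_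
  · rw [Function.update_of_ne (by omega)]; exact hB0
  · intro i
    by_cases hi : i = k
    · rw [hi, Function.update_self]; positivity
    · rw [Function.update_of_ne hi]; exact hBn i
  · intro m
    show row0 H k m 0 = 0
    unfold row0
    rw [if_pos (by omega), hH0]
  · intro m i hi
    show W m i * ‖row0 H k m i‖ ≤ _
    by_cases hik : i < k
    · unfold row0
      rw [if_pos hik, Function.update_of_ne (by omega)]
      exact hb i hik m
    · have hik' : i = k := by omega
      subst hik'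
      unfold row0
      rw [if_neg hik, if_pos rfl, Function.update_self]
      obtain ⟨_, h2⟩ := hF3 i (RR H i) hk hs m
      have h3 : 3 * ∑' j, W (j + 1) i * ‖RR H i j‖ ≤ 3 * (8 * M * NN Bd i) :=
        mul_le_mul_of_nonneg_left hle (by norm_num)
      have h4 : 24 * M * NN Bd i ≤ C * NN Bd i := mul_le_mul_of_nonneg_right hC hNN
      linarith

/-- Odd numbers away from the powers of `n` satisfy the hypothesis of D6. -/
theorem away {k : ℕ} (hk : 2 ≤ k) (hodd : Odd k) (hNR : ¬ NR k) (i : ℕ) :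
    nR ^ i / nR ≤ |(k : ℝ) - nR ^ i| := by
  have hn : nR = 1000000 := rfl
  have hk3 : 3 ≤ k := by
    rcases hodd with ⟨r, hr⟩; omega
  have hk3' : (3 : ℝ) ≤ k := by exact_mod_cast hk3
  rcases Nat.lt_or_ge i 2 with hi | hi
  · interval_cases i
    · rw [pow_zero, abs_of_nonneg (by linarith), hn]
      have : (1 : ℝ) / 1000000 ≤ 1 := by norm_num
      linarith
    · rw [pow_one, div_self (ne_of_gt nR_pos)]
      have h1 : (k : ℤ) - 1000000 ≠ 0 := by
        intro h
        rcases hodd with ⟨r, hr⟩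
        omega
      have h2 : (1 : ℤ) ≤ |(k : ℤ) - 1000000| := Int.one_le_abs h1
      have h3 : (1 : ℝ) ≤ |(k : ℝ) - 1000000| := by exact_mod_cast h2
      rw [hn]; exact h3
  · have h1 : ¬ |(k : ℝ) - nR ^ i| ≤ nR ^ i / 2000 := by
      intro h
      exact hNR ⟨hodd, i, hi, h⟩
    have h2 : nR ^ i / nR ≤ nR ^ i / 2000 := by
      refine div_le_div_of_nonneg_left (by have := nR_pos; positivity) (by norm_num) ?_
      rw [hn]; norm_num
    linarith [not_le.1 h1]

theorem F5 (hD5 : SD5) (hD6 : SD6) (hD7 : SD7) (hE3 : SE3) (hE5 : SE5) (hF3 : SF3) : SF5 := by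
  obtain ⟨c6, hc6, h6⟩ := hD6
  obtain ⟨c7, hc7, h7⟩ := hD7
  have hM := M_pos
  have hC1 : (1 : ℝ) ≤ 1 + 24 * M + 72 * M / c6 + 72 * M / c7 := by
    have : 0 ≤ 24 * M + 72 * M / c6 + 72 * M / c7 := by positivity
    linarith
  obtain ⟨t, Bd, ht, ht1, hB0, hBn, hB1, hB2, hB⟩ := hE5 _ hC1
  set C : ℝ := 1 + 24 * M + 72 * M / c6 + 72 * M / c7 with hCdef
  have hC24 : 24 * M ≤ C := by
    have : 0 ≤ 1 + 72 * M / c6 + 72 * M / c7 := by positivity
    linarith
  refine ⟨t, Bd, ht, ht1, hB0, hBn, hB1, hB2, ?_⟩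
  intro k
  induction k using Nat.strong_induction_on with
  | _ k ih =>
  intro m
  rcases Nat.lt_or_ge k 2 with hk | hk
  · interval_cases k
    · rw [gc_zero, hB0]; simp
    · rw [gc_one, hB1, norm_mul, norm_div, norm_pow, Complex.norm_real, Complex.norm_real,
        Real.norm_of_nonneg ht.le, Real.norm_of_nonneg nR_pos.le]
      have h := hD5 m 1 le_rfl
      rw [Nat.cast_one] at h
      have hp : 0 < nR ^ m := pow_pos nR_pos m
      calc W m 1 * (t / nR ^ m * ‖Psi (1 / nR ^ m)‖)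
          = t / nR ^ m * (W m 1 * ‖Psi (1 / nR ^ m)‖) := by ring
        _ ≤ t / nR ^ m * (3 * nR ^ m) := mul_le_mul_of_nonneg_left h (by positivity)
        _ = 3 * t := by field_simp
  · have hk1 : 1 ≤ k := by omega
    have hkpos : (0 : ℝ) < k := by exact_mod_cast hk1
    obtain ⟨hs, hle⟩ := sum_RR hE3 Bd hB0 hBn (gc t) (gc_zero t) k ih
    have hNN := NN_nonneg Bd hBn k
    obtain ⟨_, hSS⟩ := hF3 k (RR (gc t) k) hk1 hs m
    obtain ⟨_, hSS0⟩ := hF3 k (RR (gc t) k) hk1 hs 0
    have hN2 : 0 ≤ NN (Function.update Bd k (C * NN Bd k)) (k + 1) := by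
      refine NN_nonneg _ ?_ _
      intro i
      by_cases hi : i = k
      · rw [hi, Function.update_self]
        have : 0 ≤ C := by linarith
        positivity
      · rw [Function.update_of_ne hi]; exact hBn i
    have hBk := hB k hk
    rw [gc_ge t k m hk]
    have hx : ‖xk t k (gc t)‖ ≤ 24 * M / c6 * NN Bd k +
        24 * M / (t * c7) * NN (Function.update Bd k (C * NN Bd k)) (k + 1) := by
      have ha : 0 ≤ 24 * M / c6 * NN Bd k := by positivity
      have hb : 0 ≤ 24 * M / (t * c7) * NN (Function.update Bd k (C * NN Bd k)) (k + 1) := by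
        positivity
      unfold xk
      by_cases h1 : Odd k ∧ ¬ NR k
      · rw [if_pos h1]
        have h2 := h6 k hk1 (away hk h1.1 h1.2)
        have hPsi : 0 < ‖Psi (k : ℝ)‖ := by
          by_contra hneg
          have h0 : ‖Psi (k : ℝ)‖ = 0 := le_antisymm (not_lt.1 hneg) (norm_nonneg _)
          rw [h0, mul_zero] at h2
          linarith
        rw [norm_div, norm_neg]
        rw [W_zero k hk1] at hSS0
        have h3 : ‖SS 0 k (RR (gc t) k)‖ / ‖Psi (k : ℝ)‖ ≤ 24 * M / c6 * NN Bd k := by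
          rw [div_le_iff₀ hPsi]
          have e1 : (k : ℝ) * ‖SS 0 k (RR (gc t) k)‖ ≤ 24 * M * NN Bd k := by linarith
          have e2 : 24 * M * NN Bd k ≤ 24 * M / c6 * NN Bd k * (k * ‖Psi (k : ℝ)‖) := by
            calc 24 * M * NN Bd k = 24 * M / c6 * NN Bd k * c6 := by field_simp
              _ ≤ _ := mul_le_mul_of_nonneg_left h2 ha
          have e3 : (k : ℝ) * ‖SS 0 k (RR (gc t) k)‖ ≤
              (k : ℝ) * (24 * M / c6 * NN Bd k * ‖Psi (k : ℝ)‖) := by
            calc _ ≤ _ := e1.trans e2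
              _ = _ := by ring
          exact le_of_mul_le_mul_left e3 hkpos
        linarith
      · rw [if_neg h1]
        by_cases h2 : NR (k + 1)
        · rw [if_pos h2]
          obtain ⟨hs0, hle0⟩ := sum_RR0 hE3 hF3 Bd hB0 hBn (gc t) (gc_zero t) k hk1 ih C hC24
          obtain ⟨_, h4⟩ := hF3 (k + 1) (RR0 (gc t) k) (by omega) hs0 0
          rw [W_zero (k + 1) (by omega)] at h4
          push_cast at h4
          have h5 := h7 k h2
          have hCc : 0 < ‖Cc k‖ := by
            by_contra hneg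
            have h0 : ‖Cc k‖ = 0 := le_antisymm (not_lt.1 hneg) (norm_nonneg _)
            rw [h0, mul_zero] at h5
            linarith
          rw [norm_div, norm_neg, norm_mul, Complex.norm_real, Real.norm_of_nonneg ht.le]
          have hk1pos : (0 : ℝ) < (k : ℝ) + 1 := by positivity
          have h6' : ‖SS 0 (k + 1) (RR0 (gc t) k)‖ / (t * ‖Cc k‖) ≤
              24 * M / (t * c7) * NN (Function.update Bd k (C * NN Bd k)) (k + 1) := by
            rw [div_le_iff₀ (by positivity)]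
            have e1 : ((k : ℝ) + 1) * ‖SS 0 (k + 1) (RR0 (gc t) k)‖ ≤
                24 * M * NN (Function.update Bd k (C * NN Bd k)) (k + 1) := by linarith
            have e2 : 24 * M * NN (Function.update Bd k (C * NN Bd k)) (k + 1) ≤
                24 * M / (t * c7) * NN (Function.update Bd k (C * NN Bd k)) (k + 1) *
                  (t * (((k : ℝ) + 1) * ‖Cc k‖)) := by
              calc 24 * M * NN (Function.update Bd k (C * NN Bd k)) (k + 1)
                  = 24 * M / (t * c7) * NN (Function.update Bd k (C * NN Bd k)) (k + 1) *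
                    (t * c7) := by field_simp
                _ ≤ _ := mul_le_mul_of_nonneg_left (mul_le_mul_of_nonneg_left h5 ht.le) hb
            have e3 : ((k : ℝ) + 1) * ‖SS 0 (k + 1) (RR0 (gc t) k)‖ ≤
                ((k : ℝ) + 1) * (24 * M / (t * c7) *
                  NN (Function.update Bd k (C * NN Bd k)) (k + 1) * (t * ‖Cc k‖)) := by
              calc _ ≤ _ := e1.trans e2
                _ = _ := by ring
            exact le_of_mul_le_mul_left e3 hk1pos
          linarith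
        · rw [if_neg h2, norm_zero]
          linarith
    have hPsi := hD5 m k hk1
    have hp : 0 < nR ^ m := pow_pos nR_pos m
    have hterm : W m k * ‖xk t k (gc t) / (nR : ℂ) ^ m * Psi ((k : ℝ) / nR ^ m)‖ ≤
        3 * ‖xk t k (gc t)‖ := by
      rw [norm_mul, norm_div, norm_pow, Complex.norm_real, Real.norm_of_nonneg nR_pos.le]
      calc W m k * (‖xk t k (gc t)‖ / nR ^ m * ‖Psi ((k : ℝ) / nR ^ m)‖)
          = ‖xk t k (gc t)‖ / nR ^ m * (W m k * ‖Psi ((k : ℝ) / nR ^ m)‖) := by ring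
        _ ≤ ‖xk t k (gc t)‖ / nR ^ m * (3 * nR ^ m) :=
            mul_le_mul_of_nonneg_left hPsi (by positivity)
        _ = 3 * ‖xk t k (gc t)‖ := by field_simp
    have htri : W m k * ‖xk t k (gc t) / (nR : ℂ) ^ m * Psi ((k : ℝ) / nR ^ m) +
        SS m k (RR (gc t) k)‖ ≤ 3 * ‖xk t k (gc t)‖ + 3 * (8 * M * NN Bd k) := by
      calc _ ≤ W m k * (‖xk t k (gc t) / (nR : ℂ) ^ m * Psi ((k : ℝ) / nR ^ m)‖ +
            ‖SS m k (RR (gc t) k)‖) :=
            mul_le_mul_of_nonneg_left (norm_add_le _ _) (W_pos m k).le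
        _ = W m k * ‖xk t k (gc t) / (nR : ℂ) ^ m * Psi ((k : ℝ) / nR ^ m)‖ +
            W m k * ‖SS m k (RR (gc t) k)‖ := by ring
        _ ≤ _ := by linarith
    refine htri.trans ?_
    have f1 : 3 * (24 * M / c6 * NN Bd k) + 3 * (8 * M * NN Bd k) ≤ C * NN Bd k := by
      have : C * NN Bd k = 3 * (24 * M / c6 * NN Bd k) + 3 * (8 * M * NN Bd k) +
          (1 + 72 * M / c7) * NN Bd k := by
        rw [hCdef]; ring
      rw [this]
      have : 0 ≤ (1 + 72 * M / c7) * NN Bd k := by positivity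
      linarith
    have f2 : 3 * (24 * M / (t * c7) * NN (Function.update Bd k (C * NN Bd k)) (k + 1)) ≤
        C / t * NN (Function.update Bd k (C * NN Bd k)) (k + 1) := by
      have e : 3 * (24 * M / (t * c7) * NN (Function.update Bd k (C * NN Bd k)) (k + 1)) =
          (72 * M / c7) / t * NN (Function.update Bd k (C * NN Bd k)) (k + 1) := by
        field_simp
        ring
      rw [e]
      refine mul_le_mul_of_nonneg_right ?_ hN2
      refine div_le_div_of_nonneg_right ?_ ht.le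
      have : 0 ≤ 1 + 24 * M + 72 * M / c6 := by positivity
      linarith
    linarith

end

end Pool.Agent.H13.TQ
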