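import Pool.Agent.H13.TQ.PF5

namespace Pool.Agent.H13.TQ

open MeasureTheory Filter Topology Finset

noncomputable section

theorem q_pow (m k : ℕ) : q m ^ k = Complex.exp (-Lam * ((k : ℝ) : ℂ) / (nR : ℂ) ^ m) := by
  unfold q
  rw [← Complex.exp_nat_mul]
  congr 1
  push_cast
  ring

theorem nRC_ne : (nR : ℂ) ≠ 0 := by
  have := nR_pos
  exact_mod_cast ne_of_gt this

/-- The factor of `Psi (k / n^m)` is `pp m k / n`. -/
theorem fac_eq (m k : ℕ) : fac ((k : ℝ) / nR ^ m) 0 = pp m k / (nR : ℂ) := by
  unfold fac pp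
  rw [q_pow]
  push_cast
  rw [pow_zero, div_one]
  congr 4
  ring

theorem div_pow_succ (k m : ℕ) : (k : ℝ) / nR ^ m / nR = (k : ℝ) / nR ^ (m + 1) := by
  rw [div_div, pow_succ]

theorem Psi_step (hD2 : SD2) (m k : ℕ) :
    Psi ((k : ℝ) / nR ^ m) = pp m k / (nR : ℂ) * Psi ((k : ℝ) / nR ^ (m + 1)) := by
  have hp : 0 < nR ^ m := pow_pos nR_pos m
  rw [hD2 _ (by positivity), fac_eq, div_pow_succ]

theorem pp_zero_one (hD0 : SD0) : pp 0 1 = 0 := by
  obtain ⟨_, _, _, h, _⟩ := hD0
  unfold pp q
  rw [pow_zero, div_one, pow_one, h]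
  ring

/-- Recursion at level `k = 1`. -/
theorem rec_one (hD2 : SD2) (t : ℝ) (m : ℕ) : gc t 1 m = pp m 1 * gc t 1 (m + 1) := by
  rw [gc_one, gc_one]
  have h := Psi_step hD2 m 1
  rw [Nat.cast_one] at h
  have hn := nRC_ne
  have hp : (nR : ℂ) ^ (m + 1) = (nR : ℂ) ^ m * (nR : ℂ) := pow_succ _ _
  have hpm : (nR : ℂ) ^ m ≠ 0 := pow_ne_zero _ hn
  rw [h, hp]
  field_simp

theorem F6 (hD0 : SD0) (hD2 : SD2) (hD3 : SD3) (hD6 : SD6) (hD7 : SD7) (hD8 : SD8)
    (hE3 : SE3) (hF1 : SF1) (hF2 : SF2) (hF3 : SF3) (hF4 : SF4) (hF5 : SF5) : SArr := by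
  obtain ⟨t, Bd, ht, ht1, hB0, hBn, hB1, hB2, hb⟩ := hF5
  obtain ⟨c6, hc6, h6⟩ := hD6
  obtain ⟨c7, hc7, h7⟩ := hD7
  have htC : (t : ℂ) ≠ 0 := by exact_mod_cast ht.ne'
  have hnC := nRC_ne
  -- summability of the nonlinear terms
  have hsum : ∀ k, 1 ≤ k → ∀ m, Summable (fun r => ‖prodp m (m + r) k * RR (gc t) k (m + r)‖) := by
    intro k hk m
    obtain ⟨hs, _⟩ := sum_RR hE3 Bd hB0 hBn (gc t) (gc_zero t) k (fun i _ m => hb i m)
    exact (hF3 k _ hk hs m).1
  have hsum0 : ∀ k, 1 ≤ k → ∀ m,
      Summable (fun r => ‖prodp m (m + r) (k + 1) * RR0 (gc t) k (m + r)‖) := by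
    intro k hk m
    obtain ⟨hs, _⟩ := sum_RR0 hE3 hF3 Bd hB0 hBn (gc t) (gc_zero t) k hk (fun i _ m => hb i m)
      (24 * M) le_rfl
    exact (hF3 (k + 1) _ (by omega) hs m).1
  have hrow : ∀ m k, Pk m k (fun i => gc t i (m + 1)) = RR (gc t) k m := by
    intro m k
    unfold RR
    refine hF1 m k _ _ (gc_zero t _) ?_ ?_
    · intro i hi
      unfold row
      rw [if_pos hi]
    · unfold row
      by_cases h : 0 < k
      · rw [if_pos h, gc_zero]
      · rw [if_neg h]
  refine ⟨t, fun m k => gc t k m, ht, ht1, fun m => gc_zero t m, ?_, ?_, ?_, ?_⟩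
  · -- bounds
    intro m k hk
    have h1 : nR ^ m * ‖gc t k m‖ ≤ Bd k :=
      (mul_le_mul_of_nonneg_right (W_ge_pow m k) (norm_nonneg _)).trans (hb k m)
    refine h1.trans ?_
    rcases Nat.lt_or_ge k 2 with h2 | h2
    · have : k = 1 := by omega
      subst this
      rw [hB1]; simp
    · refine (hB2 k h2).trans ?_
      have : 0 ≤ t * (1 / 100 : ℝ) ^ (k - 1) := by positivity
      linarith
  · -- recursion
    intro m k hk
    show gc t k m = pp m k * gc t k (m + 1) + Pk m k (fun i => gc t i (m + 1))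
    rcases Nat.lt_or_ge k 2 with h2 | h2
    · have : k = 1 := by omega
      subst this
      rw [rec_one hD2]
      simp [Pk]
    · rw [hrow, gc_ge t k m h2, gc_ge t k (m + 1) h2,
        hF4 k (RR (gc t) k) m (hsum k hk m) (hsum k hk (m + 1)), Psi_step hD2 m k, pow_succ]
      field_simp
      ring
  · -- odd coefficients of row 0
    intro k hk
    show gc t k 0 = 0
    rcases Nat.lt_or_ge k 2 with h2 | h2
    · have : k = 1 := by
        rcases hk with ⟨r, hr⟩; omega
      subst this
      rw [rec_one hD2, pp_zero_one hD0, zero_mul]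
    · have hk1 : 1 ≤ k := by omega
      by_cases hNR : NR k
      · -- near resonant
        obtain ⟨l, rfl⟩ : ∃ l, k = l + 1 := ⟨k - 1, by omega⟩
        have hl2 : 2 ≤ l := by
          rcases hNR with ⟨_, j, hj, hj2⟩
          have hn : nR = 1000000 := rfl
          have hp : nR ^ 2 ≤ nR ^ j := pow_le_pow_right₀ (by rw [hn]; norm_num) hj
          have h3 := (abs_le.1 hj2).1
          have h4 : (1000 : ℝ) ≤ nR ^ 2 := by rw [hn]; norm_num
          have h5 : (100 : ℝ) ≤ ((l + 1 : ℕ) : ℝ) := by linarith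
          have h6' : 100 ≤ l + 1 := by exact_mod_cast h5
          omega
        have hlodd : ¬ Odd l := by
          intro h
          rcases h with ⟨r, hr⟩
          rcases hk with ⟨r', hr'⟩
          omega
        have hx0 : xk t (l + 1) (gc t) = 0 := by
          unfold xk
          rw [if_neg (fun h => h.2 hNR), if_neg]
          intro h
          rcases h.1 with ⟨r, hr⟩
          rcases hk with ⟨r', hr'⟩
          omega
        have hxl : xk t l (gc t) = - SS 0 (l + 1) (RR0 (gc t) l) / ((t : ℂ) * Cc l) := by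
          unfold xk
          rw [if_neg (fun h => hlodd h.1), if_pos hNR]
        rw [gc_ge t (l + 1) 0 h2, hx0]
        have hRR : ∀ j, RR (gc t) (l + 1) j = RR0 (gc t) l j +
            (t : ℂ) * xk t l (gc t) * Cterm l j := by
          intro j
          unfold RR RR0
          have ha0 : row0 (gc t) l (j + 1) 0 = 0 := by
            unfold row0
            rw [if_pos (by omega), gc_zero]
          have h := hF2 j l (row0 (gc t) l (j + 1)) (row (gc t) (l + 1) (j + 1)) hl2 ha0 ?_
          · rw [h]
            have e1 : row0 (gc t) l (j + 1) 1 = gc t 1 (j + 1) := by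
              unfold row0
              rw [if_pos (by omega)]
            have e2 : row (gc t) (l + 1) (j + 1) l - row0 (gc t) l (j + 1) l =
                xk t l (gc t) / (nR : ℂ) ^ (j + 1) * Psi ((l : ℝ) / nR ^ (j + 1)) := by
              unfold row row0
              rw [if_pos (by omega), if_neg (by omega), if_pos rfl, gc_ge t l (j + 1) hl2]
              ring
            rw [e1, e2, gc_one]
            unfold Cterm
            have e3 : (nR : ℂ) ^ (2 * (j + 1)) = (nR : ℂ) ^ (j + 1) * (nR : ℂ) ^ (j + 1) := by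
              rw [two_mul, pow_add]
            rw [e3]
            have hp : (nR : ℂ) ^ (j + 1) ≠ 0 := pow_ne_zero _ hnC
            field_simp
          · intro i hi
            unfold row row0
            rw [if_pos (by omega), if_pos hi]
        have hSS : SS 0 (l + 1) (RR (gc t) (l + 1)) = SS 0 (l + 1) (RR0 (gc t) l) +
            (t : ℂ) * xk t l (gc t) * Cc l := by
          have e1 : SS 0 (l + 1) (RR (gc t) (l + 1)) =
              ∑' r, (prodp 0 (0 + r) (l + 1) * RR0 (gc t) l (0 + r) +
                (t : ℂ) * xk t l (gc t) * (prodp 0 (0 + r) (l + 1) * Cterm l (0 + r))) := by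
            unfold SS
            refine tsum_congr ?_
            intro r
            rw [hRR]
            ring
          have s1 : Summable (fun r => prodp 0 (0 + r) (l + 1) * RR0 (gc t) l (0 + r)) :=
            (hsum0 l (by omega) 0).of_norm
          have s2 : Summable (fun r => prodp 0 (0 + r) (l + 1) * Cterm l (0 + r)) := by
            have := (hD8 l (by omega)).of_norm
            simpa using this
          rw [e1, (s1.tsum_add (s2.mul_left _)), tsum_mul_left]
          rfl
        have hCc : Cc l ≠ 0 := by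
          intro h0
          have h5 := h7 l hNR
          rw [h0, norm_zero, mul_zero] at h5
          linarith
        rw [hSS, hxl]
        field_simp
        ring
      · have h6' := h6 k hk1 (away h2 hk hNR)
        have hPsi : Psi (k : ℝ) ≠ 0 := by
          intro h0
          rw [h0, norm_zero, mul_zero] at h6'
          linarith
        have hx : xk t k (gc t) = - SS 0 k (RR (gc t) k) / Psi (k : ℝ) := by
          unfold xk
          rw [if_pos ⟨hk, hNR⟩]
        rw [gc_ge t k 0 h2, hx, pow_zero, pow_zero, div_one, div_one]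
        field_simp
        ring
  · -- limit of the first coefficient
    have h1 : ∀ m : ℕ, (nR : ℂ) ^ m * gc t 1 m = (t : ℂ) * Psi (1 / nR ^ m) := by
      intro m
      rw [gc_one]
      have hp : (nR : ℂ) ^ m ≠ 0 := pow_ne_zero _ hnC
      field_simp
    have hlim0 : Tendsto (fun m : ℕ => 1 / nR ^ m) atTop (𝓝 0) := by
      have : Tendsto (fun m : ℕ => (1 / nR) ^ m) atTop (𝓝 0) := by
        refine tendsto_pow_atTop_nhds_zero_of_lt_one (by have := nR_pos; positivity) ?_
        rw [show nR = 1000000 from rfl]; norm_num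
      simpa [one_div, inv_pow] using this
    have hlim : Tendsto (fun m : ℕ => Psi (1 / nR ^ m)) atTop (𝓝 1) := by
      rw [tendsto_iff_norm_sub_tendsto_zero]
      have hev : ∀ᶠ m : ℕ in atTop, 1 / nR ^ m ≤ 1 / 100 :=
        hlim0.eventually (ge_mem_nhds (by norm_num))
      have hub : Tendsto (fun m : ℕ => 40 * (1 / nR ^ m)) atTop (𝓝 0) := by
        simpa using hlim0.const_mul 40
      refine squeeze_zero' (Eventually.of_forall fun m => norm_nonneg _) ?_ hub
      filter_upwards [hev] with m hm
      have hp : 0 < nR ^ m := pow_pos nR_pos m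
      exact hD3 _ (by positivity) hm
    show Tendsto (fun m : ℕ => (nR : ℂ) ^ m * gc t 1 m) atTop (𝓝 (t : ℂ))
    simp_rw [h1]
    simpa using hlim.const_mul (t : ℂ)

end

end Pool.Agent.H13.TQ
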