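import Pool.Agent.H13.TQ.KInj

namespace Pool.Agent.H13.TQ

open MeasureTheory Filter Topology Finset

/-- The recursion determines the measure. -/
theorem IsTreeConv_unique {N : ℕ} {μ : ProbabilityMeasure ℝ} {T : Set (List (Fin N))}
    {ν : ProbabilityMeasure ℝ} (h : IsTreeConv μ T ν) :
    ∀ ν', IsTreeConv μ T ν' → ν' = ν := by
  classical
  induction h with
  | mk T ν β _ hν ih =>
    intro ν' h'
    cases h' with
    | mk _ _ β' hβ' hν' =>
      refine K_inj _ _ ?_
      intro z hz
      rw [hν z hz, hν' z hz]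
      refine Finset.sum_congr rfl ?_
      intro j hj
      rw [Finset.mem_filter] at hj
      rw [ih j hj.2 (β' j) (hβ' j hj.2)]

end Pool.Agent.H13.TQ
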