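import Pool.Agent.H13.TQ.PA1
import Pool.Agent.H13.TQ.PA2
import Pool.Agent.H13.TQ.PB2
import Pool.Agent.H13.TQ.PB3
import Pool.Agent.H13.TQ.PC1
import Pool.Agent.H13.TQ.PC2
import Pool.Agent.H13.TQ.PC3
import Pool.Agent.H13.TQ.PC4
import Pool.Agent.H13.TQ.PC5
import Pool.Agent.H13.TQ.PD4
import Pool.Agent.H13.TQ.PD6
import Pool.Agent.H13.TQ.PE1
import Pool.Agent.H13.TQ.PE2
import Pool.Agent.H13.TQ.PE3
import Pool.Agent.H13.TQ.PE4
import Pool.Agent.H13.TQ.PE5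
import Pool.Agent.H13.TQ.PF1
import Pool.Agent.H13.TQ.PF3
import Pool.Agent.H13.TQ.PF5
import Pool.Agent.H13.TQ.PF6
import Pool.Agent.H13.TQ.Uniq
import Pool.Agent.H97.TQ.B1
import Pool.Agent.H97.TQ.D

namespace Pool.Agent.H13.TQ

open MeasureTheory Filter Topology Finset

open Pool.Agent.H97.TQ in
/-- The array of coefficients exists. -/
theorem arr (hD7 : SD7) : SArr := by
  have d0 : SD0 := D0
  have d1 : SD1 := D1
  have d2 : SD2 := D2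
  have d3 : SD3 := D3
  have d4 : SD4 := D4 d0
  have d5 : SD5 := D5 d1 d4
  have d6 : SD6 := D6 d0 d2 d3
  have d8 : SD8 := D8 d0 d4 d5
  have e1 : SE1 := E1
  have e2 : SE2 := E2 d0
  have e3 : SE3 := E3 e1 e2
  have e5 : SE5 := E5 E4
  have f3 : SF3 := F3 d4
  exact F6 d0 d2 d3 d6 hD7 d8 e3 F1 F2 f3 F4 (F5 d5 d6 hD7 e3 e5 f3)

open Pool.Agent.H97.TQ in
/-- The chain of functions exists. -/
theorem chain (hD7 : SD7) : SChain := by
  have d0 : SD0 := D0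
  obtain ⟨t, g, ht, ht1, hg0, hgb, hrec, hodd, hlim⟩ := arr hD7
  obtain ⟨c1, c2, c3, c4, c5⟩ := C3 d0 t g ht ht1 hg0 hgb
  have c6 := C5 (C2 C1) d0 t g ht ht1 hg0 hgb hrec
  have c7 := C4 t g ht ht1 hg0 hgb hlim
  refine ⟨gfun g, 1000 * nR, 1, Complex.I, ((2 * t * Real.exp (-1) : ℝ) : ℂ), one_pos, by simp, ?_,
    c1, c2, c3, c6, c4, c5 hodd, c7⟩
  have : (2 * t * Real.exp (-1) : ℝ) ≠ 0 := by positivity
  exact_mod_cast this

end Pool.Agent.H13.TQ
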