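import Mathlib

/-!
# Crew TQ, problem MP_50dbd7_an: definitions

The final statement (disproof of Q1) and the constants and operators of the proof.
-/

namespace Pool.Agent.H13.TQ

open MeasureTheory Filter Topology Finset

noncomputable section

/-! ## The objects of the problem -/

/-- Cauchy transform. -/
def G (μ : ProbabilityMeasure ℝ) (z : ℂ) : ℂ := ∫ t : ℝ, (z - (t : ℂ))⁻¹ ∂(μ : Measure ℝ)

/-- `F = 1 / G`. -/
def F (μ : ProbabilityMeasure ℝ) (z : ℂ) : ℂ := (G μ z)⁻¹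

/-- `K(z) = z - F(z)`. -/
def K (μ : ProbabilityMeasure ℝ) (z : ℂ) : ℂ := z - F μ z

/-- `T` is a subtree, containing the root, of the tree of alternating strings over `Fin N`
(a string is a list; adding a letter on the left is `List.cons`). -/
def IsTree {N : ℕ} (T : Set (List (Fin N))) : Prop :=
  [] ∈ T ∧ (∀ s ∈ T, s.IsChain (fun a b => a ≠ b)) ∧ ∀ (j : Fin N) (s : List (Fin N)), j :: s ∈ T → s ∈ T

/-- Number of neighbours of the root. -/
def numNbr {N : ℕ} (T : Set (List (Fin N))) : ℕ := {j : Fin N | [j] ∈ T}.ncard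

/-- The branch `br_j(T) = {s : s j ∈ T}`. -/
def br {N : ℕ} (j : Fin N) (T : Set (List (Fin N))) : Set (List (Fin N)) := {s | s ++ [j] ∈ T}

open Classical in
/-- `IsTreeConv μ T ν`: `ν` is the tree convolution of `T` at `μ`, for trees `T` of finite depth,
defined by the recursion on the depth. -/
inductive IsTreeConv {N : ℕ} (μ : ProbabilityMeasure ℝ) :
    Set (List (Fin N)) → ProbabilityMeasure ℝ → Prop
  | mk (T : Set (List (Fin N))) (ν : ProbabilityMeasure ℝ) (β : Fin N → ProbabilityMeasure ℝ)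
      (hβ : ∀ j, [j] ∈ T → IsTreeConv μ (br j T) (β j))
      (hν : ∀ z : ℂ, 0 < z.im →
        K ν z = ∑ j ∈ Finset.univ.filter (fun j : Fin N => [j] ∈ T), K μ (z - K (β j) z)) :
      IsTreeConv μ T ν

/-- The tree used: the root has `n` children, the child `0` is a leaf, every other child `j` has
the single child `0 j`. -/
def Tn (n : ℕ) [NeZero n] : Set (List (Fin n)) :=
  {s | s = [] ∨ (∃ j, s = [j]) ∨ ∃ j, j ≠ 0 ∧ s = [0, j]}

/-! ## Constants -/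

/-- The number of children of the root. -/
def nn : ℕ := 1000000

instance : NeZero nn := ⟨by unfold nn; norm_num⟩

/-- `n` as a real number. -/
def nR : ℝ := 1000000

/-- `M = n - 1`. -/
def M : ℝ := 999999

/-- `L = log M`. -/
def L : ℝ := Real.log M

/-- `Λ = L - iπ`, so that `M exp(-Λ) = -1`. -/
def Lam : ℂ := (L : ℂ) - Complex.I * (Real.pi : ℂ)

/-- `q m = exp(-Λ / n^m)`. -/
def q (m : ℕ) : ℂ := Complex.exp (-Lam / (nR : ℂ) ^ m)

/-- `pp i k = 1 + M (q i)^k`. -/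
def pp (i k : ℕ) : ℂ := 1 + (M : ℂ) * q i ^ k

/-- `prodp m j k = ∏_{m ≤ i < j} pp i k`. -/
def prodp (m j k : ℕ) : ℂ := ∏ i ∈ Ico m j, pp i k

/-- One factor of the infinite product `Psi`. -/
def fac (y : ℝ) (i : ℕ) : ℂ :=
  (1 + (M : ℂ) * Complex.exp (-Lam * (y : ℂ) / (nR : ℂ) ^ i)) / (nR : ℂ)

/-- `Psi y = ∏_{i ≥ 0} (1 + M exp(-Λ y / n^i)) / n`. -/
def Psi (y : ℝ) : ℂ := limUnder atTop (fun J : ℕ => ∏ i ∈ range J, fac y i)

/-- The weight `max (n^m) k`. -/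
def W (m k : ℕ) : ℝ := max (nR ^ m) (k : ℝ)

/-! ## Power series operators -/

/-- Coefficient of `Q^r` in `exp(c A(Q))`, `A(Q) = ∑ a_i Q^i` (used when `a 0 = 0`). -/
def ec (a : ℕ → ℂ) (c : ℂ) (r : ℕ) : ℂ :=
  ∑ s ∈ range (r + 1), c ^ s / (s.factorial : ℂ) * PowerSeries.coeff r ((PowerSeries.mk a) ^ s)

/-- The nonlinear part of the coefficient recursion. -/
def Pk (m k : ℕ) (a : ℕ → ℂ) : ℂ :=
  (M : ℂ) * ∑ l ∈ Ico 1 k, a l * q m ^ l * ec a (Complex.I * (l : ℂ)) (k - l)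

/-- Coefficient of `Q^k` in `∑_{s ≥ 2} A(Q)^s` (used when `A 0 = 0`). -/
def NN (A : ℕ → ℝ) (k : ℕ) : ℝ := ∑ s ∈ Icc 2 k, PowerSeries.coeff k ((PowerSeries.mk A) ^ s)

/-- `SS m k R = ∑_{r ≥ 0} prodp m (m+r) k * R (m+r)`. -/
def SS (m k : ℕ) (R : ℕ → ℂ) : ℂ := ∑' r : ℕ, prodp m (m + r) k * R (m + r)

/-- `k` is odd and close to `n^j` for some `j ≥ 2`. -/
def NR (k : ℕ) : Prop := Odd k ∧ ∃ j : ℕ, 2 ≤ j ∧ |(k : ℝ) - nR ^ j| ≤ nR ^ j / 2000

/-- Summand of the control coefficient. -/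
def Cterm (l j : ℕ) : ℂ :=
  Complex.I * (M : ℂ) / (nR : ℂ) ^ (2 * (j + 1)) * Psi (1 / nR ^ (j + 1)) *
    Psi ((l : ℝ) / nR ^ (j + 1)) * ((l : ℂ) * q j ^ l + q j)

/-- The control coefficient. -/
def Cc (l : ℕ) : ℂ := SS 0 (l + 1) (Cterm l)

/-! ## The array of coefficients `g_{m,k} = gc t k m` -/

/-- Row `m` cut off below `k`. -/
def row (H : ℕ → ℕ → ℂ) (k m : ℕ) : ℕ → ℂ := fun i => if i < k then H i m else 0

/-- Nonlinear terms at level `k`. -/
def RR (H : ℕ → ℕ → ℂ) (k j : ℕ) : ℂ := Pk j k (row H k (j + 1))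

/-- Row `m` cut off above `k`, the entry `k` being the one with `x_k = 0`. -/
def row0 (H : ℕ → ℕ → ℂ) (k m : ℕ) : ℕ → ℂ :=
  fun i => if i < k then H i m else if i = k then SS m k (RR H k) else 0

/-- Nonlinear terms at level `k + 1` with `x_k = 0`. -/
def RR0 (H : ℕ → ℕ → ℂ) (k j : ℕ) : ℂ := Pk j (k + 1) (row0 H k (j + 1))

open Classical in
/-- The choice of the free parameter `x_k`. -/
def xk (t : ℝ) (k : ℕ) (H : ℕ → ℕ → ℂ) : ℂ :=
  if Odd k ∧ ¬ NR k then - SS 0 k (RR H k) / Psi (k : ℝ)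
  else if NR (k + 1) then - SS 0 (k + 1) (RR0 H k) / ((t : ℂ) * Cc k)
  else 0

/-- The recursion step. -/
def stepF (t : ℝ) (k : ℕ) (H : ℕ → ℕ → ℂ) : ℕ → ℂ := fun m =>
  if k = 0 then 0
  else if k = 1 then (t : ℂ) / (nR : ℂ) ^ m * Psi (1 / nR ^ m)
  else xk t k H / (nR : ℂ) ^ m * Psi ((k : ℝ) / nR ^ m) + SS m k (RR H k)

/-- The array of coefficients: `gc t k m = g_{m,k}`. -/
def gc (t : ℝ) (k : ℕ) : ℕ → ℂ :=
  stepF t k (fun i => if _h : i < k then gc t i else 0)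
termination_by k

end

end Pool.Agent.H13.TQ
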