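import Pool.Agent.H13.TQ.Stm

set_option autoImplicit false

namespace Pool.Agent.H13.TQ

open MeasureTheory Filter Topology Finset

noncomputable section

theorem A3 (hA2 : SA2) : SA3 := by
  intro h B c hc hd hB hIm
  have hB0 : 0 ≤ B := (norm_nonneg _).trans (hB 0 (by simp))
  have him : ∀ z : ℂ, 0 ≤ z.im → c ≤ (z + h z).im := by
    intro z hz
    rw [Complex.add_im]
    linarith [hIm z hz]
  have hne : ∀ z : ℂ, 0 ≤ z.im → z + h z ≠ 0 := by
    intro z hz h0
    have := him z hz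
    rw [h0] at this
    simp at this
    linarith
  have hcn : ∀ z : ℂ, 0 ≤ z.im → c ≤ ‖z + h z‖ := by
    intro z hz
    exact (him z hz).trans ((le_abs_self _).trans (Complex.abs_im_le_norm _))
  set C : ℝ := 1 + (1 + B) / c with hC
  have hC1 : 1 ≤ C := by
    have : 0 ≤ (1 + B) / c := by positivity
    linarith
  have hlow : ∀ z : ℂ, 0 ≤ z.im → 1 + ‖z‖ ≤ C * ‖z + h z‖ := by
    intro z hz
    have h1 : ‖z‖ ≤ ‖z + h z‖ + ‖h z‖ := by
      calc ‖z‖ = ‖(z + h z) - h z‖ := by congr 1; ring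
        _ ≤ _ := norm_sub_le _ _
    have h2 := hB z hz
    have h3 : 1 + B ≤ (1 + B) / c * ‖z + h z‖ := by
      calc 1 + B = (1 + B) / c * c := by field_simp
        _ ≤ _ := mul_le_mul_of_nonneg_left (hcn z hz) (by positivity)
    rw [hC, add_mul, one_mul]
    linarith
  set g : ℂ → ℂ := fun z => (z + h z)⁻¹ with hg
  have hhc : ContinuousOn h {z | 0 ≤ z.im} := hd.continuousOn.mono (by
    intro z hz
    simp only [Set.mem_ofPred_eq] at hz ⊢
    linarith)
  have hgc : ContinuousOn g {z | 0 ≤ z.im} := by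
    apply ContinuousOn.inv₀
    · exact continuousOn_id.add hhc
    · intro z hz
      exact hne z hz
  have hgd : DifferentiableOn ℂ g {z | 0 < z.im} := by
    apply DifferentiableOn.inv
    · apply differentiableOn_id.add
      exact hd.mono (by
        intro z hz
        simp only [Set.mem_ofPred_eq] at hz ⊢
        linarith)
    · intro z hz
      exact hne z (le_of_lt hz)
  have hgn : ∀ z : ℂ, 0 ≤ z.im → ‖g z‖ ≤ C / (1 + ‖z‖) := by
    intro z hz
    have h1 := hlow z hz
    have h2 : 0 < ‖z + h z‖ := norm_pos_iff.2 (hne z hz)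
    have h3 : 0 < 1 + ‖z‖ := by positivity
    simp only [hg]
    rw [norm_inv, inv_eq_one_div, div_le_div_iff₀ h2 h3]
    linarith
  have hst := hA2 g C hgc hgd hgn
  -- the density
  set ρ : ℝ → ℝ := fun t => -(g (t : ℂ)).im / Real.pi with hρ
  have hρ' : ∀ t : ℝ, ρ t = (h (t : ℂ)).im / (Real.pi * ‖(t : ℂ) + h t‖ ^ 2) := by
    intro t
    simp only [hρ, hg]
    rw [Complex.inv_im, Complex.normSq_eq_norm_sq, Complex.add_im, Complex.ofReal_im, zero_add]
    have h2 : 0 < ‖(t : ℂ) + h t‖ := norm_pos_iff.2 (hne t (by simp))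
    field_simp
  have hρ0 : ∀ t, 0 ≤ ρ t := by
    intro t
    rw [hρ' t]
    have h1 := hIm t (by simp)
    have h2 : 0 < (h (t : ℂ)).im := by linarith
    positivity
  have hρc : Continuous ρ := by
    have h1 : Continuous (fun t : ℝ => g (t : ℂ)) := by
      have h2 : ContinuousOn g {z | 0 ≤ z.im} := hgc
      exact h2.comp_continuous Complex.continuous_ofReal (fun t => by simp)
    simp only [hρ]
    exact (Complex.continuous_im.comp h1).neg.div_const _
  have hρb : ∀ t, ρ t ≤ B * C ^ 2 * (1 + t ^ 2)⁻¹ := by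
    intro t
    rw [hρ' t]
    have h1 := hlow t (by simp)
    have h2 : 0 < ‖(t : ℂ) + h t‖ := norm_pos_iff.2 (hne t (by simp))
    have h3 : (h (t : ℂ)).im ≤ B := (le_abs_self _).trans ((Complex.abs_im_le_norm _).trans (hB t (by simp)))
    have h4 : ‖(t : ℂ)‖ = |t| := Complex.norm_real t
    rw [h4] at h1
    have h5 : 1 + t ^ 2 ≤ C ^ 2 * ‖(t : ℂ) + h t‖ ^ 2 := by
      have h6 : (1 + |t|) ^ 2 ≤ (C * ‖(t : ℂ) + h t‖) ^ 2 := by
        apply pow_le_pow_left₀ (by positivity) h1
      rw [mul_pow] at h6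
      have h7 : (1 + |t|) ^ 2 = 1 + 2 * |t| + t ^ 2 := by rw [← sq_abs t]; ring
      rw [h7] at h6
      have := abs_nonneg t
      linarith
    have hpi := Real.pi_gt_three
    rw [div_le_iff₀ (by positivity)]
    have h8 : 0 < 1 + t ^ 2 := by positivity
    have h9 : B * C ^ 2 * (1 + t ^ 2)⁻¹ * (Real.pi * ‖(t : ℂ) + h t‖ ^ 2) =
        B * Real.pi * ((C ^ 2 * ‖(t : ℂ) + h t‖ ^ 2) / (1 + t ^ 2)) := by
      field_simp
    rw [h9]
    have h10 : 1 ≤ (C ^ 2 * ‖(t : ℂ) + h t‖ ^ 2) / (1 + t ^ 2) := by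
      rw [le_div_iff₀ h8]; linarith
    calc (h (t : ℂ)).im ≤ B := h3
      _ ≤ B * Real.pi * 1 := by nlinarith
      _ ≤ _ := mul_le_mul_of_nonneg_left h10 (by positivity)
  have hρi : Integrable ρ := by
    have h1 : Integrable (fun t : ℝ => B * C ^ 2 * (1 + t ^ 2)⁻¹) :=
      integrable_inv_one_add_sq.const_mul _
    refine h1.mono' hρc.aestronglyMeasurable ?_
    filter_upwards with t
    rw [Real.norm_of_nonneg (hρ0 t)]
    exact hρb t
  -- total mass
  have hmass : ∫ t, ρ t = 1 := by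
    have hT1 : Tendsto (fun n : ℕ => ∫ t : ℝ, ((ρ t : ℝ) : ℂ) * ((((n : ℝ) + 1 : ℝ) : ℂ) * Complex.I *
        ((((n : ℝ) + 1 : ℝ) : ℂ) * Complex.I - (t : ℂ))⁻¹)) atTop (𝓝 (∫ t : ℝ, ((ρ t : ℝ) : ℂ))) := by
      apply tendsto_integral_of_dominated_convergence (fun t => ρ t)
      · intro n
        apply Continuous.aestronglyMeasurable
        apply (Complex.continuous_ofReal.comp hρc).mul
        apply continuous_const.mul
        apply Continuous.inv₀
        · fun_prop
        · intro t h0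
          have := congrArg Complex.im h0
          simp at this
          have h2 : (0 : ℝ) ≤ n := by positivity
          linarith
      · exact hρi
      · intro n
        filter_upwards with t
        have hn : (0 : ℝ) < (n : ℝ) + 1 := by positivity
        rw [norm_mul, Complex.norm_real, Real.norm_of_nonneg (hρ0 t)]
        have h1 : ‖(((n : ℝ) + 1 : ℝ) : ℂ) * Complex.I *
            ((((n : ℝ) + 1 : ℝ) : ℂ) * Complex.I - (t : ℂ))⁻¹‖ ≤ 1 := by
          rw [norm_mul, norm_mul, Complex.norm_I, mul_one, norm_inv, Complex.norm_real,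
            Real.norm_of_nonneg hn.le]
          have h2 : (n : ℝ) + 1 ≤ ‖(((n : ℝ) + 1 : ℝ) : ℂ) * Complex.I - (t : ℂ)‖ := by
            calc (n : ℝ) + 1 ≤ |((((n : ℝ) + 1 : ℝ) : ℂ) * Complex.I - (t : ℂ)).im| := by
                  simp
                  exact le_abs_self _
              _ ≤ _ := Complex.abs_im_le_norm _
          rw [← div_eq_mul_inv, div_le_one (by linarith)]
          exact h2
        calc ρ t * _ ≤ ρ t * 1 := mul_le_mul_of_nonneg_left h1 (hρ0 t)
          _ = ρ t := mul_one _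
      · filter_upwards with t
        have h1 : Tendsto (fun n : ℕ => (((n : ℝ) + 1 : ℝ) : ℂ) * Complex.I *
            ((((n : ℝ) + 1 : ℝ) : ℂ) * Complex.I - (t : ℂ))⁻¹) atTop (𝓝 1) := by
          have h2 : ∀ n : ℕ, (((n : ℝ) + 1 : ℝ) : ℂ) * Complex.I *
              ((((n : ℝ) + 1 : ℝ) : ℂ) * Complex.I - (t : ℂ))⁻¹ =
              (1 - ((t * (1 / ((n : ℝ) + 1)) : ℝ) : ℂ) * (Complex.I)⁻¹)⁻¹ := by
            intro n
            have hn : ((n : ℂ) + 1) ≠ 0 := by
              have : ((n : ℝ) + 1) ≠ 0 := by positivity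
              exact_mod_cast this
            have hn2 : (((n : ℝ) + 1 : ℝ) : ℂ) * Complex.I - (t : ℂ) ≠ 0 := by
              intro h0
              have := congrArg Complex.im h0
              simp at this
              have h2 : (0 : ℝ) ≤ n := by positivity
              linarith
            have h3 : (1 - ((t * (1 / ((n : ℝ) + 1)) : ℝ) : ℂ) * (Complex.I)⁻¹) =
                ((((n : ℝ) + 1 : ℝ) : ℂ) * Complex.I)⁻¹ * ((((n : ℝ) + 1 : ℝ) : ℂ) * Complex.I - (t : ℂ)) := by
              have := Complex.I_ne_zero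
              push_cast
              field_simp
            rw [h3, mul_inv, inv_inv]
          have h3 : Tendsto (fun n : ℕ => (((t * (1 / ((n : ℝ) + 1)) : ℝ) : ℂ))) atTop (𝓝 ((0 : ℝ) : ℂ)) := by
            apply (Complex.continuous_ofReal.tendsto _).comp
            have := (tendsto_one_div_add_atTop_nhds_zero_nat (𝕜 := ℝ)).const_mul t
            rwa [mul_zero] at this
          have h4 : Tendsto (fun n : ℕ => (1 - ((t * (1 / ((n : ℝ) + 1)) : ℝ) : ℂ) * (Complex.I)⁻¹)⁻¹)
              atTop (𝓝 (1 - ((0 : ℝ) : ℂ) * (Complex.I)⁻¹)⁻¹) := by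
            apply Tendsto.inv₀
            · exact tendsto_const_nhds.sub (h3.mul_const _)
            · simp
          rw [funext h2]
          simpa using h4
        have := h1.const_mul ((ρ t : ℝ) : ℂ)
        rwa [mul_one] at this
    have hT2 : Tendsto (fun n : ℕ => ∫ t : ℝ, ((ρ t : ℝ) : ℂ) * ((((n : ℝ) + 1 : ℝ) : ℂ) * Complex.I *
        ((((n : ℝ) + 1 : ℝ) : ℂ) * Complex.I - (t : ℂ))⁻¹)) atTop (𝓝 1) := by
      have h1 : ∀ n : ℕ, ∫ t : ℝ, ((ρ t : ℝ) : ℂ) * ((((n : ℝ) + 1 : ℝ) : ℂ) * Complex.I *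
        ((((n : ℝ) + 1 : ℝ) : ℂ) * Complex.I - (t : ℂ))⁻¹) = (1 + ((1 / ((n : ℝ) + 1) : ℝ) : ℂ) *
          (Complex.I⁻¹ * h ((((n : ℝ) + 1 : ℝ) : ℂ) * Complex.I)))⁻¹ := by
        intro n
        have hn : (0 : ℝ) < (n : ℝ) + 1 := by positivity
        have h2 := hst ((((n : ℝ) + 1 : ℝ) : ℂ) * Complex.I) (by simpa using hn)
        have h3 : ∫ t : ℝ, ((ρ t : ℝ) : ℂ) * ((((n : ℝ) + 1 : ℝ) : ℂ) * Complex.I *
            ((((n : ℝ) + 1 : ℝ) : ℂ) * Complex.I - (t : ℂ))⁻¹) =
            (((n : ℝ) + 1 : ℝ) : ℂ) * Complex.I * ∫ t : ℝ, ((ρ t : ℝ) : ℂ) *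
            ((((n : ℝ) + 1 : ℝ) : ℂ) * Complex.I - (t : ℂ))⁻¹ := by
          rw [← integral_const_mul]
          congr 1
          ext t
          ring
        rw [h3, h2]
        simp only [hg]
        have hn2 : (((n : ℝ) + 1 : ℝ) : ℂ) * Complex.I ≠ 0 := by
          apply mul_ne_zero _ Complex.I_ne_zero
          exact_mod_cast hn.ne'
        have h4 : (1 + ((1 / ((n : ℝ) + 1) : ℝ) : ℂ) *
          (Complex.I⁻¹ * h ((((n : ℝ) + 1 : ℝ) : ℂ) * Complex.I))) =
          ((((n : ℝ) + 1 : ℝ) : ℂ) * Complex.I)⁻¹ * ((((n : ℝ) + 1 : ℝ) : ℂ) * Complex.I +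
            h ((((n : ℝ) + 1 : ℝ) : ℂ) * Complex.I)) := by
          rw [mul_add, inv_mul_cancel₀ hn2, mul_inv]
          push_cast
          rw [one_div]
          ring
        rw [h4, mul_inv, inv_inv]
      rw [funext h1]
      have h5 : Tendsto (fun n : ℕ => ((1 / ((n : ℝ) + 1) : ℝ) : ℂ) *
          (Complex.I⁻¹ * h ((((n : ℝ) + 1 : ℝ) : ℂ) * Complex.I))) atTop (𝓝 0) := by
        apply squeeze_zero_norm (a := fun n : ℕ => 1 / ((n : ℝ) + 1) * B)
        · intro n
          have hn : (0 : ℝ) < (n : ℝ) + 1 := by positivity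
          rw [norm_mul, norm_mul, norm_inv, Complex.norm_I, inv_one, one_mul, Complex.norm_real,
            Real.norm_of_nonneg (by positivity)]
          apply mul_le_mul_of_nonneg_left _ (by positivity)
          apply hB
          simpa using hn.le
        · have := (tendsto_one_div_add_atTop_nhds_zero_nat (𝕜 := ℝ)).mul_const B
          rwa [zero_mul] at this
      have h6 : Tendsto (fun n : ℕ => (1 + ((1 / ((n : ℝ) + 1) : ℝ) : ℂ) *
          (Complex.I⁻¹ * h ((((n : ℝ) + 1 : ℝ) : ℂ) * Complex.I)))⁻¹) atTop (𝓝 (1 + 0)⁻¹) := by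
        apply Tendsto.inv₀
        · exact tendsto_const_nhds.add h5
        · simp
      simpa using h6
    have h1 : (∫ t : ℝ, ((ρ t : ℝ) : ℂ)) = 1 := tendsto_nhds_unique hT1 hT2
    rw [integral_complex_ofReal] at h1
    exact_mod_cast h1
  -- the measure
  set m : Measure ℝ := volume.withDensity (fun t => ENNReal.ofReal (ρ t)) with hm
  have hprob : IsProbabilityMeasure m := by
    constructor
    rw [hm, withDensity_apply _ MeasurableSet.univ, Measure.restrict_univ,
      ← ofReal_integral_eq_lintegral_ofReal hρi (by filter_upwards with t; exact hρ0 t), hmass]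
    simp
  refine ⟨⟨m, hprob⟩, ?_⟩
  intro z hz
  have hG : G ⟨m, hprob⟩ z = g z := by
    have h1 : G ⟨m, hprob⟩ z = ∫ t : ℝ, (z - (t : ℂ))⁻¹ ∂m := rfl
    rw [h1, hm, integral_withDensity_eq_integral_toReal_smul]
    · rw [← hst z hz]
      congr 1
      ext t
      rw [ENNReal.toReal_ofReal (hρ0 t)]
      simp only [hρ]
      rw [Complex.real_smul]
    · exact (hρc.measurable).ennreal_ofReal
    · filter_upwards with t
      exact ENNReal.ofReal_lt_top
  unfold K F
  rw [hG]
  simp only [hg]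
  rw [inv_inv]
  ring

end

end Pool.Agent.H13.TQ
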