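import Pool.Agent.H13.TQ.Stm

set_option autoImplicit false

namespace Pool.Agent.H13.TQ

open MeasureTheory Filter Topology Finset

noncomputable section

theorem B4 : SB4 := by
  intro hA3 hB1 hB2 hB3 ⟨g, B, c, z0, d, hc, hz0, hd, hdiff, hB, hIm, hrel, hper, hper0, m0, hm0⟩
  have hnn : (2 : ℕ) ≤ nn := by unfold nn; norm_num
  obtain ⟨hT1, hT2, hT3⟩ := hB1 nn hnn
  have hnR : (1 : ℝ) ≤ nR := by unfold nR; norm_num
  have hnR0 : (0 : ℝ) < nR := by linarith
  have hpow : ∀ m : ℕ, (1 : ℝ) ≤ nR ^ m := fun m => one_le_pow₀ hnR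
  have hpow0 : ∀ m : ℕ, (0 : ℝ) < nR ^ m := fun m => pow_pos hnR0 m
  have hcast : ((numNbr (Tn nn) : ℕ) : ℂ) = (nR : ℂ) := by
    rw [hT3]
    unfold nn nR
    norm_num
  have hM : ((nn : ℕ) : ℂ) - 1 = (M : ℂ) := by
    unfold nn M
    norm_num
  have hpi : ∀ z : ℂ, (z + (Real.pi : ℂ)).im = z.im := by
    intro z; simp
  have him : ∀ m (z : ℂ), ((nR : ℂ) ^ m * g m z).im = nR ^ m * (g m z).im := by
    intro m z
    rw [← Complex.ofReal_pow, Complex.im_ofReal_mul]
  have hnorm : ∀ m (z : ℂ), ‖(nR : ℂ) ^ m * g m z‖ = nR ^ m * ‖g m z‖ := by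
    intro m z
    rw [norm_mul, ← Complex.ofReal_pow, Complex.norm_real, Real.norm_of_nonneg (hpow0 m).le]
  have hB0 : 0 ≤ B := (norm_nonneg _).trans (hB 0 0 (by simp))
  have hgB : ∀ m (z : ℂ), -1 < z.im → ‖g m z‖ ≤ B := by
    intro m z hz
    have h1 := hB m z hz
    rw [hnorm] at h1
    have := hpow m
    nlinarith [norm_nonneg (g m z)]
  have hgc : ∀ m (z : ℂ), -1 < z.im → c / nR ^ m ≤ (g m z).im := by
    intro m z hz
    have h1 := hIm m z hz
    rw [him] at h1
    rw [div_le_iff₀ (hpow0 m)]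
    linarith
  have hgim : ∀ m (z : ℂ), 0 < z.im → 0 < (g m z).im := by
    intro m z hz
    have := hgc m z (by linarith)
    have h2 : 0 < c / nR ^ m := by have := hpow0 m; positivity
    linarith
  have hmaps : ∀ z : ℂ, -1 < z.im → -1 < (z + (Real.pi : ℂ)).im := by
    intro z hz
    rw [hpi]; exact hz
  have hshift : ∀ f : ℂ → ℂ, DifferentiableOn ℂ f {z | -1 < z.im} →
      DifferentiableOn ℂ (fun z => f (z + (Real.pi : ℂ))) {z | -1 < z.im} := by
    intro f hf
    apply hf.comp
    · fun_prop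
    · intro z hz
      exact hmaps z hz
  have hscale : ∀ (m : ℕ), DifferentiableOn ℂ (fun z => (nR : ℂ) ^ m * g m z) {z | -1 < z.im} := by
    intro m
    exact (hdiff m).const_mul _
  -- the measures
  have hα := fun m => hA3 (g m) B (c / nR ^ m) (by have := hpow0 m; positivity) (hdiff m)
    (fun z hz => hgB m z (by linarith)) (fun z hz => hgc m z (by linarith))
  have hα' := fun m => hA3 (fun z => g m (z + (Real.pi : ℂ))) B (c / nR ^ m)
    (by have := hpow0 m; positivity) (hshift _ (hdiff m))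
    (fun z hz => hgB m _ (by rw [hpi]; linarith)) (fun z hz => hgc m _ (by rw [hpi]; linarith))
  have hβ := fun m => hA3 (fun z => (nR : ℂ) ^ m * g m z) B c hc (hscale m)
    (fun z hz => hB m z (by linarith)) (fun z hz => hIm m z (by linarith))
  have hβ' := fun m => hA3 (fun z => (nR : ℂ) ^ m * g m (z + (Real.pi : ℂ))) B c hc
    (hshift _ (hscale m))
    (fun z hz => hB m _ (by rw [hpi]; linarith)) (fun z hz => hIm m _ (by rw [hpi]; linarith))
  choose α hα using hα
  choose α₁ hα₁ using hα'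
  choose β hβ using hβ
  choose β' hβ' using hβ'
  set α' : ℕ → ProbabilityMeasure ℝ := fun m => if m = 0 then α 0 else α₁ m with hα'def
  have hα' : ∀ m (z : ℂ), 0 < z.im → K (α' m) z = - g m (z + (Real.pi : ℂ)) := by
    intro m z hz
    by_cases hm : m = 0
    · subst hm
      simp only [hα'def, if_pos rfl]
      rw [hα 0 z hz, hper0 z hz]
    · simp only [hα'def, if_neg hm]
      exact hα₁ m z hz
  have hstep : ∀ m, IsTreeConv (α (m + 1)) (Tn nn) (α m) := by
    intro m
    apply hB2 nn hnn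
    intro z hz
    rw [hα m z hz, hα (m + 1) z hz, hα (m + 1) (z - -g (m + 1) z)
      (by have := hgim (m + 1) z hz; simp; linarith), hM, sub_neg_eq_add, hrel m z hz]
    ring
  have hstep' : ∀ m, IsTreeConv (α' (m + 1)) (Tn nn) (α' m) := by
    intro m
    apply hB2 nn hnn
    intro z hz
    have hz' : 0 < (z + (Real.pi : ℂ)).im := by rw [hpi]; exact hz
    rw [hα' m z hz, hα' (m + 1) z hz, hα' (m + 1) (z - -g (m + 1) (z + (Real.pi : ℂ)))
      (by have := hgim (m + 1) _ hz'; simp at this ⊢; linarith), hM, sub_neg_eq_add,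
      hrel m _ hz']
    have h1 : z + g (m + 1) (z + (Real.pi : ℂ)) + (Real.pi : ℂ) =
        z + (Real.pi : ℂ) + g (m + 1) (z + (Real.pi : ℂ)) := by ring
    rw [h1]
    ring
  refine ⟨nn, Tn nn, hT1, hT2, by rw [hT3]; omega, fun l => l,
    fun l => if Even l then α l else α' l, fun l i => if Even l then α (l - i) else α' (l - i),
    fun l => if Even l then β l else β' l, tendsto_id, ?_, ?_, ?_, ?_, ?_⟩
  · intro l
    rfl
  · intro l i hi'
    have hi : i < l := hi'
    obtain ⟨m, hm⟩ : ∃ m, l - i = m + 1 := ⟨l - i - 1, by omega⟩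
    have hm' : l - (i + 1) = m := by omega
    by_cases hl : Even l
    · simp only [if_pos hl]
      rw [hm, hm']
      exact hstep m
    · simp only [if_neg hl]
      rw [hm, hm']
      exact hstep' m
  · intro l z hz
    rw [hcast]
    by_cases hl : Even l
    · simp only [if_pos hl]
      rw [hβ l z hz, hα l z hz]
      ring
    · simp only [if_neg hl]
      rw [hβ' l z hz, hα' l z hz]
      ring
  · refine ⟨α 0, fun l => ?_⟩
    by_cases hl : Even l
    · simp only [if_pos hl, Nat.sub_self]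
    · simp only [if_neg hl, Nat.sub_self, hα'def, if_true]
  · rintro ⟨ν, hν⟩
    have hz0' : 0 < (z0 + (Real.pi : ℂ)).im := by rw [hpi]; exact hz0
    obtain ⟨e, he⟩ : ∃ e : ℂ, e = K ν z0 - K ν (z0 + (Real.pi : ℂ)) := ⟨_, rfl⟩
    obtain ⟨X, hXdef⟩ : ∃ X : ℕ → ℂ, X = fun l => K (if Even l then β l else β' l) z0 -
        K (if Even l then β l else β' l) (z0 + (Real.pi : ℂ)) := ⟨_, rfl⟩
    have h1 : Tendsto X atTop (𝓝 e) := by
      rw [hXdef, he]
      exact (hB3 _ ν hν z0 hz0).sub (hB3 _ ν hν (z0 + (Real.pi : ℂ)) hz0')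
    -- even and odd subsequences
    have hX : ∀ l, 2 * m0 ≤ l → (Even l → ‖-(X l) - d‖ ≤ ‖d‖ / 2) ∧
        (¬ Even l → ‖X l - d‖ ≤ ‖d‖ / 2) := by
      intro l hl
      have h2 := hm0 l (by omega)
      constructor
      · intro hev
        rw [hXdef]
        simp only [if_pos hev]
        rw [hβ l z0 hz0, hβ l _ hz0']
        refine le_trans (le_of_eq ?_) h2
        congr 1
        ring
      · intro hev
        rw [hXdef]
        simp only [if_neg hev]
        rw [hβ' l z0 hz0, hβ' l _ hz0']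
        have h3 : g l (z0 + (Real.pi : ℂ) + (Real.pi : ℂ)) = g l z0 := by
          have h4 := hper l z0 (by linarith)
          rw [← h4]
          congr 1
          ring
        rw [h3]
        refine le_trans (le_of_eq ?_) h2
        congr 1
        ring
    clear_value α'
    clear hXdef
    have hev : ‖-e - d‖ ≤ ‖d‖ / 2 := by
      have h2 : Tendsto (fun l : ℕ => 2 * l) atTop atTop :=
        tendsto_atTop_mono (fun l => by show l ≤ 2 * l; omega) tendsto_id
      have h3 : Tendsto (fun l : ℕ => X (2 * l)) atTop (𝓝 e) := h1.comp h2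
      have h4 : Tendsto (fun l : ℕ => ‖-(X (2 * l)) - d‖) atTop (𝓝 ‖-e - d‖) :=
        (h3.neg.sub tendsto_const_nhds).norm
      refine le_of_tendsto h4 ?_
      filter_upwards [eventually_ge_atTop m0] with l hl
      exact (hX (2 * l) (by omega)).1 (even_two_mul l)
    have hod : ‖e - d‖ ≤ ‖d‖ / 2 := by
      have h2 : Tendsto (fun l : ℕ => 2 * l + 1) atTop atTop :=
        tendsto_atTop_mono (fun l => by show l ≤ 2 * l + 1; omega) tendsto_id
      have h3 : Tendsto (fun l : ℕ => X (2 * l + 1)) atTop (𝓝 e) := h1.comp h2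
      have h4 : Tendsto (fun l : ℕ => ‖X (2 * l + 1) - d‖) atTop (𝓝 ‖e - d‖) :=
        (h3.sub tendsto_const_nhds).norm
      refine le_of_tendsto h4 ?_
      filter_upwards [eventually_ge_atTop m0] with l hl
      exact (hX (2 * l + 1) (by omega)).2 (by simp)
    have h5 : ‖(2 : ℂ) * d‖ ≤ ‖-e - d‖ + ‖e - d‖ := by
      have h6 : (2 : ℂ) * d = -((-e - d) + (e - d)) := by ring
      rw [h6, norm_neg]
      exact norm_add_le _ _
    rw [norm_mul] at h5
    have h6 : 0 < ‖d‖ := norm_pos_iff.2 hd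
    have h7 : ‖(2 : ℂ)‖ = 2 := by norm_num
    rw [h7] at h5
    linarith

end

end Pool.Agent.H13.TQ
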