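import Pool.Agent.H13.TQ.PD6Aux

/-!
Crew TQ, part D7 (helper29): lower bound of the control coefficient.
-/

set_option autoImplicit false

namespace Pool.Agent.H13.TQ

open Filter Topology Finset

noncomputable section

theorem D7_A (hL : 13 < L) {y : ℝ} (hy : 2 ≤ y) :
    Real.exp (L * (1 - y)) ≤ 1 / (2 * y) ∧ y * Real.exp (L * (1 - y)) ≤ 1 / y := by
  have h1 : L * (1 - y) ≤ -(2 * y) := by nlinarith
  have h2 : Real.exp (L * (1 - y)) ≤ Real.exp (-(2 * y)) := Real.exp_le_exp.2 h1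
  have h3 : Real.exp (-(2 * y)) ≤ 1 / (2 * y) := by
    rw [Real.exp_neg, one_div]
    apply inv_anti₀ (by linarith)
    have := Real.add_one_le_exp (2 * y)
    linarith
  refine ⟨h2.trans h3, ?_⟩
  have h4 : y * Real.exp (L * (1 - y)) ≤ y * Real.exp (-(2 * y)) :=
    mul_le_mul_of_nonneg_left h2 (by linarith)
  have h5 : Real.exp (-(2 * y)) = Real.exp (-y) * Real.exp (-y) := by
    rw [← Real.exp_add]; congr 1; ring
  have h6 : Real.exp (-y) ≤ 1 / y := by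
    rw [Real.exp_neg, one_div]
    apply inv_anti₀ (by linarith)
    have := Real.add_one_le_exp y
    linarith
  have h7 : y * Real.exp (-(2 * y)) ≤ 1 / y := by
    rw [h5]
    have hp := Real.exp_pos (-y)
    have h8 : y * Real.exp (-y) ≤ 1 := by
      have := mul_le_mul_of_nonneg_left h6 (by linarith : (0:ℝ) ≤ y)
      rwa [mul_one_div_cancel (by linarith : y ≠ 0)] at this
    nlinarith
  exact h4.trans h7

theorem D7_small {J i : ℕ} {κ : ℝ} (hi : i < J) (hκ : nR ^ J / 2 ≤ κ) :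
    2 ≤ κ / nR ^ i ∧ 1 / (2 * (κ / nR ^ i)) ≤ nR ^ i / nR ^ J ∧
      1 / (κ / nR ^ i) ≤ 2 * (nR ^ i / nR ^ J) := by
  have hn := D6_n_pos
  have hn6 : nR = 1000000 := rfl
  have hni : 0 < nR ^ i := by positivity
  have hnJ : 0 < nR ^ J := by positivity
  have h1 : nR * nR ^ i ≤ nR ^ J := by
    rw [← pow_succ']
    exact pow_le_pow_right₀ (by rw [hn6]; norm_num) hi
  have hκ0 : 0 < κ := by linarith
  refine ⟨?_, ?_, ?_⟩
  · rw [le_div_iff₀ hni]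
    rw [hn6] at h1
    rw [hn6] at hni hκ ⊢
    linarith
  · rw [div_le_div_iff₀ (by positivity) hnJ, ← mul_div_assoc, ← mul_div_assoc, le_div_iff₀ hni]
    nlinarith
  · rw [← mul_div_assoc, div_le_div_iff₀ (by positivity) hnJ, ← mul_div_assoc, le_div_iff₀ hni]
    nlinarith

theorem D7_geom (J : ℕ) : ∑ i ∈ range J, nR ^ i / nR ^ J ≤ 2 / nR := by
  have hn := D6_n_pos
  have hn6 : nR = 1000000 := rfl
  have hnJ : 0 < nR ^ J := by positivity
  rw [← Finset.sum_div, geom_sum_eq (by rw [hn6]; norm_num)]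
  rw [div_le_iff₀ hnJ, div_le_iff₀ (by rw [hn6]; norm_num)]
  have h1 : 2 / nR * nR ^ J * (nR - 1) = nR ^ J * (2 - 2 / nR) := by
    field_simp
  rw [h1]
  have h2 : (1:ℝ) ≤ 2 - 2 / nR := by rw [hn6]; norm_num
  nlinarith

theorem D7_sum (a b J : ℕ) (hb : b ≤ J) : ∑ i ∈ Ico a b, nR ^ i / nR ^ J ≤ 2 / nR := by
  have hn := D6_n_pos
  refine le_trans ?_ (D7_geom J)
  apply Finset.sum_le_sum_of_subset_of_nonneg
  · intro i hi
    rw [mem_Ico] at hi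
    rw [mem_range]
    omega
  · intro i _ _
    positivity

theorem D7_norm_qpow (j k : ℕ) :
    ‖(M : ℂ) * q j ^ k‖ = Real.exp (L * (1 - (k : ℝ) / nR ^ j)) := by
  rw [D6_q_pow, D6_norm_Mexp]

theorem D7_prod (hL : 13 < L) {a b J κ : ℕ} (hb : b ≤ J) (hκ : nR ^ J / 2 ≤ (κ : ℝ)) :
    ‖prodp a b κ - 1‖ ≤ 1 / 100 := by
  have hn6 : nR = 1000000 := rfl
  have h1 : prodp a b κ = ∏ i ∈ Ico a b, (1 + (M : ℂ) * q i ^ κ) := rfl
  rw [h1]
  refine (Finset.norm_prod_one_add_sub_one_le _ _).trans ?_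
  have h2 : ∑ i ∈ Ico a b, ‖(M : ℂ) * q i ^ κ‖ ≤ 2 / nR := by
    refine le_trans (Finset.sum_le_sum ?_) (D7_sum a b J hb)
    intro i hi
    rw [mem_Ico] at hi
    have h3 := D7_small (J := J) (i := i) (κ := κ) (by omega) hκ
    rw [D7_norm_qpow]
    exact (D7_A hL h3.1).1.trans h3.2.1
  have h3 : Real.exp (∑ i ∈ Ico a b, ‖(M : ℂ) * q i ^ κ‖) ≤ Real.exp (2 / nR) :=
    Real.exp_le_exp.2 h2
  have h4 : |Real.exp (2 / nR) - 1| ≤ 2 * |2 / nR| :=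
    Real.abs_exp_sub_one_le (by rw [hn6]; norm_num)
  have h5 : Real.exp (2 / nR) - 1 ≤ 2 * |2 / nR| := (le_abs_self _).trans h4
  have h6 : 2 * |2 / nR| ≤ 1 / 100 := by rw [hn6]; norm_num
  linarith

theorem D7_prod_bd (hL : 13 < L) {a b J κ : ℕ} (hb : b ≤ J) (hκ : nR ^ J / 2 ≤ (κ : ℝ)) :
    99 / 100 ≤ ‖prodp a b κ‖ ∧ ‖prodp a b κ‖ ≤ 101 / 100 := by
  have h := D7_prod hL (a := a) hb hκ
  have h1 := norm_sub_norm_le (1 : ℂ) (1 - prodp a b κ)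
  rw [sub_sub_cancel, norm_one, norm_sub_rev] at h1
  have h2 : ‖prodp a b κ‖ ≤ ‖(1:ℂ)‖ + ‖prodp a b κ - 1‖ := by
    have := norm_add_le (1 : ℂ) (prodp a b κ - 1)
    rwa [add_sub_cancel] at this
  rw [norm_one] at h2
  constructor <;> linarith

theorem D7_pp (h0 : SD0) {J κ : ℕ} (hκ : |(κ : ℝ) / nR ^ J - 1| ≤ 52 / 100000) :
    ‖pp J κ‖ ≤ 16 / 1000 := by
  obtain ⟨_, _, h3, h4, _⟩ := h0
  rw [D6_pp]
  obtain ⟨y, hy⟩ : ∃ y, y = (κ : ℝ) / nR ^ J := ⟨_, rfl⟩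
  rw [← hy] at hκ ⊢
  have h5 : (M : ℂ) * Complex.exp (-Lam * (y : ℂ)) = -Complex.exp (-Lam * ((y - 1 : ℝ) : ℂ)) := by
    have h6 : -Lam * (y : ℂ) = -Lam + -Lam * ((y - 1 : ℝ) : ℂ) := by
      push_cast; ring
    rw [h6, Complex.exp_add, ← mul_assoc, h4]
    ring
  rw [h5]
  have h7 : (1 : ℂ) + -Complex.exp (-Lam * ((y - 1 : ℝ) : ℂ)) =
      -(Complex.exp (-Lam * ((y - 1 : ℝ) : ℂ)) - 1) := by ring
  rw [h7, norm_neg]
  have h8 : ‖-Lam * ((y - 1 : ℝ) : ℂ)‖ ≤ 15 * (52 / 100000) := by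
    rw [norm_mul, norm_neg, Complex.norm_real, Real.norm_eq_abs]
    exact mul_le_mul h3.le hκ (abs_nonneg _) (by norm_num)
  refine (Complex.norm_exp_sub_one_le (by linarith)).trans ?_
  linarith

theorem D7_Psi (h3 : SD3) {y : ℝ} (hy0 : 0 ≤ y) (hy : y ≤ 2 / nR) :
    999 / 1000 ≤ ‖Psi y‖ ∧ ‖Psi y‖ ≤ 1001 / 1000 := by
  have hn6 : nR = 1000000 := rfl
  rw [hn6] at hy
  have h := h3 y hy0 (by linarith)
  have h1 := norm_sub_norm_le (1 : ℂ) (1 - Psi y)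
  rw [sub_sub_cancel, norm_one, norm_sub_rev] at h1
  have h2 : ‖Psi y‖ ≤ ‖(1:ℂ)‖ + ‖Psi y - 1‖ := by
    have := norm_add_le (1 : ℂ) (Psi y - 1)
    rwa [add_sub_cancel] at this
  rw [norm_one] at h2
  constructor <;> linarith

theorem D7_PsiE (h2 : SD2) (κ a d : ℕ) :
    (nR : ℂ) ^ d * Psi ((κ : ℝ) / nR ^ a) = prodp a (a + d) κ * Psi ((κ : ℝ) / nR ^ (a + d)) := by
  have hn := D6_n_pos
  induction d with
  | zero => simp [prodp]
  | succ d ih =>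
    have h4 : prodp a (a + (d + 1)) κ = prodp a (a + d) κ * pp (a + d) κ := by
      unfold prodp
      rw [← add_assoc, Finset.prod_Ico_succ_top (Nat.le_add_right a d)]
    have h5 : Psi ((κ : ℝ) / nR ^ (a + d)) =
        fac ((κ : ℝ) / nR ^ (a + d)) 0 * Psi ((κ : ℝ) / nR ^ (a + (d + 1))) := by
      rw [h2 _ (by positivity)]
      congr 2
      rw [div_div, ← pow_succ, ← add_assoc]
    rw [h4, D6_pp_fac, pow_succ, mul_comm ((nR:ℂ) ^ d) (nR : ℂ), mul_assoc, ih, h5]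
    ring

theorem D7_PsiN (h2 : SD2) (κ a d : ℕ) :
    nR ^ d * ‖Psi ((κ : ℝ) / nR ^ a)‖ =
      ‖prodp a (a + d) κ‖ * ‖Psi ((κ : ℝ) / nR ^ (a + d))‖ := by
  have h := congrArg norm (D7_PsiE h2 κ a d)
  rw [norm_mul, norm_mul, norm_pow, Complex.norm_real, Real.norm_of_nonneg D6_n_pos.le] at h
  exact h

/-- the norm of the summand -/
theorem D7_Cterm (l j : ℕ) : nR ^ (2 * (j + 1)) * ‖Cterm l j‖ =
    ‖Psi (1 / nR ^ (j + 1))‖ * ‖Psi ((l : ℝ) / nR ^ (j + 1))‖ *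
      ‖(l : ℂ) * ((M : ℂ) * q j ^ l) + (M : ℂ) * q j‖ := by
  have hn := D6_n_pos
  unfold Cterm
  have h1 : Complex.I * (M : ℂ) / (nR : ℂ) ^ (2 * (j + 1)) * Psi (1 / nR ^ (j + 1)) *
    Psi ((l : ℝ) / nR ^ (j + 1)) * ((l : ℂ) * q j ^ l + q j) =
    (Complex.I / (nR : ℂ) ^ (2 * (j + 1))) * (Psi (1 / nR ^ (j + 1)) *
    Psi ((l : ℝ) / nR ^ (j + 1)) * ((l : ℂ) * ((M : ℂ) * q j ^ l) + (M : ℂ) * q j)) := by ring
  rw [h1, norm_mul, norm_div, Complex.norm_I, norm_pow, Complex.norm_real,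
    Real.norm_of_nonneg hn.le, norm_mul, norm_mul, ← mul_assoc, mul_one_div_cancel
    (by positivity), one_mul]

theorem D7_q1 (j : ℕ) : ‖(M : ℂ) * q j‖ = Real.exp (L * (1 - 1 / nR ^ j)) := by
  have := D7_norm_qpow j 1
  rwa [pow_one, Nat.cast_one] at this

theorem D7_S_up (l j : ℕ) : ‖(l : ℂ) * ((M : ℂ) * q j ^ l) + (M : ℂ) * q j‖ ≤
    (l : ℝ) * Real.exp (L * (1 - (l : ℝ) / nR ^ j)) + Real.exp (L * (1 - 1 / nR ^ j)) := by
  refine (norm_add_le _ _).trans ?_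
  rw [norm_mul, D7_norm_qpow, D7_q1, Complex.norm_natCast]

theorem D7_S_low (l j : ℕ) : (l : ℝ) * Real.exp (L * (1 - (l : ℝ) / nR ^ j)) -
    Real.exp (L * (1 - 1 / nR ^ j)) ≤ ‖(l : ℂ) * ((M : ℂ) * q j ^ l) + (M : ℂ) * q j‖ := by
  have h := norm_sub_norm_le ((l : ℂ) * ((M : ℂ) * q j ^ l)) (-((M : ℂ) * q j))
  rw [norm_neg, norm_mul, D7_norm_qpow, D7_q1, Complex.norm_natCast, sub_neg_eq_add] at h
  exact h

theorem D7_exp_le_n (hL : 13 < L) {x : ℝ} (hx : x ≤ 1) : Real.exp (L * x) ≤ nR := by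
  have h1 : Real.exp (L * x) ≤ Real.exp L := Real.exp_le_exp.2 (by nlinarith)
  rw [← D6_M_exp] at h1
  have := D6_n_M
  linarith

/-- terms `j < J` -/
theorem D7_T1 (h0 : SD0) (h2 : SD2) (h3 : SD3) {l J j : ℕ} (hj : j < J)
    (hl : |(l : ℝ) / nR ^ J - 1| ≤ 52 / 100000) (hl2 : nR ^ J / 2 ≤ (l : ℝ)) :
    nR ^ (J + 2) * ‖prodp 0 j (l + 1) * Cterm l j‖ ≤
      17 / 1000 * (2 * (nR ^ j / nR ^ J) + 2 * (1 / 2) ^ j) := by
  have hL := h0.1
  have hn := D6_n_pos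
  have hn6 : nR = 1000000 := rfl
  have hk2 : nR ^ J / 2 ≤ ((l + 1 : ℕ) : ℝ) := by push_cast; linarith
  have b1 := (D7_prod_bd hL (a := 0) (b := j) (κ := l + 1) hj.le hk2).2
  have hpw : ∀ i : ℕ, (1:ℝ) ≤ nR ^ i := fun i => one_le_pow₀ (by rw [hn6]; norm_num)
  have b2 : ‖Psi (1 / nR ^ (j + 1))‖ ≤ 1001 / 1000 := by
    apply (D7_Psi h3 (by positivity) _).2
    rw [pow_succ]
    rw [div_le_div_iff₀ (by positivity) hn]
    have := hpw j
    nlinarith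
  -- Psi (l / n^(j+1))
  obtain ⟨d, hd⟩ : ∃ d, J = j + 1 + d := ⟨J - (j + 1), by omega⟩
  have b3 := D7_PsiN h2 l (j + 1) (d + 1)
  have e1 : j + 1 + (d + 1) = J + 1 := by omega
  rw [e1] at b3
  have e2 : prodp (j + 1) (J + 1) l = prodp (j + 1) J l * pp J l := by
    unfold prodp
    rw [Finset.prod_Ico_succ_top (by omega)]
  rw [e2, norm_mul] at b3
  have b4 := (D7_prod_bd hL (a := j + 1) (b := J) (κ := l) le_rfl hl2).2
  have b5 := D7_pp h0 hl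
  have b6 : ‖Psi ((l : ℝ) / nR ^ (J + 1))‖ ≤ 1001 / 1000 := by
    apply (D7_Psi h3 (by positivity) _).2
    rw [pow_succ, ← div_div]
    apply div_le_div_of_nonneg_right _ hn.le
    have := (abs_le.1 hl).2
    linarith
  have b7 : ‖prodp (j + 1) J l‖ * ‖pp J l‖ * ‖Psi ((l : ℝ) / nR ^ (J + 1))‖ ≤
      101 / 100 * (16 / 1000) * (1001 / 1000) := by
    apply mul_le_mul _ b6 (norm_nonneg _) (by norm_num)
    exact mul_le_mul b4 b5 (norm_nonneg _) (by norm_num)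
  -- S
  have hS := D7_S_up l j
  obtain ⟨S, hSE⟩ : ∃ S, S = ‖(l : ℂ) * ((M : ℂ) * q j ^ l) + (M : ℂ) * q j‖ := ⟨_, rfl⟩
  have hS0 : 0 ≤ S := by rw [hSE]; exact norm_nonneg _
  have hC := D7_Cterm l j
  rw [← hSE] at hS hC
  have c1 : (l : ℝ) * Real.exp (L * (1 - (l : ℝ) / nR ^ j)) ≤ nR ^ j * (2 * (nR ^ j / nR ^ J)) := by
    have h4 := D7_small hj hl2
    have h5 := ((D7_A hL h4.1).2).trans h4.2.2
    have h6 := mul_le_mul_of_nonneg_left h5 (pow_pos hn j).le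
    have h7 : nR ^ j * ((l : ℝ) / nR ^ j * Real.exp (L * (1 - (l : ℝ) / nR ^ j))) =
      (l : ℝ) * Real.exp (L * (1 - (l : ℝ) / nR ^ j)) := by
      field_simp
    rw [h7] at h6
    exact h6
  have c2 : Real.exp (L * (1 - 1 / nR ^ j)) ≤ nR ^ j * (2 * (1 / 2) ^ j) := by
    rcases Nat.eq_zero_or_pos j with hj0 | hj0
    · rw [hj0]
      simp
    · obtain ⟨i, rfl⟩ : ∃ i, j = i + 1 := ⟨j - 1, by omega⟩
      have h4 : Real.exp (L * (1 - 1 / nR ^ (i + 1))) ≤ nR := by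
        apply D7_exp_le_n hL
        have : 0 ≤ 1 / nR ^ (i + 1) := by positivity
        linarith
      refine h4.trans ?_
      have h5 : nR ^ (i + 1) * (2 * (1 / 2) ^ (i + 1)) = nR * (nR * (1 / 2)) ^ i := by
        rw [mul_pow, pow_succ, pow_succ]
        ring
      rw [h5]
      have h6 : (1:ℝ) ≤ (nR * (1 / 2)) ^ i := one_le_pow₀ (by rw [hn6]; norm_num)
      nlinarith
  have hS2 : S ≤ nR ^ j * (2 * (nR ^ j / nR ^ J) + 2 * (1 / 2) ^ j) := by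
    have : nR ^ j * (2 * (nR ^ j / nR ^ J) + 2 * (1 / 2) ^ j) =
      nR ^ j * (2 * (nR ^ j / nR ^ J)) + nR ^ j * (2 * (1 / 2) ^ j) := by ring
    linarith
  rw [norm_mul]
  -- main chain
  have m1 : nR ^ (2 * (j + 1)) * ‖Cterm l j‖ * nR ^ (d + 1) ≤
      1001 / 1000 * (101 / 100 * (16 / 1000) * (1001 / 1000)) * S := by
    rw [hC]
    have h4 : ‖Psi (1 / nR ^ (j + 1))‖ * ‖Psi ((l : ℝ) / nR ^ (j + 1))‖ * S * nR ^ (d + 1) =
      ‖Psi (1 / nR ^ (j + 1))‖ * (nR ^ (d + 1) * ‖Psi ((l : ℝ) / nR ^ (j + 1))‖) * S := by ring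
    rw [h4, b3]
    apply mul_le_mul_of_nonneg_right _ hS0
    exact mul_le_mul b2 b7 (by positivity) (by norm_num)
  have m2 : nR ^ (J + 2) * (‖prodp 0 j (l + 1)‖ * ‖Cterm l j‖) * nR ^ j =
      ‖prodp 0 j (l + 1)‖ * (nR ^ (2 * (j + 1)) * ‖Cterm l j‖ * nR ^ (d + 1)) := by
    rw [hd]
    ring
  have m3 : nR ^ (J + 2) * (‖prodp 0 j (l + 1)‖ * ‖Cterm l j‖) * nR ^ j ≤
      101 / 100 * (1001 / 1000 * (101 / 100 * (16 / 1000) * (1001 / 1000)) * S) := by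
    rw [m2]
    exact mul_le_mul b1 m1 (by positivity) (by norm_num)
  have m4 : 101 / 100 * (1001 / 1000 * (101 / 100 * (16 / 1000) * (1001 / 1000)) * S) ≤
      17 / 1000 * (nR ^ j * (2 * (nR ^ j / nR ^ J) + 2 * (1 / 2) ^ j)) := by
    have h5 : 101 / 100 * (1001 / 1000 * (101 / 100 * (16 / 1000) * (1001 / 1000)) * S) ≤
      17 / 1000 * S := by
      rw [← mul_assoc, ← mul_assoc]
      apply mul_le_mul_of_nonneg_right _ hS0
      norm_num
    have h6 := mul_le_mul_of_nonneg_left hS2 (by norm_num : (0:ℝ) ≤ 17 / 1000)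
    linarith
  have m5 := m3.trans m4
  have h7 : 17 / 1000 * (nR ^ j * (2 * (nR ^ j / nR ^ J) + 2 * (1 / 2) ^ j)) =
    17 / 1000 * (2 * (nR ^ j / nR ^ J) + 2 * (1 / 2) ^ j) * nR ^ j := by ring
  rw [h7] at m5
  exact le_of_mul_le_mul_right m5 (by positivity)

/-- terms `j > J` -/
theorem D7_T2 (h0 : SD0) (h3 : SD3) {l J r : ℕ}
    (hk : |((l + 1 : ℕ) : ℝ) / nR ^ J - 1| ≤ 52 / 100000) (hl2 : nR ^ J / 2 ≤ (l : ℝ)) :
    nR ^ (J + 2) * ‖prodp 0 (J + 1 + r) (l + 1) * Cterm l (J + 1 + r)‖ ≤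
      17 / 1000 * (1 / nR) * (1 / 2) ^ r := by
  have hL := h0.1
  have hn := D6_n_pos
  have hn6 : nR = 1000000 := rfl
  have hk2 : nR ^ J / 2 ≤ ((l + 1 : ℕ) : ℝ) := by push_cast; linarith
  have hpw : ∀ i : ℕ, (1:ℝ) ≤ nR ^ i := fun i => one_le_pow₀ (by rw [hn6]; norm_num)
  have hkN : ((l + 1 : ℕ) : ℝ) ≤ 1001 / 1000 * nR ^ J := by
    have h4 := (abs_le.1 hk).2
    have h5 : ((l + 1 : ℕ) : ℝ) / nR ^ J ≤ 1001 / 1000 := by linarith
    rwa [div_le_iff₀ (by positivity)] at h5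
  have hlk : (l : ℝ) ≤ ((l + 1 : ℕ) : ℝ) := by push_cast; linarith
  -- the product
  have b1 := (D7_prod_bd hL (a := 0) (b := J) (κ := l + 1) le_rfl hk2).2
  have b2 := D7_pp h0 hk
  have b3 : ‖prodp (J + 1) (J + 1 + r) (l + 1)‖ ≤ nR ^ r := by
    unfold prodp
    rw [norm_prod]
    have h5 : ∏ i ∈ Ico (J + 1) (J + 1 + r), ‖pp i (l + 1)‖ ≤ ∏ i ∈ Ico (J + 1) (J + 1 + r), nR := by
      apply Finset.prod_le_prod
      · intro i _
        exact norm_nonneg _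
      · intro i _
        have h6 : pp i (l + 1) = 1 + (M : ℂ) * q i ^ (l + 1) := rfl
        rw [h6]
        refine (norm_add_le _ _).trans ?_
        rw [norm_one, D7_norm_qpow, D6_n_M, add_comm]
        have h7 : Real.exp (L * (1 - ((l + 1 : ℕ) : ℝ) / nR ^ i)) ≤ Real.exp L := by
          apply Real.exp_le_exp.2
          have : 0 ≤ ((l + 1 : ℕ) : ℝ) / nR ^ i := by positivity
          nlinarith
        rw [← D6_M_exp, D6_n_M] at h7
        linarith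
    rw [Finset.prod_const, Nat.card_Ico, Nat.add_sub_cancel_left] at h5
    exact h5
  have e1 : prodp 0 (J + 1 + r) (l + 1) =
      prodp 0 J (l + 1) * pp J (l + 1) * prodp (J + 1) (J + 1 + r) (l + 1) := by
    unfold prodp
    rw [← Finset.prod_Ico_consecutive _ (Nat.zero_le (J + 1)) (Nat.le_add_right (J + 1) r),
      Finset.prod_Ico_succ_top (Nat.zero_le J)]
  have b4 : ‖prodp 0 (J + 1 + r) (l + 1)‖ ≤ 101 / 100 * (16 / 1000) * nR ^ r := by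
    rw [e1, norm_mul, norm_mul]
    apply mul_le_mul _ b3 (norm_nonneg _) (by norm_num)
    exact mul_le_mul b1 b2 (norm_nonneg _) (by norm_num)
  -- Psi
  have b5 : ‖Psi (1 / nR ^ (J + 1 + r + 1))‖ ≤ 1001 / 1000 := by
    apply (D7_Psi h3 (by positivity) _).2
    rw [pow_succ, div_le_div_iff₀ (by positivity) hn]
    have := hpw (J + 1 + r)
    nlinarith
  have b6 : ‖Psi ((l : ℝ) / nR ^ (J + 1 + r + 1))‖ ≤ 1001 / 1000 := by
    apply (D7_Psi h3 (by positivity) _).2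
    have h5 : nR ^ (J + 1 + r + 1) = nR ^ J * nR ^ (r + 1) * nR := by ring
    rw [h5, ← div_div]
    apply div_le_div_of_nonneg_right _ hn.le
    rw [div_le_iff₀ (by positivity)]
    have h6 := hpw (r + 1)
    have h7 : 0 < nR ^ J := by positivity
    nlinarith [mul_le_mul_of_nonneg_left h6 h7.le]
  -- S
  have hS := D7_S_up l (J + 1 + r)
  obtain ⟨S, hSE⟩ : ∃ S, S = ‖(l : ℂ) * ((M : ℂ) * q (J + 1 + r) ^ l) + (M : ℂ) * q (J + 1 + r)‖ :=
    ⟨_, rfl⟩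
  have hS0 : 0 ≤ S := by rw [hSE]; exact norm_nonneg _
  have hC := D7_Cterm l (J + 1 + r)
  rw [← hSE] at hS hC
  have hS2 : S ≤ nR * (1001 / 1000 * nR ^ J) := by
    have h5 : Real.exp (L * (1 - (l : ℝ) / nR ^ (J + 1 + r))) ≤ nR := by
      apply D7_exp_le_n hL
      have : 0 ≤ (l : ℝ) / nR ^ (J + 1 + r) := by positivity
      linarith
    have h6 : Real.exp (L * (1 - 1 / nR ^ (J + 1 + r))) ≤ nR := by
      apply D7_exp_le_n hL
      have : 0 ≤ 1 / nR ^ (J + 1 + r) := by positivity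
      linarith
    have h7 : (l : ℝ) * Real.exp (L * (1 - (l : ℝ) / nR ^ (J + 1 + r))) ≤ (l : ℝ) * nR :=
      mul_le_mul_of_nonneg_left h5 (Nat.cast_nonneg l)
    have h8 : nR * ((l + 1 : ℕ) : ℝ) ≤ nR * (1001 / 1000 * nR ^ J) :=
      mul_le_mul_of_nonneg_left hkN hn.le
    push_cast at h8
    nlinarith
  rw [norm_mul]
  have m1 : nR ^ (2 * (J + 1 + r + 1)) * ‖Cterm l (J + 1 + r)‖ ≤
      1001 / 1000 * (1001 / 1000) * (nR * (1001 / 1000 * nR ^ J)) := by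
    rw [hC]
    apply mul_le_mul _ hS2 hS0 (by norm_num)
    exact mul_le_mul b5 b6 (norm_nonneg _) (by norm_num)
  have m2 : ‖prodp 0 (J + 1 + r) (l + 1)‖ * (nR ^ (2 * (J + 1 + r + 1)) * ‖Cterm l (J + 1 + r)‖) ≤
      101 / 100 * (16 / 1000) * nR ^ r *
        (1001 / 1000 * (1001 / 1000) * (nR * (1001 / 1000 * nR ^ J))) :=
    mul_le_mul b4 m1 (by positivity) (by positivity)
  have m3 : nR ^ (J + 2) * (‖prodp 0 (J + 1 + r) (l + 1)‖ * ‖Cterm l (J + 1 + r)‖) *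
      (nR ^ (J + r) * nR ^ (r + 2)) =
      ‖prodp 0 (J + 1 + r) (l + 1)‖ * (nR ^ (2 * (J + 1 + r + 1)) * ‖Cterm l (J + 1 + r)‖) := by
    ring
  have m4 : 101 / 100 * (16 / 1000) * nR ^ r *
        (1001 / 1000 * (1001 / 1000) * (nR * (1001 / 1000 * nR ^ J))) ≤
      17 / 1000 * (1 / nR) * (1 / 2) ^ r * (nR ^ (J + r) * nR ^ (r + 2)) := by
    have h5 : 17 / 1000 * (1 / nR) * (1 / 2) ^ r * (nR ^ (J + r) * nR ^ (r + 2)) =
      17 / 1000 * (nR * (1 / 2)) ^ r * (nR ^ (J + r) * nR) := by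
      rw [mul_pow]
      field_simp
      ring
    have h6 : 101 / 100 * (16 / 1000) * nR ^ r *
        (1001 / 1000 * (1001 / 1000) * (nR * (1001 / 1000 * nR ^ J))) =
      (101 / 100 * (16 / 1000) * (1001 / 1000 * (1001 / 1000)) * (1001 / 1000)) * 1 *
        (nR ^ (J + r) * nR) := by ring
    rw [h5, h6]
    apply mul_le_mul_of_nonneg_right _ (by positivity)
    have h7 : (1:ℝ) ≤ (nR * (1 / 2)) ^ r := one_le_pow₀ (by rw [hn6]; norm_num)
    apply mul_le_mul (by norm_num) h7 (by norm_num) (by norm_num)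
  have m5 := m2.trans m4
  rw [← m3] at m5
  exact le_of_mul_le_mul_right m5 (by positivity)

/-- the main term -/
theorem D7_T0 (h0 : SD0) (h3 : SD3) {l J : ℕ} (hJ : 2 ≤ J)
    (hl : |(l : ℝ) / nR ^ J - 1| ≤ 52 / 100000) (hl2 : nR ^ J / 2 ≤ (l : ℝ)) :
    95 / 100 ≤ nR ^ (J + 2) * ‖prodp 0 J (l + 1) * Cterm l J‖ := by
  have hL := h0.1
  have hn := D6_n_pos
  have hn6 : nR = 1000000 := rfl
  have hk2 : nR ^ J / 2 ≤ ((l + 1 : ℕ) : ℝ) := by push_cast; linarith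
  have hpw : ∀ i : ℕ, (1:ℝ) ≤ nR ^ i := fun i => one_le_pow₀ (by rw [hn6]; norm_num)
  have b1 := (D7_prod_bd hL (a := 0) (b := J) (κ := l + 1) le_rfl hk2).1
  have b2 : 999 / 1000 ≤ ‖Psi (1 / nR ^ (J + 1))‖ := by
    apply (D7_Psi h3 (by positivity) _).1
    rw [pow_succ, div_le_div_iff₀ (by positivity) hn]
    have := hpw J
    nlinarith
  have hlu := (abs_le.1 hl).2
  have hll := (abs_le.1 hl).1
  have b3 : 999 / 1000 ≤ ‖Psi ((l : ℝ) / nR ^ (J + 1))‖ := by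
    apply (D7_Psi h3 (by positivity) _).1
    rw [pow_succ, ← div_div]
    apply div_le_div_of_nonneg_right _ hn.le
    linarith
  have hS := D7_S_low l J
  obtain ⟨S, hSE⟩ : ∃ S, S = ‖(l : ℂ) * ((M : ℂ) * q J ^ l) + (M : ℂ) * q J‖ := ⟨_, rfl⟩
  have hC := D7_Cterm l J
  rw [← hSE] at hS hC
  have b4 := D7_pp h0 hl
  have b5 : 984 / 1000 ≤ Real.exp (L * (1 - (l : ℝ) / nR ^ J)) := by
    rw [← D7_norm_qpow]
    have h6 : pp J l = 1 + (M : ℂ) * q J ^ l := rfl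
    rw [h6] at b4
    have h7 := norm_sub_norm_le (1 : ℂ) (-((M : ℂ) * q J ^ l))
    rw [norm_neg, norm_one, sub_neg_eq_add] at h7
    linarith
  have hlN : 999 / 1000 * nR ^ J ≤ (l : ℝ) := by
    have h5 : 999 / 1000 ≤ (l : ℝ) / nR ^ J := by linarith
    rwa [le_div_iff₀ (by positivity)] at h5
  have b6 : Real.exp (L * (1 - 1 / nR ^ J)) ≤ 1 / 1000000 * nR ^ J := by
    have h5 : Real.exp (L * (1 - 1 / nR ^ J)) ≤ nR := by
      apply D7_exp_le_n hL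
      have : 0 ≤ 1 / nR ^ J := by positivity
      linarith
    have h6 : nR ^ 2 ≤ nR ^ J := pow_le_pow_right₀ (by rw [hn6]; norm_num) hJ
    have h7 : nR = 1 / 1000000 * nR ^ 2 := by rw [hn6]; norm_num
    linarith
  have hN0 : 0 < nR ^ J := by positivity
  have hS2 : 98 / 100 * nR ^ J ≤ S := by
    have h5 : 999 / 1000 * nR ^ J * (984 / 1000) ≤ (l : ℝ) * Real.exp (L * (1 - (l : ℝ) / nR ^ J)) :=
      mul_le_mul hlN b5 (by norm_num) (Nat.cast_nonneg l)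
    nlinarith
  rw [norm_mul]
  have m1 : 999 / 1000 * (999 / 1000) * (98 / 100 * nR ^ J) ≤ nR ^ (2 * (J + 1)) * ‖Cterm l J‖ := by
    rw [hC]
    apply mul_le_mul _ hS2 (by positivity) (by positivity)
    exact mul_le_mul b2 b3 (by norm_num) (norm_nonneg _)
  have m2 : 99 / 100 * (999 / 1000 * (999 / 1000) * (98 / 100 * nR ^ J)) ≤
      ‖prodp 0 J (l + 1)‖ * (nR ^ (2 * (J + 1)) * ‖Cterm l J‖) :=
    mul_le_mul b1 m1 (by positivity) (norm_nonneg _)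
  have m3 : ‖prodp 0 J (l + 1)‖ * (nR ^ (2 * (J + 1)) * ‖Cterm l J‖) =
      nR ^ (J + 2) * (‖prodp 0 J (l + 1)‖ * ‖Cterm l J‖) * nR ^ J := by ring
  rw [m3] at m2
  have m4 : 95 / 100 * nR ^ J ≤ 99 / 100 * (999 / 1000 * (999 / 1000) * (98 / 100 * nR ^ J)) := by
    nlinarith
  exact le_of_mul_le_mul_right (m4.trans m2) hN0

theorem D7 (h0 : SD0) (h2 : SD2) (h3 : SD3) (h8 : SD8) : SD7 := by
  have hn := D6_n_pos
  have hn6 : nR = 1000000 := rfl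
  have hL := h0.1
  refine ⟨1 / (2 * nR ^ 2), by positivity, ?_⟩
  intro l hNR
  obtain ⟨_, J, hJ, hJk⟩ := hNR
  have hN0 : 0 < nR ^ J := by positivity
  have hN2 : nR ^ 2 ≤ nR ^ J := pow_le_pow_right₀ (by rw [hn6]; norm_num) hJ
  have hN12 : (1000000000000:ℝ) ≤ nR ^ J := by
    rw [hn6] at hN2 ⊢
    norm_num at hN2 ⊢
    exact hN2
  have hk1 := (abs_le.1 hJk).1
  have hk2 := (abs_le.1 hJk).2
  have hk : |((l + 1 : ℕ) : ℝ) / nR ^ J - 1| ≤ 52 / 100000 := by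
    rw [abs_le]
    constructor
    · rw [neg_le_sub_iff_le_add, ← sub_le_iff_le_add, le_div_iff₀ hN0]
      linarith
    · rw [sub_le_iff_le_add, div_le_iff₀ hN0]
      linarith
  have hkl : ((l + 1 : ℕ) : ℝ) = (l : ℝ) + 1 := by push_cast; ring
  rw [hkl] at hk1 hk2
  have hl : |(l : ℝ) / nR ^ J - 1| ≤ 52 / 100000 := by
    rw [abs_le]
    constructor
    · rw [neg_le_sub_iff_le_add, ← sub_le_iff_le_add, le_div_iff₀ hN0]
      linarith
    · rw [sub_le_iff_le_add, div_le_iff₀ hN0]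
      linarith
  have hl2 : nR ^ J / 2 ≤ (l : ℝ) := by linarith
  have hl1 : 1 ≤ l := by
    have : (1:ℝ) ≤ l := by linarith
    exact_mod_cast this
  -- the series
  obtain ⟨T, hT⟩ : ∃ T : ℕ → ℂ, T = fun j => prodp 0 j (l + 1) * Cterm l j := ⟨_, rfl⟩
  have hTj : ∀ j, T j = prodp 0 j (l + 1) * Cterm l j := fun j => by rw [hT]
  have hCc : Cc l = ∑' j, T j := by
    unfold Cc SS
    apply tsum_congr
    intro r
    rw [hTj, zero_add]
  have hsum : Summable T := by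
    apply Summable.of_norm
    have := h8 l hl1
    simpa only [hTj] using this
  have hsplit : ∑ i ∈ range (J + 1), T i + ∑' i, T (i + (J + 1)) = ∑' i, T i :=
    hsum.sum_add_tsum_nat_add (J + 1)
  rw [Finset.sum_range_succ] at hsplit
  have hn2 : 0 < nR ^ (J + 2) := by positivity
  have B0 := D7_T0 h0 h3 hJ hl hl2
  rw [← hTj] at B0
  have B1 : nR ^ (J + 2) * ‖∑ i ∈ range J, T i‖ ≤ 7 / 100 := by
    have h4 : nR ^ (J + 2) * ‖∑ i ∈ range J, T i‖ ≤ ∑ i ∈ range J, nR ^ (J + 2) * ‖T i‖ := by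
      rw [← Finset.mul_sum]
      exact mul_le_mul_of_nonneg_left (norm_sum_le _ _) hn2.le
    refine h4.trans ?_
    have h5 : ∑ i ∈ range J, nR ^ (J + 2) * ‖T i‖ ≤
        ∑ i ∈ range J, 17 / 1000 * (2 * (nR ^ i / nR ^ J) + 2 * (1 / 2) ^ i) := by
      apply Finset.sum_le_sum
      intro i hi
      rw [mem_range] at hi
      rw [hTj]
      exact D7_T1 h0 h2 h3 hi hl hl2
    refine h5.trans ?_
    rw [← Finset.mul_sum, Finset.sum_add_distrib, ← Finset.mul_sum, ← Finset.mul_sum]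
    have h6 := D7_geom J
    have h7 : ∑ i ∈ range J, ((1:ℝ) / 2) ^ i ≤ 2 := by
      have := Summable.sum_le_tsum (range J) (fun i _ => by positivity) summable_geometric_two
      rwa [tsum_geometric_two] at this
    rw [hn6] at h6 ⊢
    norm_num at h6 ⊢
    linarith
  have B2 : nR ^ (J + 2) * ‖∑' i, T (i + (J + 1))‖ ≤ 1 / 100 := by
    have h4 : HasSum (fun r : ℕ => 17 / 1000 * (1 / nR) * (1 / 2) ^ r / nR ^ (J + 2))
        (17 / 1000 * (1 / nR) * 2 / nR ^ (J + 2)) :=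
      (hasSum_geometric_two.mul_left _).div_const _
    have h5 := tsum_of_norm_bounded h4 (f := fun i => T (i + (J + 1))) (by
      intro r
      rw [le_div_iff₀ hn2, mul_comm, hTj, add_comm r (J + 1)]
      exact D7_T2 h0 h3 hk hl2)
    rw [le_div_iff₀ hn2, mul_comm] at h5
    refine h5.trans ?_
    rw [hn6]
    norm_num
  have hfin : 85 / 100 ≤ nR ^ (J + 2) * ‖Cc l‖ := by
    rw [hCc, ← hsplit]
    have h4 : ‖T J‖ ≤ ‖∑ i ∈ range J, T i + T J + ∑' i, T (i + (J + 1))‖ +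
        ‖∑ i ∈ range J, T i‖ + ‖∑' i, T (i + (J + 1))‖ := by
      have h5 : T J = (∑ i ∈ range J, T i + T J + ∑' i, T (i + (J + 1))) -
        ∑ i ∈ range J, T i - ∑' i, T (i + (J + 1)) := by ring
      calc ‖T J‖ = ‖(∑ i ∈ range J, T i + T J + ∑' i, T (i + (J + 1))) -
        ∑ i ∈ range J, T i - ∑' i, T (i + (J + 1))‖ := by rw [← h5]
        _ ≤ ‖(∑ i ∈ range J, T i + T J + ∑' i, T (i + (J + 1))) -
        ∑ i ∈ range J, T i‖ + ‖∑' i, T (i + (J + 1))‖ := norm_sub_le _ _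
        _ ≤ _ := by
          have := norm_sub_le (∑ i ∈ range J, T i + T J + ∑' i, T (i + (J + 1)))
            (∑ i ∈ range J, T i)
          linarith
    have h6 := mul_le_mul_of_nonneg_left h4 hn2.le
    rw [mul_add, mul_add] at h6
    linarith
  have hkN : 999 / 1000 * nR ^ J ≤ (l : ℝ) + 1 := by linarith
  have hCn : 0 ≤ ‖Cc l‖ := norm_nonneg _
  rw [div_le_iff₀ (by positivity)]
  have h9 : 999 / 1000 * nR ^ J * ‖Cc l‖ * (2 * nR ^ 2) ≤ ((l : ℝ) + 1) * ‖Cc l‖ * (2 * nR ^ 2) := by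
    apply mul_le_mul_of_nonneg_right _ (by positivity)
    exact mul_le_mul_of_nonneg_right hkN hCn
  have h10 : 999 / 1000 * nR ^ J * ‖Cc l‖ * (2 * nR ^ 2) =
      999 / 500 * (nR ^ (J + 2) * ‖Cc l‖) := by ring
  rw [h10] at h9
  linarith

end

end Pool.Agent.H13.TQ
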