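import Pool.Agent.H13.TQ.Asm
import Pool.Agent.H13.TQ.PA3
import Pool.Agent.H13.TQ.PB4
import Pool.Agent.H13.TQ.PD7

namespace Pool.Agent.H13.TQ

open Pool.Agent.H97.TQ in
/-- The final statement. -/
theorem final : Result := by
  have d0 : SD0 := D0
  have d2 : SD2 := D2
  have d3 : SD3 := D3
  have d1 : SD1 := D1
  have d4 : SD4 := D4 d0
  have d5 : SD5 := D5 d1 d4
  have d8 : SD8 := D8 d0 d4 d5
  exact B4 (A3 (A2 A1)) B1 B2 B3 (chain (D7 d0 d2 d3 d8))

end Pool.Agent.H13.TQ
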