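import Pool.Agent.H13.TQ.Defs

namespace Pool.Agent.H13.TQ

open MeasureTheory Filter Topology Finset

noncomputable section

/-- Poisson average of `f` at `t`. -/
def pav (f : ℝ → ℝ) (y t : ℝ) : ℝ := ∫ u : ℝ, f (t + y * u) * (1 + u ^ 2)⁻¹

theorem pav_eq (f : ℝ → ℝ) (y t : ℝ) (hy : 0 < y) :
    pav f y t = ∫ x : ℝ, f x * (y / ((x - t) ^ 2 + y ^ 2)) := by
  have h1 : ∫ x : ℝ, f x * (y / ((x - t) ^ 2 + y ^ 2)) =
      ∫ x : ℝ, f (x + t) * (y / ((x + t - t) ^ 2 + y ^ 2)) :=
    (integral_add_right_eq_self (fun x => f x * (y / ((x - t) ^ 2 + y ^ 2))) t).symm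
  have h2 := Measure.integral_comp_mul_left
    (fun x : ℝ => f (x + t) * (y / ((x + t - t) ^ 2 + y ^ 2))) y
  rw [h1]
  have h3 : ∫ x : ℝ, f (x + t) * (y / ((x + t - t) ^ 2 + y ^ 2)) =
      y * ∫ x : ℝ, f (y * x + t) * (y / ((y * x + t - t) ^ 2 + y ^ 2)) := by
    rw [h2, abs_of_pos (inv_pos.2 hy), smul_eq_mul, ← mul_assoc, mul_inv_cancel₀ hy.ne', one_mul]
  rw [h3, ← integral_const_mul]
  unfold pav
  refine integral_congr_ae (Eventually.of_forall ?_)
  intro u
  show f (t + y * u) * (1 + u ^ 2)⁻¹ = y * (f (y * u + t) * (y / ((y * u + t - t) ^ 2 + y ^ 2)))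
  have e : t + y * u = y * u + t := by ring
  rw [e]
  have h4 : (y * u + t - t) ^ 2 + y ^ 2 = y ^ 2 * (1 + u ^ 2) := by ring
  rw [h4]
  have h5 : (1 + u ^ 2) ≠ 0 := by positivity
  field_simp

theorem im_pt (x y : ℝ) : ((x : ℂ) + (y : ℂ) * Complex.I).im = y := by simp

theorem im_inv (x y t : ℝ) :
    (((x : ℂ) + (y : ℂ) * Complex.I - (t : ℂ))⁻¹).im = - (y / ((x - t) ^ 2 + y ^ 2)) := by
  rw [Complex.inv_im]
  have h1 : ((x : ℂ) + (y : ℂ) * Complex.I - (t : ℂ)).im = y := by simp
  have h2 : Complex.normSq ((x : ℂ) + (y : ℂ) * Complex.I - (t : ℂ)) = (x - t) ^ 2 + y ^ 2 := by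
    rw [Complex.normSq_apply]
    simp
    ring
  rw [h1, h2]
  ring

theorem int_inv (μ : ProbabilityMeasure ℝ) (z : ℂ) (hz : 0 < z.im) :
    Integrable (fun t : ℝ => (z - (t : ℂ))⁻¹) (μ : Measure ℝ) := by
  have hne : ∀ t : ℝ, z - (t : ℂ) ≠ 0 := by
    intro t h
    have := congrArg Complex.im h
    simp at this
    linarith
  refine Integrable.mono' (integrable_const (1 / z.im)) ?_ ?_
  · refine Continuous.aestronglyMeasurable ?_
    exact Continuous.inv₀ (by fun_prop) hne
  · refine Eventually.of_forall ?_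
    intro t
    rw [norm_inv, one_div]
    refine inv_anti₀ hz ?_
    have h1 : (z - (t : ℂ)).im = z.im := by simp
    calc z.im = (z - (t : ℂ)).im := h1.symm
      _ ≤ |(z - (t : ℂ)).im| := le_abs_self _
      _ ≤ ‖z - (t : ℂ)‖ := Complex.abs_im_le_norm _

theorem poisson_eq (μ : ProbabilityMeasure ℝ) (x y : ℝ) (hy : 0 < y) :
    ∫ t : ℝ, y / ((x - t) ^ 2 + y ^ 2) ∂(μ : Measure ℝ) = - (G μ ((x : ℂ) + (y : ℂ) * Complex.I)).im := by
  have hz : 0 < ((x : ℂ) + (y : ℂ) * Complex.I).im := by simpa using hy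
  have h1 := int_inv μ _ hz
  have h2 : (G μ ((x : ℂ) + (y : ℂ) * Complex.I)).im =
      ∫ t : ℝ, (((x : ℂ) + (y : ℂ) * Complex.I - (t : ℂ))⁻¹).im ∂(μ : Measure ℝ) := by
    unfold G
    exact (integral_im h1).symm
  rw [h2, ← integral_neg]
  refine integral_congr_ae (Eventually.of_forall ?_)
  intro t
  show y / ((x - t) ^ 2 + y ^ 2) = - (((x : ℂ) + (y : ℂ) * Complex.I - (t : ℂ))⁻¹).im
  rw [im_inv]
  ring

theorem pav_int (μ : ProbabilityMeasure ℝ) (f : BoundedContinuousFunction ℝ ℝ) (y : ℝ) (hy : 0 < y) :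
    ∫ t : ℝ, pav f y t ∂(μ : Measure ℝ) =
      ∫ x : ℝ, f x * (- (G μ ((x : ℂ) + (y : ℂ) * Complex.I)).im) := by
  have h1 : ∀ t, pav f y t = ∫ x : ℝ, f x * (y / ((x - t) ^ 2 + y ^ 2)) := fun t => pav_eq f y t hy
  simp_rw [h1]
  have hcont : Continuous (fun p : ℝ × ℝ => f p.2 * (y / ((p.2 - p.1) ^ 2 + y ^ 2))) := by
    refine Continuous.mul (f.continuous.comp continuous_snd) ?_
    refine Continuous.div continuous_const (by fun_prop) ?_
    intro p
    positivity
  have hker : ∀ t : ℝ, Integrable (fun x : ℝ => y / ((x - t) ^ 2 + y ^ 2)) := by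
    intro t
    have h0 : Integrable (fun x : ℝ => (1 + x ^ 2)⁻¹) := integrable_inv_one_add_sq
    have h2 : Integrable (fun x : ℝ => (1 + (y⁻¹ * x) ^ 2)⁻¹) :=
      h0.comp_mul_left' (inv_ne_zero hy.ne')
    have h3 : Integrable (fun x : ℝ => (1 + (y⁻¹ * (x - t)) ^ 2)⁻¹) := h2.comp_sub_right t
    have h4 := h3.const_mul (y⁻¹)
    refine h4.congr (Eventually.of_forall ?_)
    intro x
    show y⁻¹ * (1 + (y⁻¹ * (x - t)) ^ 2)⁻¹ = y / ((x - t) ^ 2 + y ^ 2)
    have h5 : (x - t) ^ 2 + y ^ 2 ≠ 0 := by positivity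
    have h6 : 1 + (y⁻¹ * (x - t)) ^ 2 ≠ 0 := by positivity
    field_simp
    ring
  have hkint : ∀ t : ℝ, ∫ x : ℝ, y / ((x - t) ^ 2 + y ^ 2) = Real.pi := by
    intro t
    have h2 := pav_eq (fun _ => (1 : ℝ)) y t hy
    simp only [one_mul] at h2
    rw [← h2]
    unfold pav
    simp [integral_univ_inv_one_add_sq]
  have hint : Integrable (Function.uncurry fun (t x : ℝ) => f x * (y / ((x - t) ^ 2 + y ^ 2)))
      ((μ : Measure ℝ).prod volume) := by
    rw [integrable_prod_iff]
    · constructor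
      · refine Eventually.of_forall ?_
        intro t
        have := (hker t).bdd_mul (c := ‖f‖) f.continuous.aestronglyMeasurable
          (Eventually.of_forall fun x => f.norm_coe_le_norm x)
        exact this
      · refine Integrable.mono' (integrable_const (‖f‖ * Real.pi)) ?_ ?_
        · have : StronglyMeasurable (fun p : ℝ × ℝ =>
              ‖(fun (t x : ℝ) => f x * (y / ((x - t) ^ 2 + y ^ 2))) p.1 p.2‖) :=
            hcont.norm.stronglyMeasurable
          exact (this.integral_prod_right').aestronglyMeasurable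
        · refine Eventually.of_forall ?_
          intro t
          rw [Real.norm_of_nonneg (integral_nonneg fun _ => norm_nonneg _), ← hkint t,
            ← integral_const_mul]
          refine integral_mono_of_nonneg (Eventually.of_forall fun _ => norm_nonneg _)
            ((hker t).const_mul _) (Eventually.of_forall ?_)
          intro x
          show ‖f x * (y / ((x - t) ^ 2 + y ^ 2))‖ ≤ ‖f‖ * (y / ((x - t) ^ 2 + y ^ 2))
          rw [norm_mul]
          have h7 : ‖y / ((x - t) ^ 2 + y ^ 2)‖ = y / ((x - t) ^ 2 + y ^ 2) :=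
            Real.norm_of_nonneg (by positivity)
          rw [h7]
          exact mul_le_mul_of_nonneg_right (f.norm_coe_le_norm x) (by positivity)
    · exact hcont.aestronglyMeasurable
  rw [integral_integral_swap hint]
  refine integral_congr_ae (Eventually.of_forall ?_)
  intro x
  show ∫ t : ℝ, f x * (y / ((x - t) ^ 2 + y ^ 2)) ∂(μ : Measure ℝ) = _
  rw [integral_const_mul, poisson_eq μ x y hy]

theorem pav_bound (f : BoundedContinuousFunction ℝ ℝ) (y t : ℝ) :
    ‖pav f y t‖ ≤ ‖f‖ * Real.pi := by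
  unfold pav
  have h0 : Integrable (fun x : ℝ => (1 + x ^ 2)⁻¹) := integrable_inv_one_add_sq
  calc ‖∫ u : ℝ, f (t + y * u) * (1 + u ^ 2)⁻¹‖ ≤ ∫ u : ℝ, ‖f‖ * (1 + u ^ 2)⁻¹ := by
        refine norm_integral_le_of_norm_le (h0.const_mul _) (Eventually.of_forall ?_)
        intro u
        rw [norm_mul]
        have h7 : ‖(1 + u ^ 2)⁻¹‖ = (1 + u ^ 2)⁻¹ := Real.norm_of_nonneg (by positivity)
        rw [h7]
        exact mul_le_mul_of_nonneg_right (f.norm_coe_le_norm _) (by positivity)
    _ = ‖f‖ * Real.pi := by rw [integral_const_mul, integral_univ_inv_one_add_sq]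

theorem pav_cont (f : BoundedContinuousFunction ℝ ℝ) (y : ℝ) : Continuous (fun t => pav f y t) := by
  have h0 : Integrable (fun x : ℝ => (1 + x ^ 2)⁻¹) := integrable_inv_one_add_sq
  refine continuous_of_dominated (bound := fun u => ‖f‖ * (1 + u ^ 2)⁻¹) ?_ ?_ (h0.const_mul _) ?_
  · intro t
    refine Continuous.aestronglyMeasurable ?_
    refine Continuous.mul (f.continuous.comp (by fun_prop)) ?_
    exact Continuous.inv₀ (by fun_prop) (fun u => by positivity)
  · intro t
    refine Eventually.of_forall ?_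
    intro u
    rw [norm_mul]
    have h7 : ‖(1 + u ^ 2)⁻¹‖ = (1 + u ^ 2)⁻¹ := Real.norm_of_nonneg (by positivity)
    rw [h7]
    exact mul_le_mul_of_nonneg_right (f.norm_coe_le_norm _) (by positivity)
  · refine Eventually.of_forall ?_
    intro u
    exact Continuous.mul (f.continuous.comp (by fun_prop)) continuous_const

theorem pav_lim (f : BoundedContinuousFunction ℝ ℝ) (t : ℝ) :
    Tendsto (fun j : ℕ => pav f (1 / ((j : ℝ) + 1)) t) atTop (𝓝 (f t * Real.pi)) := by
  have h0 : Integrable (fun x : ℝ => (1 + x ^ 2)⁻¹) := integrable_inv_one_add_sq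
  have e : f t * Real.pi = ∫ u : ℝ, f t * (1 + u ^ 2)⁻¹ := by
    rw [integral_const_mul, integral_univ_inv_one_add_sq]
  rw [e]
  refine tendsto_integral_of_dominated_convergence (fun u => ‖f‖ * (1 + u ^ 2)⁻¹) ?_
    (h0.const_mul _) ?_ ?_
  · intro j
    refine Continuous.aestronglyMeasurable ?_
    refine Continuous.mul (f.continuous.comp (by fun_prop)) ?_
    exact Continuous.inv₀ (by fun_prop) (fun u => by positivity)
  · intro j
    refine Eventually.of_forall ?_
    intro u
    rw [norm_mul]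
    have h7 : ‖(1 + u ^ 2)⁻¹‖ = (1 + u ^ 2)⁻¹ := Real.norm_of_nonneg (by positivity)
    rw [h7]
    exact mul_le_mul_of_nonneg_right (f.norm_coe_le_norm _) (by positivity)
  · refine Eventually.of_forall ?_
    intro u
    refine Tendsto.mul_const _ ?_
    have h1 : Tendsto (fun j : ℕ => t + 1 / ((j : ℝ) + 1) * u) atTop (𝓝 (t + 0 * u)) :=
      (tendsto_one_div_add_atTop_nhds_zero_nat.mul_const u).const_add t
    rw [zero_mul, add_zero] at h1
    exact (f.continuous.tendsto t).comp h1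

/-- A probability measure is determined by `K` on the upper half plane. -/
theorem K_inj (μ ν : ProbabilityMeasure ℝ) (h : ∀ z : ℂ, 0 < z.im → K μ z = K ν z) : μ = ν := by
  have hG : ∀ z : ℂ, 0 < z.im → G μ z = G ν z := by
    intro z hz
    have h1 := h z hz
    unfold K F at h1
    have h2 : (G μ z)⁻¹ = (G ν z)⁻¹ := by
      have := sub_right_injective h1
      exact this
    exact inv_injective h2
  have key : ∀ f : BoundedContinuousFunction ℝ ℝ,
      ∫ t, f t ∂(μ : Measure ℝ) = ∫ t, f t ∂(ν : Measure ℝ) := by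
    intro f
    have lim : ∀ ρ : ProbabilityMeasure ℝ,
        Tendsto (fun j : ℕ => ∫ t, pav f (1 / ((j : ℝ) + 1)) t ∂(ρ : Measure ℝ)) atTop
          (𝓝 (∫ t, f t * Real.pi ∂(ρ : Measure ℝ))) := by
      intro ρ
      refine tendsto_integral_of_dominated_convergence (fun _ => ‖f‖ * Real.pi) ?_
        (integrable_const _) ?_ ?_
      · intro j
        exact (pav_cont f _).aestronglyMeasurable
      · intro j
        exact Eventually.of_forall fun t => pav_bound f _ t
      · exact Eventually.of_forall fun t => pav_lim f t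
    have heq : ∀ j : ℕ, ∫ t, pav f (1 / ((j : ℝ) + 1)) t ∂(μ : Measure ℝ) =
        ∫ t, pav f (1 / ((j : ℝ) + 1)) t ∂(ν : Measure ℝ) := by
      intro j
      have hy : (0 : ℝ) < 1 / ((j : ℝ) + 1) := by positivity
      rw [pav_int μ f _ hy, pav_int ν f _ hy]
      refine integral_congr_ae (Eventually.of_forall ?_)
      intro x
      show f x * _ = f x * _
      rw [hG _ (by rw [im_pt]; exact hy)]
    have l1 := lim μ
    simp_rw [heq] at l1
    have := tendsto_nhds_unique l1 (lim ν)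
    rw [integral_mul_const, integral_mul_const] at this
    exact mul_right_cancel₀ Real.pi_ne_zero this
  have h3 : (μ : Measure ℝ) = (ν : Measure ℝ) :=
    ext_of_forall_integral_eq_of_IsFiniteMeasure key
  exact Subtype.ext h3

end

end Pool.Agent.H13.TQ
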