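import Pool.Agent.H13.TQ.Stm

/-! # TQ, part A1: contour shift in the upper half plane -/

namespace Pool.Agent.H13.TQ

open MeasureTheory Filter Topology Finset

noncomputable section

theorem A1_int (f : ℂ → ℂ) (C : ℝ) (hc : ContinuousOn f {z | 0 ≤ z.im})
    (hb : ∀ z : ℂ, 0 ≤ z.im → ‖f z‖ ≤ C / (1 + ‖z‖ ^ 2)) :
    Integrable (fun x : ℝ => f (x : ℂ)) := by
  have hcont : Continuous (fun x : ℝ => f (x : ℂ)) := by
    apply hc.comp_continuous Complex.continuous_ofReal
    intro x
    change 0 ≤ (x : ℂ).im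
    rw [Complex.ofReal_im]
  refine Integrable.mono' (integrable_inv_one_add_sq.const_mul C) hcont.aestronglyMeasurable ?_
  refine Filter.Eventually.of_forall fun x => ?_
  have h := hb (x : ℂ) (by rw [Complex.ofReal_im])
  rw [Complex.norm_real, Real.norm_eq_abs, sq_abs, div_eq_mul_inv] at h
  exact h

theorem A1_bound (f : ℂ → ℂ) (C : ℝ) (hc : ContinuousOn f {z | 0 ≤ z.im})
    (hd : DifferentiableOn ℂ f {z | 0 < z.im})
    (hb : ∀ z : ℂ, 0 ≤ z.im → ‖f z‖ ≤ C / (1 + ‖z‖ ^ 2)) (R : ℝ) (hR : 0 < R) :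
    ‖∫ x : ℝ in (-R)..R, f (x : ℂ)‖ ≤ 4 * C * R / (1 + R ^ 2) := by
  have hC : 0 ≤ C := by
    have h := (norm_nonneg _).trans (hb 0 (by simp))
    simpa using h
  have key := Complex.integral_boundary_rect_eq_zero_of_continuousOn_of_differentiableOn f
    ((-R : ℝ) : ℂ) ((R : ℂ) + R * Complex.I) ?_ ?_
  · simp only [Complex.ofReal_re, Complex.add_re, Complex.mul_re, Complex.I_re, mul_zero,
      Complex.ofReal_im, Complex.I_im, mul_one, sub_self, add_zero, Complex.add_im, Complex.mul_im,
      zero_add, Complex.ofReal_zero, zero_mul] at key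
    have hsq : ∀ z : ℂ, 0 ≤ z.im → R ^ 2 ≤ ‖z‖ ^ 2 → ‖f z‖ ≤ C / (1 + R ^ 2) := by
      intro z hz h
      refine (hb z hz).trans ?_
      gcongr
    have h1 : ‖∫ x : ℝ in (-R)..R, f (x + R * Complex.I)‖ ≤ C / (1 + R ^ 2) * |R - (-R)| := by
      apply intervalIntegral.norm_integral_le_of_norm_le_const
      intro x _
      apply hsq
      · simp [hR.le]
      · rw [← Complex.normSq_eq_norm_sq, Complex.normSq_add_mul_I]
        nlinarith [sq_nonneg x]
    have h2 : ‖∫ y : ℝ in (0 : ℝ)..R, f ((R : ℂ) + y * Complex.I)‖ ≤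
        C / (1 + R ^ 2) * |R - 0| := by
      apply intervalIntegral.norm_integral_le_of_norm_le_const
      intro y hy
      rw [Set.uIoc_of_le hR.le] at hy
      apply hsq
      · simp [hy.1.le]
      · rw [← Complex.normSq_eq_norm_sq, Complex.normSq_add_mul_I]
        nlinarith [sq_nonneg y]
    have h3 : ‖∫ y : ℝ in (0 : ℝ)..R, f (((-R : ℝ) : ℂ) + y * Complex.I)‖ ≤
        C / (1 + R ^ 2) * |R - 0| := by
      apply intervalIntegral.norm_integral_le_of_norm_le_const
      intro y hy
      rw [Set.uIoc_of_le hR.le] at hy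
      apply hsq
      · simp [hy.1.le]
      · rw [← Complex.normSq_eq_norm_sq, Complex.normSq_add_mul_I]
        nlinarith [sq_nonneg y]
    have e : (∫ x : ℝ in (-R)..R, f (x : ℂ)) = (∫ x : ℝ in (-R)..R, f (x + R * Complex.I)) -
        Complex.I • (∫ y : ℝ in (0 : ℝ)..R, f ((R : ℂ) + y * Complex.I)) +
        Complex.I • (∫ y : ℝ in (0 : ℝ)..R, f (((-R : ℝ) : ℂ) + y * Complex.I)) := by
      linear_combination key
    rw [e]
    have a1 : |R - (-R)| = 2 * R := by rw [abs_of_pos (by linarith)]; ring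
    have a2 : |R - 0| = R := by rw [sub_zero, abs_of_pos hR]
    rw [a1] at h1
    rw [a2] at h2 h3
    refine (norm_add_le _ _).trans ?_
    refine (add_le_add (norm_sub_le _ _) le_rfl).trans ?_
    rw [norm_smul, norm_smul, Complex.norm_I, one_mul, one_mul]
    have e2 : 4 * C * R / (1 + R ^ 2) = C / (1 + R ^ 2) * (2 * R) + C / (1 + R ^ 2) * R +
        C / (1 + R ^ 2) * R := by ring
    rw [e2]
    linarith
  · apply hc.mono
    intro w hw
    rw [Complex.mem_reProdIm] at hw
    have h := hw.2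
    simp only [Complex.ofReal_im, Complex.add_im, Complex.mul_im, Complex.ofReal_re, Complex.I_im,
      mul_one, Complex.I_re, mul_zero, add_zero, zero_add] at h
    rw [Set.uIcc_of_le hR.le] at h
    exact h.1
  · apply hd.mono
    intro w hw
    rw [Complex.mem_reProdIm] at hw
    have h := hw.2
    simp only [Complex.ofReal_im, Complex.add_im, Complex.mul_im, Complex.ofReal_re, Complex.I_im,
      mul_one, Complex.I_re, mul_zero, add_zero, zero_add] at h
    rw [min_eq_left hR.le] at h
    exact h.1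

theorem A1 : SA1 := by
  intro f C hc hd hb
  have hint := A1_int f C hc hb
  have h1 : Tendsto (fun R : ℝ => ∫ x : ℝ in (-R)..R, f (x : ℂ)) atTop
      (𝓝 (∫ x : ℝ, f (x : ℂ))) :=
    intervalIntegral_tendsto_integral hint tendsto_neg_atTop_atBot tendsto_id
  have h2 : Tendsto (fun R : ℝ => ∫ x : ℝ in (-R)..R, f (x : ℂ)) atTop (𝓝 0) := by
    have hC : 0 ≤ C := by
      have h := (norm_nonneg _).trans (hb 0 (by simp))
      simpa using h
    apply squeeze_zero_norm' (a := fun R : ℝ => 4 * C * R⁻¹)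
    · filter_upwards [eventually_gt_atTop 0] with R hR
      refine (A1_bound f C hc hd hb R hR).trans ?_
      rw [div_le_iff₀ (by positivity)]
      have : 4 * C * R⁻¹ * (1 + R ^ 2) = 4 * C * R⁻¹ + 4 * C * R := by
        field_simp
      rw [this]
      have : 0 ≤ 4 * C * R⁻¹ := by positivity
      linarith
    · have := tendsto_inv_atTop_zero.const_mul (4 * C)
      rw [mul_zero] at this
      exact this
  exact tendsto_nhds_unique h1 h2

end

end Pool.Agent.H13.TQ
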