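import Pool.Agent.H13.TQ.Stm

/-!
Crew TQ: auxiliary facts for the parts D6 and D7 (helper29).
-/

set_option autoImplicit false

namespace Pool.Agent.H13.TQ

open Filter Topology Finset

noncomputable section

theorem D6_n_pos : (0:ℝ) < nR := by unfold nR; norm_num

theorem D6_M_exp : M = Real.exp L := by
  unfold L
  rw [Real.exp_log]
  unfold M
  norm_num

theorem D6_n_M : nR = M + 1 := by unfold nR M; norm_num

theorem D6_Lam_re : Lam.re = L := by
  unfold Lam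
  simp

theorem D6_norm_exp (y : ℝ) : ‖Complex.exp (-Lam * (y : ℂ))‖ = Real.exp (-(L * y)) := by
  rw [Complex.norm_exp]
  congr 1
  rw [Complex.re_mul_ofReal, Complex.neg_re, D6_Lam_re]
  ring

/-- `|M exp(-Λ y)| = exp(L (1 - y))` -/
theorem D6_norm_Mexp (y : ℝ) :
    ‖(M : ℂ) * Complex.exp (-Lam * (y : ℂ))‖ = Real.exp (L * (1 - y)) := by
  rw [norm_mul, D6_norm_exp, Complex.norm_real, Real.norm_of_nonneg (by unfold M; norm_num),
    D6_M_exp, ← Real.exp_add]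
  congr 1
  ring

theorem D6_fac (y : ℝ) : fac y 0 = (1 + (M : ℂ) * Complex.exp (-Lam * (y : ℂ))) / (nR : ℂ) := by
  unfold fac
  rw [pow_zero, div_one]

theorem D6_fac_ge1 (y : ℝ) : (1 - Real.exp (L * (1 - y))) / nR ≤ ‖fac y 0‖ := by
  rw [D6_fac, norm_div, Complex.norm_real, Real.norm_of_nonneg D6_n_pos.le]
  apply div_le_div_of_nonneg_right _ D6_n_pos.le
  rw [← D6_norm_Mexp]
  have h := norm_sub_norm_le (1 : ℂ) (-((M : ℂ) * Complex.exp (-Lam * (y : ℂ))))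
  rw [norm_neg, norm_one, sub_neg_eq_add] at h
  exact h

theorem D6_fac_ge2 (y : ℝ) : (Real.exp (L * (1 - y)) - 1) / nR ≤ ‖fac y 0‖ := by
  rw [D6_fac, norm_div, Complex.norm_real, Real.norm_of_nonneg D6_n_pos.le]
  apply div_le_div_of_nonneg_right _ D6_n_pos.le
  rw [← D6_norm_Mexp]
  have h := norm_sub_norm_le ((M : ℂ) * Complex.exp (-Lam * (y : ℂ))) (-(1 : ℂ))
  rw [norm_neg, norm_one, sub_neg_eq_add, add_comm] at h
  exact h

/-- `pp` in terms of the real ratio -/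
theorem D6_q_pow (j k : ℕ) :
    q j ^ k = Complex.exp (-Lam * (((k : ℝ) / nR ^ j : ℝ) : ℂ)) := by
  unfold q
  rw [← Complex.exp_nat_mul]
  congr 1
  push_cast
  ring

theorem D6_pp (j k : ℕ) :
    pp j k = 1 + (M : ℂ) * Complex.exp (-Lam * (((k : ℝ) / nR ^ j : ℝ) : ℂ)) := by
  unfold pp
  rw [D6_q_pow]

theorem D6_pp_fac (j k : ℕ) : pp j k = (nR : ℂ) * fac ((k : ℝ) / nR ^ j) 0 := by
  rw [D6_pp, D6_fac, mul_div_cancel₀]
  exact_mod_cast D6_n_pos.ne'

end

end Pool.Agent.H13.TQ
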