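import Pool.Agent.H13.TQ.PD4
/-! Part D8 is proved in PD4.lean (helper68). -/
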