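import Pool.Agent.H13.TQ.Stm
import Pool.Agent.H13.TQ.PSB

namespace Pool.Agent.H13.TQ

open Finset

noncomputable section

theorem e5_bb_zero (σ : ℝ) : bb σ 0 = 0 := by simp [bb]

theorem e5_bb_nonneg (σ : ℝ) (h : 0 < σ) (i : ℕ) : 0 ≤ bb σ i := by unfold bb; positivity

/-- Powers: if `A ≤ η bb` then the coefficients of `A^s` are at most `η^s 8^(s-1) bb`. -/
theorem e5_pow (h4 : SE4) (σ η : ℝ) (hσ : 0 < σ) (hη : 0 ≤ η) (A : ℕ → ℝ) (hA : ∀ i, 0 ≤ A i) (k : ℕ)
    (hb : ∀ i, i ≤ k → A i ≤ η * bb σ i) (s : ℕ) (hs : 1 ≤ s) :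
    PowerSeries.coeff k ((PowerSeries.mk A) ^ s) ≤ η ^ s * (8 ^ (s - 1) * bb σ k) := by
  refine (psb_mono A (fun i => η * bb σ i) hA k hb s).trans ?_
  rw [psb_scale]
  exact mul_le_mul_of_nonneg_left (h4 σ hσ s k hs) (pow_nonneg hη s)

/-- Powers `s ≥ 2`, only the entries below `k` matter. -/
theorem e5_pow' (h4 : SE4) (σ η : ℝ) (hσ : 0 < σ) (hη : 0 ≤ η) (A : ℕ → ℝ) (h0 : A 0 = 0)
    (hA : ∀ i, 0 ≤ A i) (k : ℕ)
    (hb : ∀ i, i < k → A i ≤ η * bb σ i) (s : ℕ) (hs : 2 ≤ s) :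
    PowerSeries.coeff k ((PowerSeries.mk A) ^ s) ≤ η ^ s * (8 ^ (s - 1) * bb σ k) := by
  refine (psb_mono' A (fun i => η * bb σ i) h0 (by simp [e5_bb_zero]) hA k hb s hs).trans ?_
  rw [psb_scale]
  exact mul_le_mul_of_nonneg_left (h4 σ hσ s k (by omega)) (pow_nonneg hη s)

/-- Geometric sum. -/
theorem e5_geom (η : ℝ) (hη : 0 ≤ η) (hη8 : 8 * η ≤ 1 / 2) (a k : ℕ) (ha : 1 ≤ a) :
    ∑ s ∈ Icc a k, η ^ s * (8 : ℝ) ^ (s - 1) ≤ 2 * (η ^ a * 8 ^ (a - 1)) := by
  have h : ∀ k : ℕ, ∑ s ∈ Icc a k, η ^ s * (8 : ℝ) ^ (s - 1) ≤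
      2 * (η ^ a * 8 ^ (a - 1)) - (if a ≤ k then η ^ k * 8 ^ (k - 1) else 0) := by
    intro k
    induction k with
    | zero =>
      have e : Icc a 0 = ∅ := by
        apply Finset.Icc_eq_empty; omega
      rw [e, Finset.sum_empty, if_neg (by omega)]
      have : 0 ≤ η ^ a * (8 : ℝ) ^ (a - 1) := by positivity
      linarith
    | succ k ih =>
      by_cases hk : a ≤ k + 1
      · rw [Finset.sum_Icc_succ_top hk, if_pos hk]
        by_cases hk' : a ≤ k
        · rw [if_pos hk'] at ih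
          have e : η ^ (k + 1) * (8 : ℝ) ^ (k + 1 - 1) = (8 * η) * (η ^ k * 8 ^ (k - 1)) := by
            obtain ⟨r, rfl⟩ : ∃ r, k = r + 1 := ⟨k - 1, by omega⟩
            simp only [Nat.add_sub_cancel]
            ring
          have h1 : 0 ≤ η ^ k * (8 : ℝ) ^ (k - 1) := by positivity
          have h2 : (8 * η) * (η ^ k * 8 ^ (k - 1)) ≤ 1 / 2 * (η ^ k * 8 ^ (k - 1)) :=
            mul_le_mul_of_nonneg_right hη8 h1
          rw [e]
          linarith
        · have e : a = k + 1 := by omega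
          have e' : Icc a k = ∅ := by
            apply Finset.Icc_eq_empty; omega
          rw [e', Finset.sum_empty, e]
          linarith
      · have e : Icc a (k + 1) = ∅ := by
          apply Finset.Icc_eq_empty; omega
        rw [e, Finset.sum_empty, if_neg hk]
        have : 0 ≤ η ^ a * (8 : ℝ) ^ (a - 1) := by positivity
        linarith
  refine (h k).trans ?_
  split_ifs
  · have : 0 ≤ η ^ k * (8 : ℝ) ^ (k - 1) := by positivity
    linarith
  · linarith

/-- `NN A k ≤ 16 η² bb`. -/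
theorem e5_NN (h4 : SE4) (σ η : ℝ) (hσ : 0 < σ) (hη : 0 ≤ η) (hη8 : 8 * η ≤ 1 / 2) (A : ℕ → ℝ)
    (h0 : A 0 = 0) (hA : ∀ i, 0 ≤ A i) (k : ℕ) (hb : ∀ i, i < k → A i ≤ η * bb σ i) :
    NN A k ≤ 16 * η ^ 2 * bb σ k := by
  unfold NN
  have h1 : ∑ s ∈ Icc 2 k, PowerSeries.coeff k ((PowerSeries.mk A) ^ s) ≤
      ∑ s ∈ Icc 2 k, η ^ s * (8 : ℝ) ^ (s - 1) * bb σ k := by
    refine Finset.sum_le_sum ?_
    intro s hs
    have hs' := Finset.mem_Icc.1 hs
    refine (e5_pow' h4 σ η hσ hη A h0 hA k hb s hs'.1).trans (le_of_eq ?_)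
    ring
  refine h1.trans ?_
  rw [← Finset.sum_mul]
  refine (mul_le_mul_of_nonneg_right (e5_geom η hη hη8 2 k (by norm_num))
    (e5_bb_nonneg σ hσ k)).trans (le_of_eq ?_)
  rw [show (2 : ℕ) - 1 = 1 from rfl]
  ring

theorem e5_NN_nonneg (A : ℕ → ℝ) (hA : ∀ i, 0 ≤ A i) (k : ℕ) : 0 ≤ NN A k := by
  unfold NN
  exact Finset.sum_nonneg (fun s _ => psb_nonneg A hA k s)

/-- Split of `NN U (k+1)`: the square and the higher powers. -/
theorem e5_NN_split (h4 : SE4) (σ η : ℝ) (hσ : 0 < σ) (hη : 0 ≤ η) (hη8 : 8 * η ≤ 1 / 2) (U : ℕ → ℝ)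
    (h0 : U 0 = 0) (hU : ∀ i, 0 ≤ U i) (k : ℕ) (hk : 2 ≤ k) (hb : ∀ i, i < k + 1 → U i ≤ η * bb σ i) :
    NN U (k + 1) ≤ PowerSeries.coeff (k + 1) ((PowerSeries.mk U) ^ 2) + 128 * η ^ 3 * bb σ (k + 1) := by
  unfold NN
  have e : Icc 2 (k + 1) = insert 2 (Icc 3 (k + 1)) := by
    ext x
    simp only [Finset.mem_Icc, Finset.mem_insert]
    omega
  rw [e, Finset.sum_insert (by simp)]
  have h1 : ∑ s ∈ Icc 3 (k + 1), PowerSeries.coeff (k + 1) ((PowerSeries.mk U) ^ s) ≤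
      ∑ s ∈ Icc 3 (k + 1), η ^ s * (8 : ℝ) ^ (s - 1) * bb σ (k + 1) := by
    refine Finset.sum_le_sum ?_
    intro s hs
    have hs' := Finset.mem_Icc.1 hs
    refine (e5_pow' h4 σ η hσ hη U h0 hU (k + 1) hb s (by omega)).trans (le_of_eq ?_)
    ring
  have h2 : ∑ s ∈ Icc 3 (k + 1), η ^ s * (8 : ℝ) ^ (s - 1) * bb σ (k + 1) ≤
      128 * η ^ 3 * bb σ (k + 1) := by
    rw [← Finset.sum_mul]
    refine (mul_le_mul_of_nonneg_right (e5_geom η hη hη8 3 (k + 1) (by norm_num))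
      (e5_bb_nonneg σ hσ _)).trans (le_of_eq ?_)
    rw [show (3 : ℕ) - 1 = 2 from rfl]
    ring
  linarith

/-- The square: `U = V + (entry 1) + (entry k)`, with `V` supported in `[2, k-1]`. -/
theorem e5_sq (h4 : SE4) (σ δ a b : ℝ) (hσ : 0 < σ) (hδ : 0 ≤ δ) (U : ℕ → ℝ)
    (h0 : U 0 = 0) (hU : ∀ i, 0 ≤ U i) (k : ℕ) (hk : 2 ≤ k) (h1 : U 1 ≤ a) (hk' : U k ≤ b)
    (hb : ∀ i, 2 ≤ i → i < k → U i ≤ δ * bb σ i) :
    PowerSeries.coeff (k + 1) ((PowerSeries.mk U) ^ 2) ≤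
      2 * (a * b) + δ ^ 2 * (8 * bb σ (k + 1)) := by
  have ha : 0 ≤ a := (hU 1).trans h1
  have hb0 : 0 ≤ b := (hU k).trans hk'
  rw [pow_two, PowerSeries.coeff_mul]
  have key : ∀ p ∈ antidiagonal (k + 1), PowerSeries.coeff p.1 (PowerSeries.mk U) *
      PowerSeries.coeff p.2 (PowerSeries.mk U) ≤
      ((if p = (1, k) then a * b else 0) + (if p = (k, 1) then a * b else 0)) +
        (δ * bb σ p.1) * (δ * bb σ p.2) := by
    rintro ⟨i, j⟩ hp
    have e := Finset.HasAntidiagonal.mem_antidiagonal.1 hp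
    simp only at e
    rw [PowerSeries.coeff_mk, PowerSeries.coeff_mk]
    have hpos : 0 ≤ (δ * bb σ i) * (δ * bb σ j) := by
      have := e5_bb_nonneg σ hσ i
      have := e5_bb_nonneg σ hσ j
      positivity
    have hab : 0 ≤ a * b := mul_nonneg ha hb0
    simp only [Prod.mk.injEq]
    by_cases hi0 : i = 0
    · subst hi0
      rw [h0, zero_mul]
      split_ifs <;> linarith
    by_cases hj0 : j = 0
    · subst hj0
      rw [h0, mul_zero]
      split_ifs <;> linarith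
    by_cases hi1 : i = 1
    · have hj : j = k := by omega
      subst hi1; subst hj
      rw [if_pos ⟨rfl, rfl⟩]
      have h2 : U 1 * U j ≤ a * b := mul_le_mul h1 hk' (hU _) ha
      split_ifs <;> linarith
    by_cases hj1 : j = 1
    · have hi : i = k := by omega
      subst hj1; subst hi
      rw [if_neg (by omega), if_pos ⟨rfl, rfl⟩]
      have h2 : U i * U 1 ≤ b * a := mul_le_mul hk' h1 (hU _) hb0
      linarith [mul_comm a b]
    · rw [if_neg (by omega), if_neg (by omega)]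
      have h2 : U i * U j ≤ (δ * bb σ i) * (δ * bb σ j) := by
        refine mul_le_mul (hb i (by omega) (by omega)) (hb j (by omega) (by omega)) (hU _) ?_
        have := e5_bb_nonneg σ hσ i
        positivity
      linarith
  refine (Finset.sum_le_sum key).trans ?_
  rw [Finset.sum_add_distrib, Finset.sum_add_distrib]
  have hm1 : (1, k) ∈ antidiagonal (k + 1) := by
    rw [Finset.HasAntidiagonal.mem_antidiagonal]; simp [add_comm]
  have hm2 : (k, 1) ∈ antidiagonal (k + 1) := by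
    rw [Finset.HasAntidiagonal.mem_antidiagonal]
  rw [Finset.sum_ite_eq' , Finset.sum_ite_eq', if_pos hm1, if_pos hm2]
  have h5 : ∑ p ∈ antidiagonal (k + 1), (δ * bb σ p.1) * (δ * bb σ p.2) ≤
      δ ^ 2 * (8 * bb σ (k + 1)) := by
    have h6 := h4 σ hσ 2 (k + 1) (by norm_num)
    rw [pow_two, PowerSeries.coeff_mul] at h6
    simp only [PowerSeries.coeff_mk] at h6
    have e : ∑ p ∈ antidiagonal (k + 1), (δ * bb σ p.1) * (δ * bb σ p.2) =
        δ ^ 2 * ∑ p ∈ antidiagonal (k + 1), bb σ p.1 * bb σ p.2 := by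
      rw [Finset.mul_sum]
      refine Finset.sum_congr rfl (fun p _ => ?_)
      ring
    rw [e]
    refine mul_le_mul_of_nonneg_left (h6.trans (le_of_eq ?_)) (by positivity)
    norm_num
  linarith

theorem e5_bb_succ (σ : ℝ) (hσ : 0 < σ) (k : ℕ) (hk : 1 ≤ k) : bb σ (k + 1) ≤ σ * bb σ k := by
  unfold bb
  have hk' : (0 : ℝ) < k := by exact_mod_cast hk
  push_cast
  rw [pow_succ, mul_comm (σ ^ k) σ, mul_div_assoc]
  refine mul_le_mul_of_nonneg_left ?_ hσ.le
  refine div_le_div_of_nonneg_left (by positivity) (by positivity) ?_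
  nlinarith

/-- The sequence. -/
def e5B (C : ℝ) (k : ℕ) : ℝ :=
  if k = 0 then 0 else if k = 1 then 3 * (1 / (1000000 * C ^ 3) * (1 / 100))
  else 1 / (32 * C) * (1 / (1000000 * C ^ 3)) * bb (1 / 100) k

theorem E5 (h4 : SE4) : SE5 := by
  intro C hC
  have hC0 : 0 < C := by linarith
  set ε : ℝ := 1 / (1000000 * C ^ 3) with hε
  have hε0 : 0 < ε := by positivity
  have hC3 : 1 ≤ C ^ 3 := one_le_pow₀ hC
  have hε1 : ε ≤ 1 / 1000000 := by
    rw [hε]
    refine div_le_div_of_nonneg_left (by norm_num) (by norm_num) ?_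
    nlinarith
  have hCε : C ^ 3 * ε = 1 / 1000000 := by
    rw [hε]; field_simp
  set c3 : ℝ := 1 / (32 * C) with hc3
  have hc30 : 0 < c3 := by positivity
  have hc31 : c3 ≤ 1 := by
    rw [hc3, div_le_one (by positivity)]
    linarith
  have hCc3 : C * c3 = 1 / 32 := by rw [hc3]; field_simp
  have hB0 : e5B C 0 = 0 := by simp [e5B]
  have hB1 : e5B C 1 = 3 * (ε * (1 / 100)) := by simp [e5B, hε]
  have hB2 : ∀ k, 2 ≤ k → e5B C k = c3 * ε * bb (1 / 100) k := by
    intro k hk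
    unfold e5B
    rw [if_neg (by omega), if_neg (by omega)]
  have hσ : (0 : ℝ) < 1 / 100 := by norm_num
  have hbb : ∀ i, 0 ≤ bb (1 / 100) i := e5_bb_nonneg _ hσ
  have hBn : ∀ k, 0 ≤ e5B C k := by
    intro k
    rcases Nat.lt_or_ge k 2 with h | h
    · interval_cases k
      · rw [hB0]
      · rw [hB1]; positivity
    · rw [hB2 k h]
      have := hbb k
      positivity
  have hBη : ∀ k, e5B C k ≤ 3 * ε * bb (1 / 100) k := by
    intro k
    rcases Nat.lt_or_ge k 2 with h | h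
    · interval_cases k
      · rw [hB0, e5_bb_zero]; simp
      · rw [hB1]; simp [bb]; linarith
    · rw [hB2 k h]
      refine mul_le_mul_of_nonneg_right ?_ (hbb k)
      nlinarith
  refine ⟨ε * (1 / 100), e5B C, by positivity, by nlinarith, hB0, hBn, hB1, ?_, ?_⟩
  · intro k hk
    rw [hB2 k hk]
    obtain ⟨r, rfl⟩ : ∃ r, k = r + 1 := ⟨k - 1, by omega⟩
    have h1 : bb (1 / 100) (r + 1) ≤ (1 / 100 : ℝ) ^ (r + 1) := by
      unfold bb
      refine div_le_self (by positivity) ?_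
      have : (1 : ℝ) ≤ ((r + 1 : ℕ) : ℝ) := by
        exact_mod_cast (by omega : 1 ≤ r + 1)
      exact one_le_pow₀ this
    have h2 : c3 * ε ≤ ε := by nlinarith
    calc c3 * ε * bb (1 / 100) (r + 1) ≤ ε * (1 / 100 : ℝ) ^ (r + 1) :=
          mul_le_mul h2 h1 (hbb _) hε0.le
      _ = ε * (1 / 100) * (1 / 100) ^ (r + 1 - 1) := by
          rw [Nat.add_sub_cancel, pow_succ]; ring
  · intro k hk
    have hη8 : 8 * (3 * ε) ≤ 1 / 2 := by linarith
    have hN : NN (e5B C) k ≤ 16 * (3 * ε) ^ 2 * bb (1 / 100) k :=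
      e5_NN h4 _ (3 * ε) hσ (by positivity) hη8 _ hB0 hBn k (fun i _ => hBη i)
    have hN0 : 0 ≤ NN (e5B C) k := e5_NN_nonneg _ hBn k
    set v : ℝ := C * NN (e5B C) k with hv
    have hv0 : 0 ≤ v := by positivity
    have hv1 : v ≤ 144 * C * ε ^ 2 * bb (1 / 100) k := by
      calc v ≤ C * (16 * (3 * ε) ^ 2 * bb (1 / 100) k) := mul_le_mul_of_nonneg_left hN hC0.le
        _ = 144 * C * ε ^ 2 * bb (1 / 100) k := by ring
    have hCC : C ≤ C ^ 3 := by
      have : 1 ≤ C ^ 2 := one_le_pow₀ hC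
      nlinarith
    have hCε1 : C * ε ≤ 1 / 1000000 := by
      rw [← hCε]
      exact mul_le_mul_of_nonneg_right hCC hε0.le
    have hv2 : v ≤ 3 * ε * bb (1 / 100) k := by
      refine hv1.trans (mul_le_mul_of_nonneg_right ?_ (hbb k))
      nlinarith
    set U : ℕ → ℝ := Function.update (e5B C) k v with hUd
    have hU0 : U 0 = 0 := by
      rw [hUd, Function.update_of_ne (by omega), hB0]
    have hU1 : U 1 = 3 * (ε * (1 / 100)) := by
      rw [hUd, Function.update_of_ne (by omega), hB1]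
    have hUk : U k = v := by rw [hUd, Function.update_self]
    have hUne : ∀ i, i ≠ k → U i = e5B C i := fun i hi => by
      rw [hUd, Function.update_of_ne hi]
    have hUn : ∀ i, 0 ≤ U i := by
      intro i
      by_cases hi : i = k
      · rw [hi, hUk]; exact hv0
      · rw [hUne i hi]; exact hBn i
    have hUb : ∀ i, U i ≤ 3 * ε * bb (1 / 100) i := by
      intro i
      by_cases hi : i = k
      · rw [hi, hUk]; exact hv2
      · rw [hUne i hi]; exact hBη i
    have hS := e5_NN_split h4 _ (3 * ε) hσ (by positivity) hη8 U hU0 hUn k hk (fun i _ => hUb i)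
    have hQ := e5_sq h4 _ (c3 * ε) (3 * (ε * (1 / 100))) v hσ (by positivity) U hU0 hUn k hk
      hU1.le hUk.le (fun i h2 hik => by rw [hUne i (by omega), hB2 i h2])
    have hbs := e5_bb_succ (1 / 100) hσ k (by omega)
    have hbk := hbb k
    -- the total bound of `NN U (k+1)`
    have hT : NN U (k + 1) ≤ ε * (1 / 100) * ((864 * C * ε ^ 2 + 8 * c3 ^ 2 * ε + 3456 * ε ^ 2) *
        bb (1 / 100) k) := by
      have a1 : 2 * (3 * (ε * (1 / 100)) * v) ≤ ε * (1 / 100) * (864 * C * ε ^ 2 * bb (1 / 100) k) := by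
        have := mul_le_mul_of_nonneg_left hv1 (by positivity : 0 ≤ 6 * (ε * (1 / 100)))
        linarith
      have a2 : (c3 * ε) ^ 2 * (8 * bb (1 / 100) (k + 1)) ≤
          ε * (1 / 100) * (8 * c3 ^ 2 * ε * bb (1 / 100) k) := by
        have := mul_le_mul_of_nonneg_left hbs (by positivity : 0 ≤ 8 * (c3 * ε) ^ 2)
        linarith
      have a3 : 128 * (3 * ε) ^ 3 * bb (1 / 100) (k + 1) ≤
          ε * (1 / 100) * (3456 * ε ^ 2 * bb (1 / 100) k) := by
        have := mul_le_mul_of_nonneg_left hbs (by positivity : 0 ≤ 128 * (3 * ε) ^ 3)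
        linarith
      linarith
    have hT2 : C / (ε * (1 / 100)) * NN U (k + 1) ≤
        C * ((864 * C * ε ^ 2 + 8 * c3 ^ 2 * ε + 3456 * ε ^ 2) * bb (1 / 100) k) := by
      have hp : 0 < ε * (1 / 100) := by positivity
      rw [div_mul_eq_mul_div, div_le_iff₀ hp]
      have := mul_le_mul_of_nonneg_left hT hC0.le
      linarith
    rw [hB2 k hk]
    have hfin : 144 * C * ε ^ 2 + C * (864 * C * ε ^ 2 + 8 * c3 ^ 2 * ε + 3456 * ε ^ 2) ≤ c3 * ε := by
      -- `8 C c3² = c3 / 4`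
      have b1 : C * (8 * c3 ^ 2 * ε) = c3 * ε / 4 := by
        have : C * c3 ^ 2 = c3 / 32 := by
          calc C * c3 ^ 2 = (C * c3) * c3 := by ring
            _ = c3 / 32 := by rw [hCc3]; ring
        calc C * (8 * c3 ^ 2 * ε) = 8 * (C * c3 ^ 2) * ε := by ring
          _ = c3 * ε / 4 := by rw [this]; ring
      have b2 : 144 * C * ε ^ 2 + C * (864 * C * ε ^ 2 + 3456 * ε ^ 2) ≤ 4464 * C ^ 2 * ε ^ 2 := by
        have : C ≤ C ^ 2 := by nlinarith
        have h3 : 0 ≤ ε ^ 2 := by positivity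
        have h4 : C * ε ^ 2 ≤ C ^ 2 * ε ^ 2 := mul_le_mul_of_nonneg_right this h3
        linarith
      have b3 : C ^ 2 * ε ≤ c3 / 10000 := by
        -- `C^3 ε = 10^-6`, `c3 = 1 / (32 C)`
        have : C * (C ^ 2 * ε) ≤ C * (c3 / 10000) := by
          have e1 : C * (C ^ 2 * ε) = 1 / 1000000 := by rw [← hCε]; ring
          have e2 : C * (c3 / 10000) = 1 / 320000 := by
            calc C * (c3 / 10000) = (C * c3) / 10000 := by ring
              _ = 1 / 320000 := by rw [hCc3]; norm_num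
          rw [e1, e2]; norm_num
        exact le_of_mul_le_mul_left this hC0
      have b4 : 4464 * C ^ 2 * ε ^ 2 ≤ 4464 * (c3 / 10000) * ε := by
        have := mul_le_mul_of_nonneg_right b3 hε0.le
        linarith
      have b5 : 0 ≤ c3 * ε := by positivity
      linarith
    have hfin' := mul_le_mul_of_nonneg_right hfin hbk
    calc v + C / (ε * (1 / 100)) * NN U (k + 1)
        ≤ 144 * C * ε ^ 2 * bb (1 / 100) k +
          C * ((864 * C * ε ^ 2 + 8 * c3 ^ 2 * ε + 3456 * ε ^ 2) * bb (1 / 100) k) :=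
          add_le_add hv1 hT2
      _ = (144 * C * ε ^ 2 + C * (864 * C * ε ^ 2 + 8 * c3 ^ 2 * ε + 3456 * ε ^ 2)) *
          bb (1 / 100) k := by ring
      _ ≤ c3 * ε * bb (1 / 100) k := hfin'

end

end Pool.Agent.H13.TQ
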