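import Pool.Agent.H13.TQ.Defs

/-!
# Crew TQ: statements of the parts
-/

namespace Pool.Agent.H13.TQ

open MeasureTheory Filter Topology Finset

noncomputable section

/-! ## The final statement -/

/-- Disproof of Q1 of MP_50dbd7_an. -/
def Result : Prop :=
  ∃ (N : ℕ) (T : Set (List (Fin N))), IsTree T ∧ T.Finite ∧ 1 < numNbr T ∧
  ∃ (k : ℕ → ℕ) (μ : ℕ → ProbabilityMeasure ℝ) (conv : ℕ → ℕ → ProbabilityMeasure ℝ)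
    (b : ℕ → ProbabilityMeasure ℝ),
    Tendsto k atTop atTop ∧
    (∀ l, conv l 0 = μ l) ∧
    (∀ l i, i < k l → IsTreeConv (conv l i) T (conv l (i + 1))) ∧
    (∀ l (z : ℂ), 0 < z.im → K (b l) z = (numNbr T : ℂ) ^ (k l) * K (μ l) z) ∧
    (∃ lam : ProbabilityMeasure ℝ, ∀ l, conv l (k l) = lam) ∧
    ¬ ∃ ν : ProbabilityMeasure ℝ, Tendsto b atTop (𝓝 ν)

/-! ## A: half plane -/

/-- A1: contour shift. -/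
def SA1 : Prop := ∀ (f : ℂ → ℂ) (C : ℝ), ContinuousOn f {z | 0 ≤ z.im} →
  DifferentiableOn ℂ f {z | 0 < z.im} →
  (∀ z : ℂ, 0 ≤ z.im → ‖f z‖ ≤ C / (1 + ‖z‖ ^ 2)) → ∫ x : ℝ, f (x : ℂ) = 0

/-- A2: Stieltjes representation with the density `-Im g / π`. -/
def SA2 : Prop := ∀ (g : ℂ → ℂ) (C : ℝ), ContinuousOn g {z | 0 ≤ z.im} →
  DifferentiableOn ℂ g {z | 0 < z.im} →
  (∀ z : ℂ, 0 ≤ z.im → ‖g z‖ ≤ C / (1 + ‖z‖)) → ∀ z : ℂ, 0 < z.im →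
  ∫ t : ℝ, ((-(g (t : ℂ)).im / Real.pi : ℝ) : ℂ) * (z - (t : ℂ))⁻¹ = g z

/-- A3: existence of the measure with `F(z) = z + h(z)`. -/
def SA3 : Prop := ∀ (h : ℂ → ℂ) (B c : ℝ), 0 < c → DifferentiableOn ℂ h {z | -1 < z.im} →
  (∀ z : ℂ, 0 ≤ z.im → ‖h z‖ ≤ B) → (∀ z : ℂ, 0 ≤ z.im → c ≤ (h z).im) →
  ∃ μ : ProbabilityMeasure ℝ, ∀ z : ℂ, 0 < z.im → K μ z = - h z

/-! ## B: trees and final assembly -/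

/-- B1 -/
def SB1 : Prop := ∀ (n : ℕ) [NeZero n], 2 ≤ n →
  IsTree (Tn n) ∧ (Tn n).Finite ∧ numNbr (Tn n) = n

/-- B2 -/
def SB2 : Prop := ∀ (n : ℕ) [NeZero n], 2 ≤ n → ∀ μ ν : ProbabilityMeasure ℝ,
  (∀ z : ℂ, 0 < z.im → K ν z = K μ z + ((n : ℂ) - 1) * K μ (z - K μ z)) →
  IsTreeConv μ (Tn n) ν

/-- B3 -/
def SB3 : Prop := ∀ (b : ℕ → ProbabilityMeasure ℝ) (ν : ProbabilityMeasure ℝ),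
  Tendsto b atTop (𝓝 ν) → ∀ z : ℂ, 0 < z.im →
  Tendsto (fun l => K (b l) z) atTop (𝓝 (K ν z))

/-- The chain of functions. -/
def SChain : Prop := ∃ (g : ℕ → ℂ → ℂ) (B c : ℝ) (z0 d : ℂ), 0 < c ∧ 0 < z0.im ∧ d ≠ 0 ∧
  (∀ m, DifferentiableOn ℂ (g m) {z | -1 < z.im}) ∧
  (∀ m (z : ℂ), -1 < z.im → ‖(nR : ℂ) ^ m * g m z‖ ≤ B) ∧
  (∀ m (z : ℂ), -1 < z.im → c ≤ ((nR : ℂ) ^ m * g m z).im) ∧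
  (∀ m (z : ℂ), 0 < z.im → g m z = g (m + 1) z + (M : ℂ) * g (m + 1) (z + g (m + 1) z)) ∧
  (∀ m (z : ℂ), -1 < z.im → g m (z + 2 * (Real.pi : ℂ)) = g m z) ∧
  (∀ z : ℂ, 0 < z.im → g 0 (z + (Real.pi : ℂ)) = g 0 z) ∧
  (∃ m0, ∀ m ≥ m0, ‖(nR : ℂ) ^ m * (g m z0 - g m (z0 + (Real.pi : ℂ))) - d‖ ≤ ‖d‖ / 2)

/-- B4: assembly of the final result. -/
def SB4 : Prop := SA3 → SB1 → SB2 → SB3 → SChain → Result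

/-! ## C: from coefficients to functions -/

/-- C1 -/
def SC1 : Prop := ∀ (a : ℕ → ℂ) (c Q : ℂ), a 0 = 0 → Summable (fun k => ‖a k‖ * ‖Q‖ ^ k) →
  HasSum (fun r => ec a c r * Q ^ r) (Complex.exp (c * ∑' k, a k * Q ^ k)) ∧
  Summable (fun r => ‖ec a c r‖ * ‖Q‖ ^ r) ∧
  ∑' r, ‖ec a c r‖ * ‖Q‖ ^ r ≤ Real.exp (‖c‖ * ∑' k, ‖a k‖ * ‖Q‖ ^ k)

/-- C2 (may use C1) -/
def SC2 : Prop := ∀ (a : ℕ → ℂ) (p Q : ℂ), a 0 = 0 → Summable (fun k => ‖a k‖ * ‖Q‖ ^ k) →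
  Summable (fun l => ‖a l‖ * (‖p‖ * ‖Q‖ * Real.exp (∑' k, ‖a k‖ * ‖Q‖ ^ k)) ^ l) →
  HasSum (fun k => (∑ l ∈ range (k + 1), a l * p ^ l * ec a (Complex.I * (l : ℂ)) (k - l)) * Q ^ k)
    (∑' l, a l * (p * Q * Complex.exp (Complex.I * ∑' k, a k * Q ^ k)) ^ l)

/-- The array of coefficients `g m k`. -/
def SArr : Prop := ∃ (t : ℝ) (g : ℕ → ℕ → ℂ), 0 < t ∧ t ≤ 1 / 100 ∧ (∀ m, g m 0 = 0) ∧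
  (∀ m k, 1 ≤ k → nR ^ m * ‖g m k‖ ≤ 3 * t * (1 / 100) ^ (k - 1)) ∧
  (∀ m k, 1 ≤ k → g m k = pp m k * g (m + 1) k + Pk m k (g (m + 1))) ∧
  (∀ k, Odd k → g 0 k = 0) ∧ Tendsto (fun m => (nR : ℂ) ^ m * g m 1) atTop (𝓝 (t : ℂ))

/-- The function with coefficients `a` at level `m`. -/
def gfun (g : ℕ → ℕ → ℂ) (m : ℕ) (z : ℂ) : ℂ :=
  Complex.I * (nR : ℂ) * Lam / (nR : ℂ) ^ m + ∑' k, g m k * Complex.exp (Complex.I * (k : ℂ) * z)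

/-- C3: analyticity, bounds, periods of the functions (uses only the bound on the coefficients). -/
def SC3 : Prop := ∀ (t : ℝ) (g : ℕ → ℕ → ℂ), 0 < t → t ≤ 1 / 100 → (∀ m, g m 0 = 0) →
  (∀ m k, 1 ≤ k → nR ^ m * ‖g m k‖ ≤ 3 * t * (1 / 100) ^ (k - 1)) →
  (∀ m, DifferentiableOn ℂ (gfun g m) {z | -1 < z.im}) ∧
  (∀ m (z : ℂ), -1 < z.im → ‖(nR : ℂ) ^ m * gfun g m z‖ ≤ 1000 * nR) ∧
  (∀ m (z : ℂ), -1 < z.im → 1 ≤ ((nR : ℂ) ^ m * gfun g m z).im) ∧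
  (∀ m (z : ℂ), -1 < z.im → gfun g m (z + 2 * (Real.pi : ℂ)) = gfun g m z) ∧
  ((∀ k, Odd k → g 0 k = 0) → ∀ z : ℂ, 0 < z.im → gfun g 0 (z + (Real.pi : ℂ)) = gfun g 0 z)

/-- C4: non-vanishing of the odd part at `z0 = i`, with `d = 2 t e^{-1}`. -/
def SC4 : Prop := ∀ (t : ℝ) (g : ℕ → ℕ → ℂ), 0 < t → t ≤ 1 / 100 → (∀ m, g m 0 = 0) →
  (∀ m k, 1 ≤ k → nR ^ m * ‖g m k‖ ≤ 3 * t * (1 / 100) ^ (k - 1)) →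
  Tendsto (fun m => (nR : ℂ) ^ m * g m 1) atTop (𝓝 (t : ℂ)) →
  ∃ m0, ∀ m ≥ m0, ‖(nR : ℂ) ^ m * (gfun g m Complex.I - gfun g m (Complex.I + (Real.pi : ℂ)))
    - ((2 * t * Real.exp (-1) : ℝ) : ℂ)‖ ≤ ‖((2 * t * Real.exp (-1) : ℝ) : ℂ)‖ / 2

/-- C5: the functional relation (uses C2). -/
def SC5 : Prop := ∀ (t : ℝ) (g : ℕ → ℕ → ℂ), 0 < t → t ≤ 1 / 100 → (∀ m, g m 0 = 0) →
  (∀ m k, 1 ≤ k → nR ^ m * ‖g m k‖ ≤ 3 * t * (1 / 100) ^ (k - 1)) →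
  (∀ m k, 1 ≤ k → g m k = pp m k * g (m + 1) k + Pk m k (g (m + 1))) →
  ∀ m (z : ℂ), 0 < z.im →
    gfun g m z = gfun g (m + 1) z + (M : ℂ) * gfun g (m + 1) (z + gfun g (m + 1) z)

/-! ## D: the constants, the finite products and the infinite product -/

/-- D0: numerical facts. -/
def SD0 : Prop := 13 < L ∧ L < 14 ∧ ‖Lam‖ < 15 ∧ (M : ℂ) * Complex.exp (-Lam) = -1 ∧
  (∀ j l : ℕ, ‖q j‖ ^ l = Real.exp (-(L * l / nR ^ j)))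

/-- D1 -/
def SD1 : Prop := ∀ y : ℝ, 0 ≤ y →
  Tendsto (fun J : ℕ => ∏ i ∈ range J, fac y i) atTop (𝓝 (Psi y))

/-- D2 -/
def SD2 : Prop := ∀ y : ℝ, 0 ≤ y → Psi y = fac y 0 * Psi (y / nR)

/-- D3 -/
def SD3 : Prop := ∀ y : ℝ, 0 ≤ y → y ≤ 1 / 100 → ‖Psi y - 1‖ ≤ 40 * y

/-- D4 -/
def SD4 : Prop := ∀ m j k : ℕ, m ≤ j → 1 ≤ k → ‖prodp m j k‖ * W m k ≤ 3 * W j k

/-- D5 -/
def SD5 : Prop := ∀ m k : ℕ, 1 ≤ k → W m k * ‖Psi ((k : ℝ) / nR ^ m)‖ ≤ 3 * nR ^ m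

/-- D6 -/
def SD6 : Prop := ∃ c : ℝ, 0 < c ∧ ∀ k : ℕ, 1 ≤ k →
  (∀ i : ℕ, nR ^ i / nR ≤ |(k : ℝ) - nR ^ i|) → c ≤ (k : ℝ) * ‖Psi (k : ℝ)‖

/-- D7 -/
def SD7 : Prop := ∃ c : ℝ, 0 < c ∧ ∀ l : ℕ, NR (l + 1) → c ≤ ((l : ℝ) + 1) * ‖Cc l‖

/-- D8 -/
def SD8 : Prop := ∀ l : ℕ, 1 ≤ l → Summable (fun j => ‖prodp 0 j (l + 1) * Cterm l j‖)

/-! ## E: majorants -/

/-- E1 -/
def SE1 : Prop := ∀ l s : ℕ, 1 ≤ l → 1 ≤ s →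
  Summable (fun j : ℕ => ((l : ℝ) / nR ^ (j + 1)) ^ s / ((s - 1).factorial : ℝ) *
    Real.exp (-(L * l / nR ^ j))) ∧
  ∑' j : ℕ, ((l : ℝ) / nR ^ (j + 1)) ^ s / ((s - 1).factorial : ℝ) *
    Real.exp (-(L * l / nR ^ j)) ≤ 4

/-- E2 -/
def SE2 : Prop := ∀ (A : ℕ → ℝ) (a : ℕ → ℂ) (j k : ℕ), A 0 = 0 → (∀ i, 0 ≤ A i) → a 0 = 0 →
  (∀ i, i < k → W (j + 1) i * ‖a i‖ ≤ A i) →
  W (j + 1) k * ‖Pk j k a‖ ≤ M * ∑ l ∈ Ico 1 k, A l * ∑ s ∈ Icc 1 (k - l),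
    2 * (((l : ℝ) / nR ^ (j + 1)) ^ s / ((s - 1).factorial : ℝ) * Real.exp (-(L * l / nR ^ j))) *
      PowerSeries.coeff (k - l) ((PowerSeries.mk A) ^ s)

/-- E3 -/
def SE3 : Prop := ∀ (A : ℕ → ℝ) (a : ℕ → ℕ → ℂ) (k : ℕ), A 0 = 0 → (∀ i, 0 ≤ A i) →
  (∀ m, a m 0 = 0) → (∀ m i, i < k → W m i * ‖a m i‖ ≤ A i) →
  Summable (fun j => W (j + 1) k * ‖Pk j k (a (j + 1))‖) ∧
  ∑' j, W (j + 1) k * ‖Pk j k (a (j + 1))‖ ≤ 8 * M * NN A k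

/-- Model sequence. -/
def bb (σ : ℝ) (i : ℕ) : ℝ := σ ^ i / (i : ℝ) ^ 2

/-- E4 -/
def SE4 : Prop := ∀ σ : ℝ, 0 < σ → ∀ s k : ℕ, 1 ≤ s →
  PowerSeries.coeff k ((PowerSeries.mk (bb σ)) ^ s) ≤ 8 ^ (s - 1) * bb σ k

/-- E5: the majorant sequence. -/
def SE5 : Prop := ∀ C : ℝ, 1 ≤ C → ∃ (t : ℝ) (Bd : ℕ → ℝ), 0 < t ∧ t ≤ 1 / 100 ∧ Bd 0 = 0 ∧
  (∀ k, 0 ≤ Bd k) ∧ Bd 1 = 3 * t ∧ (∀ k, 2 ≤ k → Bd k ≤ t * (1 / 100) ^ (k - 1)) ∧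
  ∀ k, 2 ≤ k →
    C * NN Bd k + C / t * NN (Function.update Bd k (C * NN Bd k)) (k + 1) ≤ Bd k

/-! ## F: the recursion -/

/-- F1 -/
def SF1 : Prop := ∀ (m k : ℕ) (a b : ℕ → ℂ), a 0 = 0 → (∀ i, i < k → a i = b i) → b 0 = 0 →
  Pk m k a = Pk m k b

/-- F2 -/
def SF2 : Prop := ∀ (m l : ℕ) (a b : ℕ → ℂ), 2 ≤ l → a 0 = 0 → (∀ i, i < l → b i = a i) →
  Pk m (l + 1) b = Pk m (l + 1) a +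
    Complex.I * (M : ℂ) * a 1 * (b l - a l) * ((l : ℂ) * q m ^ l + q m)

/-- F3 -/
def SF3 : Prop := ∀ (k : ℕ) (R : ℕ → ℂ), 1 ≤ k → Summable (fun j => W (j + 1) k * ‖R j‖) →
  ∀ m, Summable (fun r => ‖prodp m (m + r) k * R (m + r)‖) ∧
    W m k * ‖SS m k R‖ ≤ 3 * ∑' j, W (j + 1) k * ‖R j‖

/-- F4 -/
def SF4 : Prop := ∀ (k : ℕ) (R : ℕ → ℂ) (m : ℕ),
  Summable (fun r => ‖prodp m (m + r) k * R (m + r)‖) →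
  Summable (fun r => ‖prodp (m + 1) (m + 1 + r) k * R (m + 1 + r)‖) →
  SS m k R = R m + pp m k * SS (m + 1) k R

/-- F5: the bounds on the array. -/
def SF5 : Prop := ∃ (t : ℝ) (Bd : ℕ → ℝ), 0 < t ∧ t ≤ 1 / 100 ∧ Bd 0 = 0 ∧ (∀ k, 0 ≤ Bd k) ∧
  Bd 1 = 3 * t ∧ (∀ k, 2 ≤ k → Bd k ≤ t * (1 / 100) ^ (k - 1)) ∧
  ∀ k m, W m k * ‖gc t k m‖ ≤ Bd k

end

end Pool.Agent.H13.TQ
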